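import Pool.Agent.Lib.MP_cc0c1a_nt.Tri2.SpecS

/-!
# MP_cc0c1a_nt / Tri2 / S1: affine ranks of finite sets of points
-/

set_option autoImplicit false

namespace MPcc0Tri2

open Finset

private theorem s1_mono {α V : Type} [AddCommGroup V] [Module ℚ V] (P : α → V) {X Y : Finset α}
    (h : X ⊆ Y) : dsp P X ≤ dsp P Y := by
  refine Submodule.span_mono ?_
  rintro w ⟨i, hi, j, hj, rfl⟩
  exact ⟨i, h hi, j, h hj, rfl⟩

private theorem s1_mem {α V : Type} [AddCommGroup V] [Module ℚ V] (P : α → V) {X : Finset α}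
    {i j : α} (hi : i ∈ X) (hj : j ∈ X) : P i - P j ∈ dsp P X :=
  Submodule.subset_span ⟨i, hi, j, hj, rfl⟩

private theorem s1_union {α V : Type} [DecidableEq α] [AddCommGroup V] [Module ℚ V] (P : α → V)
    {X Y : Finset α} (h : (X ∩ Y).Nonempty) : dsp P (X ∪ Y) ≤ dsp P X ⊔ dsp P Y := by
  obtain ⟨a, ha⟩ := h
  rw [Finset.mem_inter] at ha
  have key : ∀ i ∈ X ∪ Y, P i - P a ∈ dsp P X ⊔ dsp P Y := by
    intro i hi
    rcases Finset.mem_union.1 hi with hi | hi
    · exact (le_sup_left : dsp P X ≤ _) (s1_mem P hi ha.1)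
    · exact (le_sup_right : dsp P Y ≤ _) (s1_mem P hi ha.2)
  refine Submodule.span_le.2 ?_
  rintro w ⟨i, hi, j, hj, rfl⟩
  have h1 := Submodule.sub_mem _ (key i hi) (key j hj)
  rw [sub_sub_sub_cancel_right] at h1
  exact h1

private theorem s1_insert {α V : Type} [DecidableEq α] [AddCommGroup V] [Module ℚ V] (P : α → V)
    {X : Finset α} {a : α} (i : α) (ha : a ∈ X) :
    dsp P (insert i X) ≤ dsp P X ⊔ Submodule.span ℚ {P i - P a} := by
  have key : ∀ k ∈ insert i X, P k - P a ∈ dsp P X ⊔ Submodule.span ℚ {P i - P a} := by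
    intro k hk
    rcases Finset.mem_insert.1 hk with hk | hk
    · subst hk
      exact (le_sup_right : Submodule.span ℚ {P k - P a} ≤ _)
        (Submodule.subset_span (Set.mem_singleton _))
    · exact (le_sup_left : dsp P X ≤ _) (s1_mem P hk ha)
  refine Submodule.span_le.2 ?_
  rintro w ⟨k, hk, j, hj, rfl⟩
  have h1 := Submodule.sub_mem _ (key k hk) (key j hj)
  rw [sub_sub_sub_cancel_right] at h1
  exact h1

theorem s1 : RankFacts := by
  intro α V _ _ _ _ P
  refine ⟨?_, ?_, ?_, ?_, ?_, ?_⟩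
  · have h : dsp P (∅ : Finset α) = ⊥ := by
      refine Submodule.span_eq_bot.2 ?_
      rintro w ⟨i, hi, _⟩
      exact absurd hi (Finset.notMem_empty i)
    rw [rk, h, finrank_bot]
  · intro i
    have h : dsp P ({i} : Finset α) = ⊥ := by
      refine Submodule.span_eq_bot.2 ?_
      rintro w ⟨k, hk, j, hj, rfl⟩
      rw [Finset.mem_singleton] at hk hj
      rw [hk, hj, sub_self]
    rw [rk, h, finrank_bot]
  · intro X Y h
    exact Submodule.finrank_mono (s1_mono P h)
  · intro X Y h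
    have h1 : rk P (X ∪ Y) ≤ Module.finrank ℚ (dsp P X ⊔ dsp P Y : Submodule ℚ V) :=
      Submodule.finrank_mono (s1_union P h)
    have h2 : rk P (X ∩ Y) ≤ Module.finrank ℚ (dsp P X ⊓ dsp P Y : Submodule ℚ V) :=
      Submodule.finrank_mono (le_inf (s1_mono P Finset.inter_subset_left)
        (s1_mono P Finset.inter_subset_right))
    have h3 := Submodule.finrank_sup_add_finrank_inf_eq (dsp P X) (dsp P Y)
    calc rk P (X ∪ Y) + rk P (X ∩ Y) ≤ _ := Nat.add_le_add h1 h2
      _ = rk P X + rk P Y := h3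
  · rintro X ⟨i, hi, j, hj, hij⟩
    rw [Nat.one_le_iff_ne_zero]
    intro h0
    have h1 : dsp P X = ⊥ := Submodule.finrank_eq_zero.1 h0
    have h2 := s1_mem P hi hj
    rw [h1, Submodule.mem_bot] at h2
    exact hij (sub_eq_zero.1 h2)
  · rintro X i ⟨a, ha⟩
    have h1 : rk P (insert i X)
        ≤ Module.finrank ℚ (dsp P X ⊔ Submodule.span ℚ {P i - P a} : Submodule ℚ V) :=
      Submodule.finrank_mono (s1_insert P i ha)
    have h2 := Submodule.finrank_sup_add_finrank_inf_eq (dsp P X) (Submodule.span ℚ {P i - P a})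
    have h3 : Module.finrank ℚ (Submodule.span ℚ {P i - P a}) ≤ 1 := by
      have h4 := finrank_span_le_card (R := ℚ) ({P i - P a} : Set V)
      simpa using h4
    have h5 : rk P X = Module.finrank ℚ (dsp P X) := rfl
    omega

end MPcc0Tri2
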