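import Pool.Agent.Lib.MP_cc0c1a_nt.Tri2.SpecS

/-!
# MP_cc0c1a_nt / Tri2 / S2a: contraction of a submodular function
-/

set_option autoImplicit false

namespace MPcc0Tri2

open Finset

private theorem s2a_mono {α : Type} [DecidableEq α] {E : Finset α} {r : Finset α → ℕ}
    {G : Finset α} {g₀ : α} {β : ℝ} (hs : Steep E r G g₀ β) :
    ∀ X, X ⊆ E → G ⊆ X → X ≠ G → r G < r X := by
  intro X hX hGX hne
  have hcard : G.card < X.card := Finset.card_lt_card (lt_of_le_of_ne hGX (Ne.symm hne))
  have h1 := hs.lt X hX hcard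
  have h2 := hs.eq
  by_contra hcon
  push Not at hcon
  have h3 : (r X : ℝ) ≤ r G := by exact_mod_cast hcon
  have h4 : β * r X ≤ β * r G := mul_le_mul_of_nonneg_left h3 hs.pos
  have h5 : (G.card : ℝ) < X.card := by exact_mod_cast hcard
  linarith

private theorem s2a_mono' {α : Type} [DecidableEq α] {E : Finset α} {r : Finset α → ℕ}
    {G : Finset α} {g₀ : α} {β : ℝ} (hs : Steep E r G g₀ β) :
    ∀ X, X ⊆ E → G ⊆ X → r G ≤ r X := by
  intro X hX hGX
  by_cases hne : X = G
  · rw [hne]
  · exact (s2a_mono hs X hX hGX hne).le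

/-- **S2a.** -/
theorem s2a : Contract := by
  intro α _ E r G g₀ β hr hs
  have hE' : ∀ X, X ⊆ insert g₀ (E \ G) → X ∪ G ⊆ E := by
    intro X hX x hx
    rw [mem_union] at hx
    rcases hx with hx | hx
    · have := hX hx
      rw [mem_insert, mem_sdiff] at this
      rcases this with rfl | h
      · exact hs.sub hs.mem
      · exact h.1
    · exact hs.sub hx
  have hE0 : ∀ X, X ⊆ insert g₀ (E \ G) → X ⊆ E := fun X hX =>
    (subset_union_left).trans (hE' X hX)
  have hdis : ∀ X, X ⊆ insert g₀ (E \ G) → g₀ ∉ X → Disjoint X G := by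
    intro X hX hg
    rw [Finset.disjoint_left]
    intro x hx hxG
    have := hX hx
    rw [mem_insert, mem_sdiff] at this
    rcases this with rfl | h
    · exact hg hx
    · exact h.2 hxG
  have hint : ∀ X, X ⊆ insert g₀ (E \ G) → g₀ ∈ X → X ∩ G = {g₀} := by
    intro X hX hg
    ext x
    rw [mem_inter, mem_singleton]
    constructor
    · rintro ⟨hx, hxG⟩
      have := hX hx
      rw [mem_insert, mem_sdiff] at this
      rcases this with rfl | h
      · rfl
      · exact absurd hxG h.2
    · rintro rfl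
      exact ⟨hg, hs.mem⟩
  have hcardU : ∀ X, X ⊆ insert g₀ (E \ G) → g₀ ∈ X → (X ∪ G).card + 1 = X.card + G.card := by
    intro X hX hg
    have := Finset.card_union_add_card_inter X G
    rw [hint X hX hg, card_singleton] at this
    exact this
  have hm := s2a_mono' hs
  refine ⟨hm, ⟨?_, ?_, ?_, ?_⟩, ?_⟩
  · -- empty
    unfold ctr
    rw [if_neg (by simp)]
    exact hr.empty
  · -- single
    intro i hi
    unfold ctr
    by_cases h : g₀ ∈ ({i} : Finset α)
    · rw [if_pos h]
      rw [mem_singleton] at h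
      subst h
      have : ({g₀} : Finset α) ∪ G = G := by
        rw [union_eq_right, singleton_subset_iff]
        exact hs.mem
      rw [this, Nat.sub_self]
    · rw [if_neg h]
      refine hr.single i ?_
      exact hE0 _ (singleton_subset_iff.2 hi) (mem_singleton_self i)
  · -- submodularity
    -- the mixed case
    have mixed : ∀ X Y, X ⊆ insert g₀ (E \ G) → Y ⊆ insert g₀ (E \ G) → (X ∩ Y).Nonempty →
        g₀ ∈ X → g₀ ∉ Y → ctr r G g₀ (X ∪ Y) + ctr r G g₀ (X ∩ Y) ≤
          ctr r G g₀ X + ctr r G g₀ Y := by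
      intro X Y hX hY hne hgX hgY
      have e1 : g₀ ∈ X ∪ Y := mem_union_left _ hgX
      have e2 : g₀ ∉ X ∩ Y := fun h => hgY (mem_inter.1 h).2
      unfold ctr
      rw [if_pos e1, if_neg e2, if_pos hgX, if_neg hgY]
      have hinter : (X ∪ G) ∩ Y = X ∩ Y := by
        rw [union_inter_distrib_right]
        have : G ∩ Y = ∅ := by
          rw [inter_comm]
          exact disjoint_iff_inter_eq_empty.1 (hdis Y hY hgY)
        rw [this, union_empty]
      have hun : (X ∪ G) ∪ Y = X ∪ Y ∪ G := by
        rw [union_assoc, union_comm G Y, union_assoc]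
      have h := hr.sub (X ∪ G) Y (hE' X hX) (hE0 Y hY) (by rw [hinter]; exact hne)
      rw [hinter, hun] at h
      have g1 := hm (X ∪ G) (hE' X hX) subset_union_right
      have g2 := hm (X ∪ Y ∪ G) (hE' (X ∪ Y) (union_subset hX hY)) subset_union_right
      omega
    intro X Y hX hY hne
    by_cases hgX : g₀ ∈ X
    · by_cases hgY : g₀ ∈ Y
      · have e1 : g₀ ∈ X ∪ Y := mem_union_left _ hgX
        have e2 : g₀ ∈ X ∩ Y := mem_inter.2 ⟨hgX, hgY⟩
        unfold ctr
        rw [if_pos e1, if_pos e2, if_pos hgX, if_pos hgY]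
        have hinter : (X ∪ G) ∩ (Y ∪ G) = X ∩ Y ∪ G := by
          rw [union_comm X G, union_comm Y G, union_comm (X ∩ Y) G, union_inter_distrib_left]
        have hun : (X ∪ G) ∪ (Y ∪ G) = X ∪ Y ∪ G := by
          ext x
          simp only [mem_union]
          tauto
        have h := hr.sub (X ∪ G) (Y ∪ G) (hE' X hX) (hE' Y hY)
          ⟨g₀, mem_inter.2 ⟨mem_union_left _ hgX, mem_union_left _ hgY⟩⟩
        rw [hinter, hun] at h
        have g1 := hm (X ∪ G) (hE' X hX) subset_union_right
        have g2 := hm (Y ∪ G) (hE' Y hY) subset_union_right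
        have g3 := hm (X ∪ Y ∪ G) (hE' (X ∪ Y) (union_subset hX hY)) subset_union_right
        have g4 := hm (X ∩ Y ∪ G) (hE' (X ∩ Y) (inter_subset_left.trans hX)) subset_union_right
        omega
      · exact mixed X Y hX hY hne hgX hgY
    · by_cases hgY : g₀ ∈ Y
      · have := mixed Y X hY hX (by rw [inter_comm]; exact hne) hgY hgX
        rw [union_comm, inter_comm]
        omega
      · have e1 : g₀ ∉ X ∪ Y := by
          rw [mem_union]
          tauto
        have e2 : g₀ ∉ X ∩ Y := fun h => hgX (mem_inter.1 h).1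
        unfold ctr
        rw [if_neg e1, if_neg e2, if_neg hgX, if_neg hgY]
        exact hr.sub X Y (hE0 X hX) (hE0 Y hY) hne
  · -- positivity
    intro X hX h2
    unfold ctr
    by_cases hg : g₀ ∈ X
    · rw [if_pos hg]
      have hne : X ∪ G ≠ G := by
        intro h
        have h1 := hcardU X hX hg
        rw [h] at h1
        omega
      have := s2a_mono hs (X ∪ G) (hE' X hX) subset_union_right hne
      omega
    · rw [if_neg hg]
      exact hr.pos X (hE0 X hX) h2
  · -- slope
    intro X hX hne
    unfold ctr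
    by_cases hg : g₀ ∈ X
    · rw [if_pos hg]
      have h1 := hs.le (X ∪ G) (hE' X hX) ⟨g₀, mem_union_left _ hg⟩
      have h2 := hs.eq
      have h3 := hm (X ∪ G) (hE' X hX) subset_union_right
      have h4 : ((X ∪ G).card : ℝ) + 1 = X.card + G.card := by
        exact_mod_cast hcardU X hX hg
      rw [Nat.cast_sub h3, mul_sub]
      linarith
    · rw [if_neg hg]
      exact hs.le X (hE0 X hX) hne

end MPcc0Tri2
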