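import Pool.Agent.Lib.MP_cc0c1a_nt.Tri2.SpecS

/-!
# MP_cc0c1a_nt / Tri2 / S2b: lifting the weights (helper69)
-/

set_option autoImplicit false

namespace MPcc0Tri2

open Finset

section
variable {α : Type} [DecidableEq α]

/-- The map from subsets of the contracted set to subsets of the set. -/
private def s2b_pi (G : Finset α) (g₀ : α) (X : Finset α) : Finset α :=
  if g₀ ∈ X then X ∪ G else X

/-- The lifted weights. -/
private noncomputable def s2b_lam (E G : Finset α) (g₀ : α) (β : ℝ) (lam' : Finset α → ℝ)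
    (H : Finset α) : ℝ :=
  ∑ G' ∈ (insert g₀ (E \ G)).powerset.filter (fun G' => s2b_pi G g₀ G' = H), lam' G' +
    (if H = G then β - ∑ G' ∈ (insert g₀ (E \ G)).powerset.filter (fun G' => g₀ ∈ G'), lam' G'
      else 0)

private theorem s2b_pi_mem {E G : Finset α} {g₀ : α} (hG : G ⊆ E) (hg : g₀ ∈ G) {X : Finset α}
    (hX : X ⊆ insert g₀ (E \ G)) : s2b_pi G g₀ X ⊆ E := by
  have h1 : X ⊆ E := by
    intro x hx
    have h2 := hX hx
    rw [mem_insert, mem_sdiff] at h2
    rcases h2 with h | h
    · exact h ▸ hG hg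
    · exact h.1
  unfold s2b_pi
  split_ifs
  · exact union_subset h1 hG
  · exact h1

private theorem s2b_id {E G : Finset α} {g₀ : α} (hG : G ⊆ E) (hg : g₀ ∈ G) (β : ℝ)
    (lam' : Finset α → ℝ) (φ : Finset α → ℝ) :
    ∑ H ∈ E.powerset, s2b_lam E G g₀ β lam' H * φ H =
      ∑ G' ∈ (insert g₀ (E \ G)).powerset, lam' G' * φ (s2b_pi G g₀ G') +
      (β - ∑ G' ∈ (insert g₀ (E \ G)).powerset.filter (fun G' => g₀ ∈ G'), lam' G') * φ G := by
  have h1 : ∑ G' ∈ (insert g₀ (E \ G)).powerset, lam' G' * φ (s2b_pi G g₀ G') =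
      ∑ H ∈ E.powerset, ∑ G' ∈ (insert g₀ (E \ G)).powerset.filter
        (fun G' => s2b_pi G g₀ G' = H), lam' G' * φ (s2b_pi G g₀ G') := by
    rw [Finset.sum_fiberwise_of_maps_to]
    intro X hX
    rw [mem_powerset] at hX ⊢
    exact s2b_pi_mem hG hg hX
  have h2 : (β - ∑ G' ∈ (insert g₀ (E \ G)).powerset.filter (fun G' => g₀ ∈ G'), lam' G') * φ G =
      ∑ H ∈ E.powerset, (if H = G then
        β - ∑ G' ∈ (insert g₀ (E \ G)).powerset.filter (fun G' => g₀ ∈ G'), lam' G' else 0) *
          φ H := by
    symm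
    rw [Finset.sum_eq_single G]
    · rw [if_pos rfl]
    · intro H _ hH
      rw [if_neg hH, zero_mul]
    · intro h
      exact absurd (mem_powerset.mpr hG) h
  rw [h1, h2, ← Finset.sum_add_distrib]
  apply Finset.sum_congr rfl
  intro H _
  unfold s2b_lam
  rw [add_mul, Finset.sum_mul]
  congr 1
  apply Finset.sum_congr rfl
  intro X hX
  rw [mem_filter] at hX
  rw [hX.2]

end

theorem s2b (h1 : Contract) : Lift := by
  intro α _ E r G g₀ β lam' hr hS hL
  obtain ⟨hmono, _hr', hlast⟩ := h1 α E r G g₀ β hr hS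
  have hGE := hS.sub
  have hg := hS.mem
  set E' : Finset α := insert g₀ (E \ G) with hE'
  set Λ : ℝ := ∑ G' ∈ E'.powerset.filter (fun G' => g₀ ∈ G'), lam' G' with hΛ
  have hΛβ : Λ ≤ β := hL.slope β hS.pos hlast g₀ (mem_insert_self _ _)
  have hΛs : Λ = ∑ G' ∈ E'.powerset, lam' G' * (if g₀ ∈ G' then 1 else 0) := by
    rw [hΛ, Finset.sum_filter]
    apply Finset.sum_congr rfl
    intro X _
    split_ifs <;> simp
  have hid : ∀ φ : Finset α → ℝ, ∑ H ∈ E.powerset, s2b_lam E G g₀ β lam' H * φ H =
      ∑ G' ∈ E'.powerset, lam' G' * φ (s2b_pi G g₀ G') + (β - Λ) * φ G :=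
    fun φ => s2b_id hGE hg β lam' φ
  -- subsets of `E'` without `g₀`
  have hno : ∀ X, X ⊆ E' → g₀ ∉ X → ∀ x ∈ X, x ∈ E ∧ x ∉ G := by
    intro X hX hgX x hx
    have h2 := hX hx
    rw [hE', mem_insert, mem_sdiff] at h2
    rcases h2 with h | h
    · exact absurd (h ▸ hx) hgX
    · exact h
  have hXE : ∀ X, X ⊆ E' → X ⊆ E := by
    intro X hX x hx
    have h2 := hX hx
    rw [hE', mem_insert, mem_sdiff] at h2
    rcases h2 with h | h
    · exact h ▸ hGE hg
    · exact h.1
  have hnotmem : ∀ x, x ∉ G → x ≠ g₀ := fun x hx h => hx (h ▸ hg)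
  have hcE' : (E'.card : ℝ) = (E.card : ℝ) - G.card + 1 := by
    have h3 : g₀ ∉ E \ G := by
      rw [mem_sdiff]
      exact fun h => h.2 hg
    rw [hE', Finset.card_insert_of_notMem h3, Finset.card_sdiff_of_subset hGE]
    have h4 := Finset.card_le_card hGE
    push_cast [Nat.cast_sub h4]
    ring
  have hrG : (1 : ℝ) ≤ r G := by
    have := hr.pos G hGE hS.two
    exact_mod_cast this
  refine ⟨s2b_lam E G g₀ β lam', ⟨?_, ?_, ?_, ?_⟩⟩
  · -- nonnegativity
    intro H
    unfold s2b_lam
    apply add_nonneg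
    · exact Finset.sum_nonneg fun X _ => hL.nonneg X
    · split_ifs
      · exact sub_nonneg.mpr hΛβ
      · exact le_refl _
  · -- total
    rw [hid (fun H => (r H : ℝ))]
    have h2 : ∀ X ∈ E'.powerset, lam' X * (r (s2b_pi G g₀ X) : ℝ) =
        lam' X * (ctr r G g₀ X : ℝ) + lam' X * (if g₀ ∈ X then 1 else 0) * r G := by
      intro X hX
      rw [mem_powerset] at hX
      by_cases hgX : g₀ ∈ X
      · have h3 : r G ≤ r (X ∪ G) :=
          hmono (X ∪ G) (union_subset (hXE X hX) hGE) subset_union_right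
        unfold s2b_pi ctr
        simp only [if_pos hgX]
        rw [Nat.cast_sub h3]
        ring
      · unfold s2b_pi ctr
        simp only [if_neg hgX]
        ring
    rw [Finset.sum_congr rfl h2, Finset.sum_add_distrib, ← Finset.sum_mul, ← hΛs, hL.total, hcE']
    have h4 := hS.eq
    have h5 : Λ * (r G : ℝ) + (β - Λ) * r G = β * r G := by ring
    linarith
  · -- part
    intro X hX hXn
    rw [hid (fun H => (r (X ∩ H) : ℝ))]
    by_cases hXG : X ∩ G = ∅
    · have hdis : ∀ x ∈ X, x ∉ G := by
        intro x hx hxG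
        have : x ∈ X ∩ G := mem_inter.mpr ⟨hx, hxG⟩
        rw [hXG] at this
        simp at this
      have hgX : g₀ ∉ X := fun h => hdis g₀ h hg
      have hXE' : X ⊆ E' := by
        intro x hx
        rw [hE', mem_insert, mem_sdiff]
        exact Or.inr ⟨hX hx, hdis x hx⟩
      have h2 : ∀ Y ∈ E'.powerset, lam' Y * (r (X ∩ s2b_pi G g₀ Y) : ℝ) =
          lam' Y * (ctr r G g₀ (X ∩ Y) : ℝ) := by
        intro Y _
        have e1 : X ∩ s2b_pi G g₀ Y = X ∩ Y := by
          unfold s2b_pi
          split_ifs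
          · rw [inter_union_distrib_left, hXG, union_empty]
          · rfl
        have e2 : g₀ ∉ X ∩ Y := fun h => hgX (mem_inter.mp h).1
        unfold ctr
        rw [e1, if_neg e2]
      rw [Finset.sum_congr rfl h2, hXG, hr.empty]
      have h3 := hL.part X hXE' hXn
      simpa using h3
    · have hXGn : (X ∩ G).Nonempty := Finset.nonempty_iff_ne_empty.mpr hXG
      set X' : Finset α := insert g₀ (X \ G) with hX'
      have hX'E' : X' ⊆ E' := by
        rw [hX', hE']
        exact insert_subset_insert _ (sdiff_subset_sdiff hX (Subset.refl _))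
      have hcX' : (X'.card : ℝ) = (X \ G).card + 1 := by
        have h3 : g₀ ∉ X \ G := by
          rw [mem_sdiff]
          exact fun h => h.2 hg
        rw [hX', Finset.card_insert_of_notMem h3]
        push_cast
        ring
      have hcX : (X.card : ℝ) = (X \ G).card + (X ∩ G).card := by
        have := Finset.card_sdiff_add_card_inter X G
        exact_mod_cast this.symm
      have h2 : ∀ Y ∈ E'.powerset, lam' Y * (ctr r G g₀ (X' ∩ Y) : ℝ) +
          lam' Y * (if g₀ ∈ Y then 1 else 0) * r (X ∩ G) ≤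
          lam' Y * (r (X ∩ s2b_pi G g₀ Y) : ℝ) := by
        intro Y hY
        rw [mem_powerset] at hY
        have hkey : (ctr r G g₀ (X' ∩ Y) : ℝ) + (if g₀ ∈ Y then 1 else 0) * r (X ∩ G) ≤
            (r (X ∩ s2b_pi G g₀ Y) : ℝ) := by
          by_cases hgY : g₀ ∈ Y
          · have hgXY : g₀ ∈ X' ∩ Y := mem_inter.mpr ⟨mem_insert_self _ _, hgY⟩
            have hYG : X' ∩ Y ∪ G ⊆ E :=
              union_subset (hXE _ ((inter_subset_left).trans hX'E')) hGE
            have h3 : r G ≤ r (X' ∩ Y ∪ G) := hmono _ hYG subset_union_right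
            have e1 : (X ∩ (Y ∪ G)) ∩ G = X ∩ G := by
              ext x
              simp only [mem_inter, mem_union]
              tauto
            have e2 : (X ∩ (Y ∪ G)) ∪ G = X' ∩ Y ∪ G := by
              ext x
              simp only [mem_inter, mem_union, hX', mem_insert, mem_sdiff]
              constructor
              · tauto
              · rintro (⟨h | h, h'⟩ | h)
                · rw [h]
                  exact Or.inr hg
                · tauto
                · tauto
            have h4 := hr.sub (X ∩ (Y ∪ G)) G (inter_subset_left.trans hX) hGE (by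
              rw [e1]
              exact hXGn)
            rw [e1, e2] at h4
            unfold s2b_pi ctr
            rw [if_pos hgXY, if_pos hgY, if_pos hgY, Nat.cast_sub h3, one_mul]
            have h5 : (r (X' ∩ Y ∪ G) : ℝ) + r (X ∩ G) ≤ r (X ∩ (Y ∪ G)) + r G := by
              exact_mod_cast h4
            linarith
          · have hgXY : g₀ ∉ X' ∩ Y := fun h => hgY (mem_inter.mp h).2
            have e1 : X' ∩ Y = X ∩ Y := by
              ext x
              simp only [mem_inter, hX', mem_insert, mem_sdiff]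
              constructor
              · rintro ⟨h | h, h'⟩
                · exact absurd (h ▸ h') hgY
                · exact ⟨h.1, h'⟩
              · rintro ⟨h, h'⟩
                exact ⟨Or.inr ⟨h, (hno Y hY hgY x h').2⟩, h'⟩
            unfold s2b_pi ctr
            rw [if_neg hgXY, if_neg hgY, if_neg hgY, e1, zero_mul, add_zero]
        have h6 := mul_le_mul_of_nonneg_left hkey (hL.nonneg Y)
        calc _ = lam' Y * ((ctr r G g₀ (X' ∩ Y) : ℝ) +
            (if g₀ ∈ Y then 1 else 0) * r (X ∩ G)) := by ring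
          _ ≤ _ := h6
      have h7 := Finset.sum_le_sum h2
      rw [Finset.sum_add_distrib, ← Finset.sum_mul, ← hΛs] at h7
      have h8 := hL.part X' hX'E' (insert_nonempty _ _)
      have h9 := hS.le (X ∩ G) (inter_subset_right.trans hGE) hXGn
      have h10 : Λ * (r (X ∩ G) : ℝ) + (β - Λ) * r (X ∩ G) = β * r (X ∩ G) := by ring
      rw [hcX'] at h8
      rw [hcX]
      linarith
  · -- slope
    intro β' hβ' hall i hi
    have hββ : β ≤ β' := by
      have h2 := hall G hGE ⟨g₀, hg⟩
      rw [hS.eq] at h2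
      have h3 : (0 : ℝ) < r G := by linarith
      exact le_of_mul_le_mul_right h2 h3
    refine le_trans ?_ hββ
    have e : ∑ H ∈ E.powerset.filter (fun H => i ∈ H), s2b_lam E G g₀ β lam' H =
        ∑ H ∈ E.powerset, s2b_lam E G g₀ β lam' H * (if i ∈ H then 1 else 0) := by
      rw [Finset.sum_filter]
      apply Finset.sum_congr rfl
      intro X _
      split_ifs <;> simp
    rw [e, hid (fun H => if i ∈ H then 1 else 0)]
    by_cases hiG : i ∈ G
    · have h2 : ∀ X ∈ E'.powerset, lam' X * (if i ∈ s2b_pi G g₀ X then (1 : ℝ) else 0) =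
          lam' X * (if g₀ ∈ X then 1 else 0) := by
        intro X hX
        rw [mem_powerset] at hX
        by_cases hgX : g₀ ∈ X
        · have h3 : i ∈ s2b_pi G g₀ X := by
            unfold s2b_pi
            rw [if_pos hgX]
            exact mem_union_right _ hiG
          rw [if_pos h3, if_pos hgX]
        · have h3 : i ∉ s2b_pi G g₀ X := by
            unfold s2b_pi
            rw [if_neg hgX]
            exact fun h => (hno X hX hgX i h).2 hiG
          rw [if_neg h3, if_neg hgX]
      rw [Finset.sum_congr rfl h2, ← hΛs, if_pos hiG]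
      linarith
    · have h2 : ∀ X ∈ E'.powerset, lam' X * (if i ∈ s2b_pi G g₀ X then (1 : ℝ) else 0) =
          (if i ∈ X then lam' X else 0) := by
        intro X _
        have h3 : i ∈ s2b_pi G g₀ X ↔ i ∈ X := by
          unfold s2b_pi
          split_ifs
          · rw [mem_union]
            tauto
          · rfl
        by_cases hiX : i ∈ X
        · rw [if_pos (h3.mpr hiX), if_pos hiX, mul_one]
        · rw [if_neg (fun h => hiX (h3.mp h)), if_neg hiX, mul_zero]
      rw [Finset.sum_congr rfl h2, ← Finset.sum_filter, if_neg hiG, mul_zero, add_zero]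
      apply hL.slope β hS.pos hlast i
      rw [hE', mem_insert, mem_sdiff]
      exact Or.inr ⟨hi, hiG⟩

end MPcc0Tri2
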