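import Pool.Agent.Lib.MP_cc0c1a_nt.Tri2.SpecS

/-!
# MP_cc0c1a_nt / Tri2 / S2c: the matroid lemma by induction (helper69)
-/

set_option autoImplicit false

namespace MPcc0Tri2

open Finset Filter Topology

/-- The one-element case. -/
private theorem s2c_one {α : Type} [DecidableEq α] (E : Finset α) (r : Finset α → ℕ)
    (hE : E.card = 1) : Good E r (fun _ => (0 : ℝ)) := by
  refine ⟨fun _ => le_refl _, ?_, ?_, ?_⟩
  · simp [hE]
  · intro X hX _
    have h1 : X.card ≤ 1 := by
      have := Finset.card_le_card hX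
      rw [hE] at this
      exact this
    have h2 : (X.card : ℝ) ≤ 1 := by exact_mod_cast h1
    have h3 : ∑ G ∈ E.powerset, (0 : ℝ) * r (X ∩ G) = 0 := by simp
    rw [h3]
    linarith
  · intro β hβ _ i _
    simpa using hβ

/-- A steep set. -/
private theorem s2c_steep {α : Type} [DecidableEq α] (E : Finset α) (r : Finset α → ℕ)
    (hE : 2 ≤ E.card) (hr : Rk E r) : ∃ G g₀ β, Steep E r G g₀ β := by
  classical
  set F : Finset (Finset α) := E.powerset.filter fun G => 2 ≤ G.card with hF
  have hEF : E ∈ F := by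
    simp only [hF, mem_filter, mem_powerset]
    exact ⟨Finset.Subset.refl _, hE⟩
  set sl : Finset α → ℝ := fun G => ((G.card : ℝ) - 1) / r G with hsl
  obtain ⟨G₁, hG₁, hmax₁⟩ := Finset.exists_max_image F sl ⟨E, hEF⟩
  set F' : Finset (Finset α) := F.filter fun G => sl G = sl G₁ with hF'
  obtain ⟨G, hG, hmax⟩ := Finset.exists_max_image F' (fun G => G.card)
    ⟨G₁, by simp only [hF', mem_filter]; exact ⟨hG₁, trivial⟩⟩
  simp only [hF', mem_filter] at hG
  obtain ⟨hGF, hGs⟩ := hG
  have hGF' := hGF
  simp only [hF, mem_filter, mem_powerset] at hGF'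
  obtain ⟨hGE, hG2⟩ := hGF'
  obtain ⟨g₀, hg₀⟩ : G.Nonempty := Finset.card_pos.mp (by omega)
  have hrG : 1 ≤ r G := hr.pos G hGE hG2
  have hrG' : (0 : ℝ) < r G := by exact_mod_cast hrG
  have hcG : (2 : ℝ) ≤ G.card := by exact_mod_cast hG2
  have hβ : 0 ≤ sl G := by
    simp only [hsl]
    apply div_nonneg _ hrG'.le
    linarith
  have hle : ∀ X, X ⊆ E → 2 ≤ X.card → (X.card : ℝ) - 1 = sl X * r X := by
    intro X hX h2
    have hrX : 1 ≤ r X := hr.pos X hX h2
    have hrX' : (0 : ℝ) < r X := by exact_mod_cast hrX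
    simp only [hsl]
    field_simp
  refine ⟨G, g₀, sl G, ⟨hGE, hG2, hg₀, hβ, hle G hGE hG2, ?_, ?_⟩⟩
  · intro X hX hXn
    by_cases h2 : 2 ≤ X.card
    · rw [hle X hX h2]
      have hXF : X ∈ F := by
        simp only [hF, mem_filter, mem_powerset]
        exact ⟨hX, h2⟩
      have h3 := hmax₁ X hXF
      rw [hGs]
      exact mul_le_mul_of_nonneg_right h3 (Nat.cast_nonneg _)
    · have h3 : (X.card : ℝ) ≤ 1 := by
        have : X.card ≤ 1 := by omega
        exact_mod_cast this
      have h4 : 0 ≤ sl G * r X := mul_nonneg hβ (Nat.cast_nonneg _)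
      linarith
  · intro X hX hc
    have h2 : 2 ≤ X.card := by omega
    have hXF : X ∈ F := by
      simp only [hF, mem_filter, mem_powerset]
      exact ⟨hX, h2⟩
    have h3 := hmax₁ X hXF
    have hrX : 1 ≤ r X := hr.pos X hX h2
    have hrX' : (0 : ℝ) < r X := by exact_mod_cast hrX
    rw [hle X hX h2, hGs]
    apply mul_lt_mul_of_pos_right _ hrX'
    rcases lt_or_eq_of_le h3 with h | h
    · exact h
    · exfalso
      have hXF' : X ∈ F' := by
        simp only [hF', mem_filter]
        exact ⟨hXF, h⟩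
      have h5 := hmax X hXF'
      omega

theorem s2c (h1 : Contract) (h2 : Lift) : MatroidLemma := by
  intro α _ E
  induction hn : E.card using Nat.strong_induction_on generalizing E with
  | _ n ih =>
    intro r hE hr
    by_cases hc : 2 ≤ E.card
    · obtain ⟨G, g₀, β, hS⟩ := s2c_steep E r hc hr
      obtain ⟨_, hr', _⟩ := h1 α E r G g₀ β hr hS
      have hcard : (insert g₀ (E \ G)).card < n := by
        have h3 : (insert g₀ (E \ G)).card ≤ (E \ G).card + 1 := Finset.card_insert_le _ _
        have h4 : (E \ G).card = E.card - G.card := Finset.card_sdiff_of_subset hS.sub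
        have h5 := hS.two
        have h6 := Finset.card_le_card hS.sub
        omega
      obtain ⟨lam', hlam'⟩ := ih _ hcard (insert g₀ (E \ G)) rfl (ctr r G g₀)
        (Finset.insert_nonempty _ _) hr'
      exact h2 α E r G g₀ β lam' hr hS hlam'
    · have h3 : E.card = 1 := by
        have := Finset.card_pos.mpr hE
        omega
      exact ⟨_, s2c_one E r h3⟩

end MPcc0Tri2
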