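import Pool.Agent.Lib.MP_cc0c1a_nt.Tri2.SpecS

/-!
# MP_cc0c1a_nt / Tri2 / S3: summation by parts over `Fin N` (helper69)
-/

set_option autoImplicit false

namespace MPcc0Tri2

open Finset Filter Topology

/-- Summation by parts over the natural numbers. -/
private theorem s3_nat (N : ℕ) (x ψ : ℕ → ℝ) (h0 : ψ 0 = 0) (hψ : ∀ k, 0 ≤ ψ k)
    (hx : ∀ k, k + 1 < N → x k ≤ x (k + 1)) :
    ∀ k, k < N → ∑ j ∈ Finset.range (k + 1), x j * (ψ (j + 1) - ψ j) ≤ x k * ψ (k + 1) := by
  intro k
  induction k with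
  | zero =>
    intro _
    simp [h0]
  | succ k ih =>
    intro hk
    rw [Finset.sum_range_succ]
    have h1 := ih (by omega)
    have h2 := mul_nonneg (sub_nonneg.mpr (hx k hk)) (hψ (k + 1))
    nlinarith

theorem s3 : AbelLemma := by
  intro N σ y Ψ h0 hΨ h1 hy
  rcases Nat.eq_zero_or_pos N with rfl | hN
  · simp
  set ψ : ℕ → ℝ := fun k => Ψ (univ.filter fun i : Fin N => ((σ.symm i : Fin N) : ℕ) < k) with hψd
  set x : ℕ → ℝ := fun k => if h : k < N then y (σ ⟨k, h⟩) else 0 with hxd
  have e0 : ψ 0 = 0 := by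
    simp only [hψd]
    rw [← h0]
    congr 1
    ext i
    simp
  have eN : ψ N = 0 := by
    simp only [hψd]
    rw [← h1]
    congr 1
    ext i
    simp
  have key := s3_nat N x ψ e0 (fun k => hΨ _) (by
    intro k hk
    simp only [hxd]
    rw [dif_pos hk, dif_pos (show k < N by omega)]
    apply hy
    simp) (N - 1) (by omega)
  have hNN : N - 1 + 1 = N := by omega
  rw [hNN, eN, mul_zero] at key
  have e : ∑ j, y (σ j) * (Ψ (pre σ j) - Ψ (pre' σ j))
      = ∑ j ∈ Finset.range N, x j * (ψ (j + 1) - ψ j) := by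
    rw [← Fin.sum_univ_eq_sum_range (fun j => x j * (ψ (j + 1) - ψ j)) N]
    apply Finset.sum_congr rfl
    intro j _
    have a1 : x j = y (σ j) := by
      simp only [hxd]
      rw [dif_pos j.isLt]
    have a2 : ψ ((j : ℕ) + 1) = Ψ (pre σ j) := by
      simp only [hψd, pre]
      congr 1
      ext i
      simp only [mem_filter, mem_univ, true_and]
      rw [Fin.le_def]
      omega
    have a3 : ψ (j : ℕ) = Ψ (pre' σ j) := by
      simp only [hψd, pre']
      congr 1
    rw [a1, a2, a3]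
  rw [e]
  exact key

end MPcc0Tri2
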