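import Pool.Agent.Lib.MP_cc0c1a_nt.Tri2.SpecS

/-!
# MP_cc0c1a_nt / Tri2: S4, weighted sum of the costs
-/

set_option autoImplicit false

namespace MPcc0Tri2

open Finset Filter Topology MPcc0Tri Pool.Agent.SubQ

private theorem s4_card_pre {N : ℕ} (σ : Equiv.Perm (Fin N)) (j : Fin N) :
    (pre σ j).card = (j : ℕ) + 1 := by
  have h : pre σ j = (Finset.Iic j).map σ.toEmbedding := by
    ext i
    unfold pre
    rw [mem_filter, Finset.mem_map_equiv, Finset.mem_Iic]
    simp
  rw [h, card_map, Fin.card_Iic]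

private theorem s4_card_pre' {N : ℕ} (σ : Equiv.Perm (Fin N)) (j : Fin N) :
    (pre' σ j).card = (j : ℕ) := by
  have h : pre' σ j = (Finset.Iio j).map σ.toEmbedding := by
    ext i
    unfold pre'
    rw [mem_filter, Finset.mem_map_equiv, Finset.mem_Iio]
    simp
  rw [h, card_map, Fin.card_Iio]

theorem s4 (h1 : RankFacts) (h2 : MatroidLemma) (h3 : AbelLemma) : CostSum := by
  classical
  intro N V _ _ _ P hP
  obtain ⟨r0, rs, _, rsub, rpos, _⟩ := h1 (Fin (N + 1)) V P
  have hRk : Rk (univ : Finset (Fin (N + 1))) (rk P) :=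
    ⟨r0, fun i _ => rs i, fun X Y _ _ h => rsub X Y h, fun X _ hX => by
      obtain ⟨i, hi, j, hj, hij⟩ := Finset.one_lt_card.1 hX
      exact rpos X ⟨i, hi, j, hj, fun h => hij (hP h)⟩⟩
  obtain ⟨lam, hlam⟩ := h2 (Fin (N + 1)) univ (rk P) univ_nonempty hRk
  refine ⟨lam, hlam.nonneg, ?_⟩
  intro σ y hy
  set Ψ : Finset (Fin (N + 1)) → ℝ := fun X =>
    ∑ G, lam G * (rk P (X ∩ G) : ℝ) - ((X.card - 1 : ℕ) : ℝ) with hΨ
  have hpu : (univ : Finset (Fin (N + 1))).powerset = univ := Finset.powerset_univ
  have hA := h3 (N + 1) σ y Ψ ?_ ?_ ?_ hy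
  · have e1 : ∑ j, y (σ j) * (Ψ (pre σ j) - Ψ (pre' σ j)) =
        ∑ G, lam G * cost P σ y G - (∑ i, y i - y (σ 0)) := by
      have e2 : ∀ j : Fin (N + 1), y (σ j) * (Ψ (pre σ j) - Ψ (pre' σ j)) =
          ∑ G, lam G * (y (σ j) * ((rk P (pre σ j ∩ G) : ℝ) - rk P (pre' σ j ∩ G))) -
            (y (σ j) - if j = 0 then y (σ j) else 0) := by
        intro j
        have e3 : (((pre σ j).card - 1 : ℕ) : ℝ) - (((pre' σ j).card - 1 : ℕ) : ℝ) =
            1 - if j = 0 then 1 else 0 := by
          rw [s4_card_pre, s4_card_pre']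
          split_ifs with h
          · subst h
            simp
          · have hj : 1 ≤ (j : ℕ) := by
              rcases Nat.eq_zero_or_pos (j : ℕ) with h0 | h0
              · exact absurd (Fin.ext h0) h
              · exact h0
            rw [Nat.cast_sub hj, Nat.add_sub_cancel]
            push_cast
            ring
        have e4 : ∑ G, lam G * (y (σ j) * ((rk P (pre σ j ∩ G) : ℝ) - rk P (pre' σ j ∩ G))) =
            y (σ j) * (∑ G, lam G * (rk P (pre σ j ∩ G) : ℝ) -
              ∑ G, lam G * (rk P (pre' σ j ∩ G) : ℝ)) := by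
          rw [← Finset.sum_sub_distrib, Finset.mul_sum]
          refine sum_congr rfl fun G _ => ?_
          ring
        rw [e4]
        have e5 : (y (σ j) - if j = 0 then y (σ j) else 0) =
            y (σ j) * ((((pre σ j).card - 1 : ℕ) : ℝ) - (((pre' σ j).card - 1 : ℕ) : ℝ)) := by
          rw [e3]
          split_ifs <;> ring
        rw [e5]
        simp only [hΨ]
        ring
      rw [sum_congr rfl fun j _ => e2 j, Finset.sum_sub_distrib, Finset.sum_sub_distrib,
        Finset.sum_comm, Equiv.sum_comp σ y, Finset.sum_ite_eq' univ (0 : Fin (N + 1)),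
        if_pos (mem_univ _)]
      congr 1
      refine sum_congr rfl fun G _ => ?_
      rw [← Finset.mul_sum]
      rfl
    rw [e1] at hA
    linarith
  · simp only [hΨ, empty_inter, r0, card_empty]
    simp
  · intro X
    simp only [hΨ]
    rcases X.eq_empty_or_nonempty with rfl | hX
    · simp [r0]
    · have h := hlam.part X (subset_univ X) hX
      rw [hpu] at h
      have hc : 1 ≤ X.card := hX.card_pos
      rw [Nat.cast_sub hc]
      push_cast
      linarith
  · simp only [hΨ, univ_inter]
    have h := hlam.total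
    rw [hpu] at h
    rw [h, card_univ, Fintype.card_fin, Nat.add_sub_cancel]
    push_cast
    ring

end MPcc0Tri2
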