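import Pool.Agent.Lib.MP_cc0c1a_nt.Tri2.SpecS

/-!
# MP_cc0c1a_nt / Tri2: S5, greedy bases
-/

set_option autoImplicit false

namespace MPcc0Tri2

open Finset Filter Topology MPcc0Tri Pool.Agent.SubQ

private theorem s5_dsp_insert {α V : Type} [DecidableEq α] [AddCommGroup V] [Module ℚ V]
    (P : α → V) (X : Finset α) (i a : α) (ha : a ∈ X) :
    dsp P (insert i X) = dsp P X ⊔ Submodule.span ℚ {P i - P a} := by
  apply le_antisymm
  · have key : ∀ x ∈ insert i X, P x - P a ∈ dsp P X ⊔ Submodule.span ℚ {P i - P a} := by
      intro x hx
      rcases Finset.mem_insert.1 hx with rfl | hx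
      · exact Submodule.mem_sup_right (Submodule.subset_span rfl)
      · exact Submodule.mem_sup_left (Submodule.subset_span ⟨x, hx, a, ha, rfl⟩)
    unfold dsp
    rw [Submodule.span_le]
    rintro w ⟨x, hx, y, hy, rfl⟩
    have := Submodule.sub_mem _ (key x hx) (key y hy)
    rwa [sub_sub_sub_cancel_right] at this
  · refine sup_le ?_ ?_
    · refine Submodule.span_mono ?_
      rintro w ⟨x, hx, y, hy, rfl⟩
      exact ⟨x, Finset.mem_insert_of_mem hx, y, Finset.mem_insert_of_mem hy, rfl⟩
    · rw [Submodule.span_singleton_le_iff_mem]
      exact Submodule.subset_span ⟨i, Finset.mem_insert_self _ _, a, Finset.mem_insert_of_mem ha,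
        rfl⟩

private theorem s5_dsp_empty {α V : Type} [AddCommGroup V] [Module ℚ V] (P : α → V) :
    dsp P ∅ = ⊥ := by
  unfold dsp
  rw [Submodule.span_eq_bot]
  rintro w ⟨x, hx, _⟩
  exact absurd hx (Finset.notMem_empty x)

private theorem s5_dsp_single {α V : Type} [AddCommGroup V] [Module ℚ V] (P : α → V) (i : α) :
    dsp P {i} = ⊥ := by
  unfold dsp
  rw [Submodule.span_eq_bot]
  rintro w ⟨x, hx, y, hy, rfl⟩
  rw [Finset.mem_singleton.1 hx, Finset.mem_singleton.1 hy, sub_self]

theorem s5 (_h1 : RankFacts) : Greedy := by
  classical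
  intro N V _ _ _ P σ G hG
  -- the first index
  have hne : (univ.filter fun j : Fin N => σ j ∈ G).Nonempty := by
    obtain ⟨g, hg⟩ := hG
    exact ⟨σ.symm g, by rw [mem_filter]; exact ⟨mem_univ _, by rwa [σ.apply_symm_apply]⟩⟩
  obtain ⟨j₀, hj₀, hmin⟩ := Finset.exists_min_image _ (fun j : Fin N => j) hne
  have hj₀G : σ j₀ ∈ G := (mem_filter.1 hj₀).2
  have hmin' : ∀ j, σ j ∈ G → j₀ ≤ j := fun j hj => hmin j (mem_filter.2 ⟨mem_univ _, hj⟩)
  set X : ℕ → Finset (Fin N) := fun m => (univ.filter fun i => ((σ.symm i : Fin N) : ℕ) < m) ∩ G
    with hX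
  set v : Fin N → V := fun j => P (σ j) - P (σ j₀) with hv
  set J : ℕ → Finset (Fin N) := fun m => univ.filter fun j : Fin N =>
    (j : ℕ) < m ∧ σ j ∈ G ∧ j₀ < j ∧ v j ∉ dsp P (X j) with hJ
  have hXmem : ∀ m i, i ∈ X m ↔ ((σ.symm i : Fin N) : ℕ) < m ∧ i ∈ G := by
    intro m i
    simp only [hX, mem_inter, mem_filter, mem_univ, true_and]
  have hJmem : ∀ m (j : Fin N), j ∈ J m ↔ (j : ℕ) < m ∧ σ j ∈ G ∧ j₀ < j ∧
      v j ∉ dsp P (X j) := by
    intro m j
    simp only [hJ, mem_filter, mem_univ, true_and]
  -- main induction
  have main : ∀ m : ℕ, m ≤ N → dsp P (X m) = Submodule.span ℚ (v '' (J m : Set (Fin N))) ∧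
      LinearIndepOn ℚ v (J m : Set (Fin N)) := by
    intro m
    induction m with
    | zero =>
      intro _
      have hX0 : X 0 = ∅ := by
        ext i
        rw [hXmem]
        simp
      have hJ0 : J 0 = ∅ := by
        ext i
        rw [hJmem]
        simp
      rw [hX0, hJ0, s5_dsp_empty, coe_empty, Set.image_empty, Submodule.span_empty]
      exact ⟨rfl, linearIndepOn_empty ℚ v⟩
    | succ m ih =>
      intro hm
      obtain ⟨ih1, ih2⟩ := ih (by omega)
      have hcast : (((⟨m, hm⟩ : Fin N)) : ℕ) = m := rfl
      generalize hj : (⟨m, hm⟩ : Fin N) = j at hcast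
      have eqj : ∀ k : Fin N, (k : ℕ) = m → k = j := fun k hk => Fin.ext (by rw [hk, hcast])
      by_cases hjG : σ j ∈ G
      · have hXs : X (m + 1) = insert (σ j) (X m) := by
          ext i
          rw [hXmem, mem_insert, hXmem]
          constructor
          · rintro ⟨h1, h2⟩
            by_cases h : ((σ.symm i : Fin N) : ℕ) = m
            · left
              rw [← eqj _ h, σ.apply_symm_apply]
            · right
              exact ⟨by omega, h2⟩
          · rintro (h | ⟨h1, h2⟩)
            · rw [h, σ.symm_apply_apply, hcast]
              exact ⟨by omega, hjG⟩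
            · exact ⟨by omega, h2⟩
        rcases eq_or_lt_of_le (hmin' j hjG) with he | hlt
        · have hX0 : X m = ∅ := by
            ext i
            rw [hXmem]
            simp only [notMem_empty, iff_false, not_and]
            intro h1 h2
            have := hmin' (σ.symm i) (by rwa [σ.apply_symm_apply])
            have h3 : (j₀ : ℕ) ≤ ((σ.symm i : Fin N) : ℕ) := this
            rw [he, hcast] at h3
            omega
          have hJ0 : J (m + 1) = ∅ := by
            ext k
            rw [hJmem]
            simp only [notMem_empty, iff_false, not_and]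
            intro h1 _ h3
            have h4 : (j₀ : ℕ) < (k : ℕ) := h3
            rw [he, hcast] at h4
            omega
          rw [hXs, hX0, hJ0, insert_empty_eq, s5_dsp_single, coe_empty, Set.image_empty,
            Submodule.span_empty]
          exact ⟨rfl, linearIndepOn_empty ℚ v⟩
        · have hmem0 : σ j₀ ∈ X m := by
            rw [hXmem, σ.symm_apply_apply]
            have h3 : (j₀ : ℕ) < (j : ℕ) := hlt
            rw [hcast] at h3
            exact ⟨h3, hj₀G⟩
          by_cases hvj : v j ∈ dsp P (X j)
          · have hJs : J (m + 1) = J m := by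
              ext k
              rw [hJmem, hJmem]
              constructor
              · rintro ⟨h1, h2, h3, h4⟩
                refine ⟨?_, h2, h3, h4⟩
                by_contra hk
                apply h4
                rw [eqj k (by omega)]
                exact hvj
              · rintro ⟨h1, h2⟩
                exact ⟨by omega, h2⟩
            rw [hXs, hJs, s5_dsp_insert P (X m) (σ j) (σ j₀) hmem0, ← ih1]
            refine ⟨?_, ih2⟩
            rw [sup_eq_left, Submodule.span_singleton_le_iff_mem]
            rw [hcast] at hvj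
            exact hvj
          · have hJs : J (m + 1) = insert j (J m) := by
              ext k
              rw [hJmem, mem_insert, hJmem]
              constructor
              · rintro ⟨h1, h2⟩
                by_cases h : (k : ℕ) = m
                · exact Or.inl (eqj k h)
                · exact Or.inr ⟨by omega, h2⟩
              · rintro (rfl | ⟨h1, h2⟩)
                · exact ⟨by omega, hjG, hlt, hvj⟩
                · exact ⟨by omega, h2⟩
            rw [hXs, hJs, s5_dsp_insert P (X m) (σ j) (σ j₀) hmem0, coe_insert, Set.image_insert_eq,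
              Submodule.span_insert, sup_comm, ← ih1]
            refine ⟨rfl, ?_⟩
            refine LinearIndepOn.insert ih2 ?_
            rw [← ih1]
            rw [hcast] at hvj
            exact hvj
      · have hXs : X (m + 1) = X m := by
          ext i
          rw [hXmem, hXmem]
          constructor
          · rintro ⟨h1, h2⟩
            refine ⟨?_, h2⟩
            by_contra h
            apply hjG
            rw [← eqj (σ.symm i) (by omega), σ.apply_symm_apply]
            exact h2
          · rintro ⟨h1, h2⟩
            exact ⟨by omega, h2⟩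
        have hJs : J (m + 1) = J m := by
          ext k
          rw [hJmem, hJmem]
          constructor
          · rintro ⟨h1, h2, h3⟩
            refine ⟨?_, h2, h3⟩
            by_contra hk
            apply hjG
            rw [← eqj k (by omega)]
            exact h2
          · rintro ⟨h1, h2⟩
            exact ⟨by omega, h2⟩
        rw [hXs, hJs]
        exact ⟨ih1, ih2⟩
  -- ranks
  have hrk : ∀ m : ℕ, m ≤ N → rk P (X m) = (J m).card := by
    intro m hm
    obtain ⟨h1, h2⟩ := main m hm
    unfold rk
    rw [h1]
    have h3 := finrank_span_eq_card h2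
    rw [Set.image_eq_range, h3]
    simp
  have hXN : X N = G := by
    ext i
    rw [hXmem]
    exact ⟨fun h => h.2, fun h => ⟨(σ.symm i).2, h⟩⟩
  have hcard : (J N).card = rk P G := by rw [← hrk N le_rfl, hXN]
  obtain ⟨hs, hli⟩ := main N le_rfl
  set e := (J N).equivFinOfCardEq hcard with he
  have hb : ∀ k, ((e.symm k : (J N)) : Fin N) ∈ J N := fun k => (e.symm k).2
  refine ⟨j₀, fun k => (e.symm k : (J N)), hj₀G, fun k => ((hJmem N _).1 (hb k)).2.2.1,
    fun k => ((hJmem N _).1 (hb k)).2.1, ?_, ?_, ?_⟩
  · have h3 : LinearIndependent ℚ ((fun x : (J N : Set (Fin N)) => v x) ∘ e.symm) :=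
      LinearIndependent.comp hli _ e.symm.injective
    exact h3
  · have hs' : dsp P G = Submodule.span ℚ (v '' (J N : Set (Fin N))) := by
      have h5 := hs
      rw [hXN] at h5
      exact h5
    rw [hs']
    congr 1
    ext w
    simp only [Set.mem_range, Set.mem_image, mem_coe]
    constructor
    · rintro ⟨k, rfl⟩
      exact ⟨_, hb k, rfl⟩
    · rintro ⟨j, hj, rfl⟩
      refine ⟨e ⟨j, hj⟩, ?_⟩
      rw [e.symm_apply_apply]
  · intro y
    have hstep : ∀ j : Fin N, (rk P (pre σ j ∩ G) : ℝ) - rk P (pre' σ j ∩ G) =
        if j ∈ J N then 1 else 0 := by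
      intro j
      have e1 : pre σ j ∩ G = X ((j : ℕ) + 1) := by
        ext i
        rw [hXmem]
        unfold pre
        rw [mem_inter, mem_filter, Nat.lt_succ_iff]
        simp only [mem_univ, true_and]
        exact Iff.rfl
      have e2 : pre' σ j ∩ G = X (j : ℕ) := by
        ext i
        rw [hXmem]
        unfold pre'
        rw [mem_inter, mem_filter]
        simp only [mem_univ, true_and]
        exact Iff.rfl
      rw [e1, e2, hrk _ (by omega), hrk _ (by omega)]
      split_ifs with hj
      · have hJs : J ((j : ℕ) + 1) = insert j (J (j : ℕ)) := by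
          ext k
          rw [hJmem, mem_insert, hJmem]
          constructor
          · rintro ⟨h1, h2⟩
            by_cases h : (k : ℕ) = j
            · exact Or.inl (Fin.ext h)
            · exact Or.inr ⟨by omega, h2⟩
          · rintro (rfl | ⟨h1, h2⟩)
            · exact ⟨by omega, ((hJmem N _).1 hj).2⟩
            · exact ⟨by omega, h2⟩
        rw [hJs, card_insert_of_notMem]
        · push_cast
          ring
        · rw [hJmem]
          intro h
          exact absurd h.1 (lt_irrefl _)
      · have hJs : J ((j : ℕ) + 1) = J (j : ℕ) := by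
          ext k
          rw [hJmem, hJmem]
          constructor
          · rintro ⟨h1, h2⟩
            refine ⟨?_, h2⟩
            by_contra h
            apply hj
            have hk : k = j := Fin.ext (by omega)
            rw [← hk, hJmem]
            exact ⟨k.2, h2⟩
          · rintro ⟨h1, h2⟩
            exact ⟨by omega, h2⟩
        rw [hJs, sub_self]
    unfold cost
    simp only [hstep, mul_ite, mul_one, mul_zero]
    rw [Finset.sum_ite_mem, univ_inter]
    rw [← Finset.sum_coe_sort (J N) (fun j => y (σ j)),
      ← Equiv.sum_comp e.symm (fun x : (J N) => y (σ x))]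

end MPcc0Tri2
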