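import Pool.Agent.Lib.MP_cc0c1a_nt.Tri2.SpecS

/-!
# MP_cc0c1a_nt / Tri2: S6a, relations between the points
-/

set_option autoImplicit false

namespace MPcc0Tri2

open Finset Filter Topology MPcc0Tri Pool.Agent.SubQ

theorem s6a : PtFacts := by
  classical
  intro N 𝒰 u
  have key : ∀ (n : ℕ) (a b : Fin n → Fin N) (z : Fin n → ℚ),
      ∑ k, z k • (pt 𝒰 u (a k) - pt 𝒰 u (b k)) = 0 ↔
        ∀ᶠ l in (𝒰 : Filter ℕ), ∑ k, z k * ((u l (a k) : ℚ) - (u l (b k) : ℚ)) = 0 := by
    intro n a b z
    have hc : ∑ k, z k • (pt 𝒰 u (a k) - pt 𝒰 u (b k)) =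
        Submodule.Quotient.mk (∑ k, z k • (Pi.single (a k) (1 : ℚ) - Pi.single (b k) (1 : ℚ))) := by
      rw [← Submodule.mkQ_apply, map_sum]
      refine sum_congr rfl fun k _ => ?_
      rw [map_smul, map_sub]
      rfl
    have hcw : ∀ w : Fin N → ℚ,
        ∑ i, (∑ k, z k • (Pi.single (a k) (1 : ℚ) - Pi.single (b k) (1 : ℚ)) : Fin N → ℚ) i * w i =
          ∑ k, z k * (w (a k) - w (b k)) := by
      intro w
      simp only [Finset.sum_apply, Pi.smul_apply, Pi.sub_apply, smul_eq_mul, Finset.sum_mul]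
      rw [Finset.sum_comm]
      refine sum_congr rfl fun k _ => ?_
      simp only [mul_assoc, ← Finset.mul_sum]
      congr 1
      simp only [sub_mul, Finset.sum_sub_distrib, Pi.single_apply, ite_mul, one_mul, zero_mul,
        Finset.sum_ite_eq', Finset.mem_univ, if_true]
    rw [hc, Submodule.Quotient.mk_eq_zero]
    have h0 : ∑ i, (∑ k, z k • (Pi.single (a k) (1 : ℚ) - Pi.single (b k) (1 : ℚ)) :
        Fin N → ℚ) i = 0 := by
      have := hcw fun _ => 1
      simp only [mul_one, sub_self, mul_zero, Finset.sum_const_zero] at this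
      exact this
    constructor
    · rintro ⟨_, h⟩
      filter_upwards [h] with l hl
      rw [← hcw fun i => (u l i : ℚ)]
      exact hl
    · intro h
      refine ⟨h0, ?_⟩
      filter_upwards [h] with l hl
      rw [hcw fun i => (u l i : ℚ)]
      exact hl
  refine ⟨key, ?_⟩
  intro i j hij
  have h := (key 1 (fun _ => i) (fun _ => j) (fun _ => 1)).1 (by
    rw [hij, sub_self]
    simp)
  filter_upwards [h] with l hl
  simp only [Finset.univ_unique, Fin.default_eq_zero, one_mul, Finset.sum_const,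
    Finset.card_singleton, one_smul] at hl
  have := sub_eq_zero.1 hl
  exact_mod_cast this

end MPcc0Tri2
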