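import Pool.Agent.Lib.MP_cc0c1a_nt.Tri2.SpecS

/-!
# MP_cc0c1a_nt / Tri2 / S6c: one application of the Subspace theorem (helper69)
-/

set_option autoImplicit false

namespace MPcc0Tri2

open Filter Topology Pool.Agent.SubQ

private theorem s6c_lv {s : ℕ} (q : Fin s → ℕ) (hq : Pls q) (v : Option (Fin s)) (D : ℕ)
    (hD : 1 ≤ D) (z : ℤ) (hz : z ≠ 0) : lv q v ((D : ℤ) * z) ≤ Real.log D + lv q v z := by
  have hD0 : (D : ℤ) ≠ 0 := by
    have : D ≠ 0 := by omega
    exact_mod_cast this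
  have hD1 : (D : ℝ) ≠ 0 := by
    have : D ≠ 0 := by omega
    exact_mod_cast this
  have hlogD : 0 ≤ Real.log D := Real.log_nonneg (by exact_mod_cast hD)
  cases v with
  | none =>
    unfold lv
    push_cast
    rw [abs_mul, Real.log_mul, Nat.abs_cast]
    · rw [abs_ne_zero]
      exact hD1
    · rw [abs_ne_zero]
      exact_mod_cast hz
  | some v =>
    have hp : Fact (q v).Prime := ⟨hq.prime v⟩
    have h1 : padicValInt (q v) ((D : ℤ) * z) = padicValInt (q v) D + padicValInt (q v) z :=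
      padicValInt.mul hD0 hz
    have h2 : 0 ≤ Real.log (q v) := Real.log_nonneg (by exact_mod_cast (hq.prime v).one_le)
    have h3 : 0 ≤ (padicValInt (q v) (D : ℤ) : ℝ) * Real.log (q v) :=
      mul_nonneg (Nat.cast_nonneg _) h2
    change -((padicValInt (q v) ((D : ℤ) * z) : ℝ) * Real.log (q v)) ≤
      Real.log D + -((padicValInt (q v) z : ℝ) * Real.log (q v))
    rw [h1]
    push_cast
    rw [add_mul]
    linarith

/-- The relation between the differences at two places. -/
private theorem s6c_rel (h4 : PtFacts) {N n : ℕ} (𝒰 : Ultrafilter ℕ) (u : ℕ → Fin N → ℤ)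
    (D : ℕ) (i j : Fin N) (a : Fin n → Fin N) (j₀ : Fin N) (M : Fin n → ℤ)
    (h : (D : ℚ) • (pt 𝒰 u i - pt 𝒰 u j) = ∑ m, (M m : ℚ) • (pt 𝒰 u (a m) - pt 𝒰 u j₀)) :
    ∀ᶠ l in (𝒰 : Filter ℕ), ∑ m, M m * (u l (a m) - u l j₀) = (D : ℤ) * (u l i - u l j) := by
  have h1 := ((h4 N 𝒰 u).1 (n + 1) (Fin.cons i a) (Fin.cons j (fun _ => j₀))
    (Fin.cons (D : ℚ) (fun m => -(M m : ℚ)))).mp (by
      rw [Fin.sum_univ_succ]
      simp only [Fin.cons_zero, Fin.cons_succ, neg_smul, Finset.sum_neg_distrib]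
      rw [h]
      exact add_neg_cancel _)
  filter_upwards [h1] with l hl
  rw [Fin.sum_univ_succ] at hl
  simp only [Fin.cons_zero, Fin.cons_succ, neg_mul, Finset.sum_neg_distrib] at hl
  have h2 : (D : ℚ) * ((u l i : ℚ) - u l j) = ∑ m, (M m : ℚ) * ((u l (a m) : ℚ) - u l j₀) := by
    linarith
  have h3 : ((∑ m, M m * (u l (a m) - u l j₀) : ℤ) : ℚ) = (((D : ℤ) * (u l i - u l j) : ℤ) : ℚ) := by
    push_cast
    exact h2.symm
  exact_mod_cast h3

theorem s6c (h1 : SubUp) (_h2 : RankFacts) (h3 : Greedy) (h4 : PtFacts) (h5 : BasisChange) :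
    OneFace := by
  intro N s q 𝒰 T u y B hq hT hne hB hlv σ hσ G
  rcases Finset.eq_empty_or_nonempty G with rfl | hG
  · simp [cost]
  have hgr := fun v => h3 N _ (pt 𝒰 u) (σ v) G hG
  choose j₀ b _hj hlt _hmem hli hspan hcost using hgr
  have hbc := fun v => h5 _ (rk (pt 𝒰 u) G)
    (fun k => pt 𝒰 u (σ none (b none k)) - pt 𝒰 u (σ none (j₀ none)))
    (fun k => pt 𝒰 u (σ v (b v k)) - pt 𝒰 u (σ v (j₀ v))) (hli none) (hli v)
    ((hspan none).trans (hspan v).symm)
  choose D M hD hdet hrel using hbc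
  have hmain := h1 (rk (pt 𝒰 u) G) s q 𝒰 T
    (fun l k => u l (σ none (b none k)) - u l (σ none (j₀ none))) M
    (fun v k => y v (σ v (b v k))) B hq hT ?_ hdet ?_ ?_
  · refine le_trans hmain (le_of_eq ?_)
    apply Finset.sum_congr rfl
    intro v _
    rw [hcost v (y v)]
  · -- genericity
    intro z hz
    have h6 : ¬ ∀ᶠ l in (𝒰 : Filter ℕ), ∑ k, (z k : ℚ) *
        ((u l (σ none (b none k)) : ℚ) - (u l (σ none (j₀ none)) : ℚ)) = 0 := by
      intro hcon
      have h7 := ((h4 N 𝒰 u).1 (rk (pt 𝒰 u) G) (fun k => σ none (b none k))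
        (fun _ => σ none (j₀ none)) (fun k => (z k : ℚ))).mpr hcon
      have h8 := Fintype.linearIndependent_iff.mp (hli none) _ h7
      apply hz
      funext k
      have h9 := h8 k
      exact_mod_cast h9
    rw [← Ultrafilter.eventually_not] at h6
    filter_upwards [h6] with l hl hcon
    apply hl
    have h7 : ((∑ k, z k * (u l (σ none (b none k)) - u l (σ none (j₀ none))) : ℤ) : ℚ) = 0 := by
      rw [hcon]
      simp
    push_cast at h7
    exact h7
  · -- size
    intro k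
    exact hB _ _
  · -- the bounds at the places
    intro v k ε hε
    have hne' : σ v (b v k) ≠ σ v (j₀ v) := by
      intro h
      have := (σ v).injective h
      exact absurd this (hlt v k).ne'
    have e1 := s6c_rel h4 𝒰 u (D v) (σ v (b v k)) (σ v (j₀ v)) (fun k => σ none (b none k))
      (σ none (j₀ none)) (M v k) (hrel v k)
    have e2 := hlv v (σ v (b v k)) (σ v (j₀ v)) hne' (ε / 2) (by linarith)
    have hmax : max (y v (σ v (b v k))) (y v (σ v (j₀ v))) = y v (σ v (b v k)) :=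
      max_eq_left (hσ v _ _ (hlt v k).le)
    have e3 : ∀ᶠ l in (𝒰 : Filter ℕ), Real.log (D v) ≤ ε / 2 * T l := by
      have hT' : Tendsto (fun l => ε / 2 * (T l : ℝ)) (𝒰 : Filter ℕ) atTop :=
        (tendsto_natCast_atTop_atTop.comp hT).const_mul_atTop (by linarith)
      exact hT'.eventually_ge_atTop _
    filter_upwards [e1, e2, e3, hne _ _ hne'] with l l1 l2 l3 l4
    rw [hmax] at l2
    rw [l1]
    have l5 := s6c_lv q hq v (D v) (hD v) (u l (σ v (b v k)) - u l (σ v (j₀ v)))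
      (sub_ne_zero.mpr l4)
    have l6 : (y v (σ v (b v k)) + ε / 2) * (T l : ℝ) + ε / 2 * T l =
        (y v (σ v (b v k)) + ε) * T l := by ring
    linarith

end MPcc0Tri2
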