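import Pool.Agent.Lib.MP_cc0c1a_nt.Tri2.SpecS

/-!
# MP_cc0c1a_nt / Tri2, module S6d: points along an ultrafilter
-/

set_option autoImplicit false

namespace MPcc0Tri2

open Finset Filter Topology MPcc0Tri Pool.Agent.SubQ

theorem s6d (h1 : OneFace) (h2 : PtFacts) (h3 : CostSum) : PointsLim := by
  intro N s q 𝒰 T u y B hq hT hne hB hy
  have hinj : Function.Injective (pt 𝒰 u) := by
    intro i j hij
    by_contra hne'
    obtain ⟨l, hl1, hl2⟩ := (((h2 (N + 1) 𝒰 u).2 i j hij).and (hne i j hne')).exists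
    exact hl2 hl1
  obtain ⟨lam, hl, hlam⟩ := h3 N _ (pt 𝒰 u) hinj
  have hsort : ∀ (v : Option (Fin s)) (i j : Fin (N + 1)), i ≤ j →
      y v (Tuple.sort (y v) i) ≤ y v (Tuple.sort (y v) j) := fun v i j hij =>
    Tuple.monotone_sort (y v) hij
  refine ⟨fun v => Tuple.sort (y v) 0, fun v i => ?_, ?_⟩
  · have := hsort v 0 ((Tuple.sort (y v)).symm i) (Fin.zero_le _)
    rwa [Equiv.apply_symm_apply] at this
  · have key : ∀ G : Finset (Fin (N + 1)), 0 ≤ ∑ v, cost (pt 𝒰 u) (Tuple.sort (y v)) (y v) G :=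
      h1 (N + 1) s q 𝒰 T u y B hq hT hne hB hy (fun v => Tuple.sort (y v)) hsort
    calc (0 : ℝ) ≤ ∑ G, lam G * ∑ v, cost (pt 𝒰 u) (Tuple.sort (y v)) (y v) G :=
          sum_nonneg fun G _ => mul_nonneg (hl G) (key G)
      _ = ∑ v, ∑ G, lam G * cost (pt 𝒰 u) (Tuple.sort (y v)) (y v) G := by
          simp only [mul_sum]
          exact sum_comm
      _ ≤ _ := sum_le_sum fun v _ => hlam (Tuple.sort (y v)) (y v) (hsort v)

end MPcc0Tri2
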