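import Pool.Agent.Lib.MP_cc0c1a_nt.Tri2.SpecS

/-!
# MP_cc0c1a_nt / Tri2, module S7: points, uniform version
-/

set_option autoImplicit false

namespace MPcc0Tri2

open Finset Filter Topology MPcc0Tri Pool.Agent.SubQ

private lemma s7_lim (𝒰 : Ultrafilter ℕ) (f : ℕ → ℝ) (a b : ℝ) (h : ∀ l, f l ∈ Set.Icc a b) :
    ∃ x ∈ Set.Icc a b, Tendsto f (𝒰 : Filter ℕ) (𝓝 x) := by
  obtain ⟨x, hx, hx'⟩ := (isCompact_Icc (a := a) (b := b)).ultrafilter_le_nhds (𝒰.map f)
    (by
      rw [Ultrafilter.coe_map, le_principal_iff, Filter.mem_map]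
      exact univ_mem' h)
  exact ⟨x, hx, by rwa [Ultrafilter.coe_map] at hx'⟩

private lemma s7_lv (p : ℕ) (hp : p.Prime) (z : ℤ) (hz : z ≠ 0) (m : ℕ) (h : (p : ℤ) ^ m ∣ z) :
    -((padicValInt p z : ℝ) * Real.log p) ≤ -((m : ℝ) * Real.log p) := by
  have : Fact p.Prime := ⟨hp⟩
  have h1 : m ≤ padicValInt p z := by
    rcases (padicValInt_dvd_iff (p := p) m z).1 h with h2 | h2
    · exact absurd h2 hz
    · exact h2
  have h2 : (0 : ℝ) ≤ Real.log p := Real.log_nonneg (by exact_mod_cast hp.one_lt.le)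
  have h3 : (m : ℝ) ≤ padicValInt p z := by exact_mod_cast h1
  exact neg_le_neg (mul_le_mul_of_nonneg_right h3 h2)

theorem s7 (h1 : PointsLim) : PointsUnif := by
  intro N ε hε
  rcases N with _ | N
  · refine ⟨0, fun T _ u a b c _ _ _ _ _ _ _ _ => ?_⟩
    rw [Fin.sum_univ_zero]
    positivity
  by_contra hcon
  push Not at hcon
  choose T hT u a b c hinj h2 h3 hla hlb hc1 hc3 hd hbad using fun l : ℕ => hcon (l + 1)
  have hTpos : ∀ l, (0 : ℝ) < T l := fun l => by
    have := hT l
    exact_mod_cast (by omega : 0 < T l)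
  set 𝒰 : Ultrafilter ℕ := hyperfilter ℕ with h𝒰
  have h𝒰t : (𝒰 : Filter ℕ) ≤ atTop := Nat.hyperfilter_le_atTop
  have hTt : Tendsto T (𝒰 : Filter ℕ) atTop := by
    refine Tendsto.mono_left ?_ h𝒰t
    exact tendsto_atTop_mono (fun l => (Nat.le_succ l).trans (hT l)) tendsto_id
  have hl2 : (0 : ℝ) < Real.log 2 := Real.log_pos (by norm_num)
  have hl3 : (0 : ℝ) < Real.log 3 := Real.log_pos (by norm_num)
  have hA : ∀ i, ∃ x ∈ Set.Icc (0 : ℝ) 1, Tendsto (fun l => (a l i : ℝ) * Real.log 2 / T l)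
      (𝒰 : Filter ℕ) (𝓝 x) := fun i => s7_lim 𝒰 _ 0 1 fun l =>
    ⟨div_nonneg (mul_nonneg (Nat.cast_nonneg _) hl2.le) (hTpos l).le,
      (div_le_one (hTpos l)).2 (hla l i)⟩
  have hBB : ∀ i, ∃ x ∈ Set.Icc (0 : ℝ) 1, Tendsto (fun l => (b l i : ℝ) * Real.log 3 / T l)
      (𝒰 : Filter ℕ) (𝓝 x) := fun i => s7_lim 𝒰 _ 0 1 fun l =>
    ⟨div_nonneg (mul_nonneg (Nat.cast_nonneg _) hl3.le) (hTpos l).le,
      (div_le_one (hTpos l)).2 (hlb l i)⟩
  have hCC : ∀ i, ∃ x ∈ Set.Icc (1 : ℝ) 3, Tendsto (fun l => c l i / T l)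
      (𝒰 : Filter ℕ) (𝓝 x) := fun i => s7_lim 𝒰 _ 1 3 fun l =>
    ⟨(one_le_div (hTpos l)).2 (hc1 l i), (div_le_iff₀ (hTpos l)).2 (hc3 l i)⟩
  choose A hA1 hA2 using hA
  choose B hB1 hB2 using hBB
  choose C hC1 hC2 using hCC
  set y : Option (Fin 2) → Fin (N + 1) → ℝ := fun v => match v with
    | none => C
    | some 0 => fun i => -A i
    | some 1 => fun i => -B i with hy
  have hq : Pls (![2, 3] : Fin 2 → ℕ) := by
    constructor
    · intro v
      fin_cases v
      · exact Nat.prime_two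
      · exact Nat.prime_three
    · intro v w hvw
      fin_cases v <;> fin_cases w <;> simp_all
  have hne : ∀ i j, i ≠ j → ∀ l, u l i ≠ u l j := fun i j hij l h => hij (hinj l h)
  have hev : ∀ (f : ℕ → ℝ) (x ε' : ℝ), Tendsto f (𝒰 : Filter ℕ) (𝓝 x) → 0 < ε' →
      ∀ᶠ l in (𝒰 : Filter ℕ), |f l - x| < ε' := fun f x ε' hf hε' =>
    (Metric.tendsto_nhds.1 hf ε' hε').mono fun l hl => by rwa [Real.dist_eq] at hl
  obtain ⟨i₀, hi₀, hsum⟩ := h1 N 2 ![2, 3] 𝒰 T u y 3 hq hTt
    (fun i j hij => Eventually.of_forall (hne i j hij))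
    (fun i j => Eventually.of_forall fun l => (hd l i j).trans (Real.exp_le_exp.2
      (max_le (hc3 l i) (hc3 l j))))
    (by
      intro v i j hij ε' hε'
      match v with
      | none =>
        filter_upwards [hev _ _ ε' (hC2 i) hε', hev _ _ ε' (hC2 j) hε'] with l hli hlj
        have hz : (0 : ℝ) < |((u l i - u l j : ℤ) : ℝ)| := by
          rw [abs_pos]
          exact_mod_cast sub_ne_zero.2 (hne i j hij l)
        have e1 : c l i ≤ (C i + ε') * T l := by
          rw [← div_le_iff₀ (hTpos l)]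
          linarith [(abs_lt.1 hli).2]
        have e2 : c l j ≤ (C j + ε') * T l := by
          rw [← div_le_iff₀ (hTpos l)]
          linarith [(abs_lt.1 hlj).2]
        have e3 : Real.log |((u l i - u l j : ℤ) : ℝ)| ≤ max (c l i) (c l j) := by
          rw [Real.log_le_iff_le_exp hz]
          exact hd l i j
        refine e3.trans (max_le ?_ ?_)
        · exact e1.trans (mul_le_mul_of_nonneg_right
            (add_le_add_left (le_max_left _ _) _) (hTpos l).le)
        · exact e2.trans (mul_le_mul_of_nonneg_right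
            (add_le_add_left (le_max_right _ _) _) (hTpos l).le)
      | some 0 =>
        filter_upwards [hev _ _ ε' (hA2 i) hε', hev _ _ ε' (hA2 j) hε'] with l hli hlj
        have hdv : ((2 : ℕ) : ℤ) ^ min (a l i) (a l j) ∣ u l i - u l j :=
          dvd_sub ((pow_dvd_pow _ (min_le_left _ _)).trans (h2 l i))
            ((pow_dvd_pow _ (min_le_right _ _)).trans (h2 l j))
        have e3 := s7_lv 2 Nat.prime_two _ (sub_ne_zero.2 (hne i j hij l)) _ hdv
        have e1 : (A i - ε') * T l ≤ (a l i : ℝ) * Real.log 2 := by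
          rw [← le_div_iff₀ (hTpos l)]
          linarith [(abs_lt.1 hli).1]
        have e2 : (A j - ε') * T l ≤ (a l j : ℝ) * Real.log 2 := by
          rw [← le_div_iff₀ (hTpos l)]
          linarith [(abs_lt.1 hlj).1]
        refine e3.trans ?_
        rcases le_total (a l i) (a l j) with h | h
        · rw [min_eq_left h]
          have : (-A i + ε') * (T l : ℝ) ≤ (max (-A i) (-A j) + ε') * T l :=
            mul_le_mul_of_nonneg_right (add_le_add_left (le_max_left _ _) _) (hTpos l).le
          refine le_trans ?_ this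
          push_cast
          linarith
        · rw [min_eq_right h]
          have : (-A j + ε') * (T l : ℝ) ≤ (max (-A i) (-A j) + ε') * T l :=
            mul_le_mul_of_nonneg_right (add_le_add_left (le_max_right _ _) _) (hTpos l).le
          refine le_trans ?_ this
          push_cast
          linarith
      | some 1 =>
        filter_upwards [hev _ _ ε' (hB2 i) hε', hev _ _ ε' (hB2 j) hε'] with l hli hlj
        have hdv : ((3 : ℕ) : ℤ) ^ min (b l i) (b l j) ∣ u l i - u l j :=
          dvd_sub ((pow_dvd_pow _ (min_le_left _ _)).trans (h3 l i))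
            ((pow_dvd_pow _ (min_le_right _ _)).trans (h3 l j))
        have e3 := s7_lv 3 Nat.prime_three _ (sub_ne_zero.2 (hne i j hij l)) _ hdv
        have e1 : (B i - ε') * T l ≤ (b l i : ℝ) * Real.log 3 := by
          rw [← le_div_iff₀ (hTpos l)]
          linarith [(abs_lt.1 hli).1]
        have e2 : (B j - ε') * T l ≤ (b l j : ℝ) * Real.log 3 := by
          rw [← le_div_iff₀ (hTpos l)]
          linarith [(abs_lt.1 hlj).1]
        refine e3.trans ?_
        rcases le_total (b l i) (b l j) with h | h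
        · rw [min_eq_left h]
          have : (-B i + ε') * (T l : ℝ) ≤ (max (-B i) (-B j) + ε') * T l :=
            mul_le_mul_of_nonneg_right (add_le_add_left (le_max_left _ _) _) (hTpos l).le
          refine le_trans ?_ this
          push_cast
          linarith
        · rw [min_eq_right h]
          have : (-B j + ε') * (T l : ℝ) ≤ (max (-B i) (-B j) + ε') * T l :=
            mul_le_mul_of_nonneg_right (add_le_add_left (le_max_right _ _) _) (hTpos l).le
          refine le_trans ?_ this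
          push_cast
          linarith)
  -- the contradiction
  have hlim : Tendsto (fun l => ∑ i, ((a l i : ℝ) * Real.log 2 / T l +
      (b l i : ℝ) * Real.log 3 / T l - c l i / T l)) (𝒰 : Filter ℕ)
      (𝓝 (∑ i, (A i + B i - C i))) :=
    tendsto_finsetSum _ fun i _ => ((hA2 i).add (hB2 i)).sub (hC2 i)
  have hge : 1 + ε ≤ ∑ i, (A i + B i - C i) := by
    refine ge_of_tendsto hlim (Eventually.of_forall fun l => ?_)
    have e1 : ∑ i, ((a l i : ℝ) * Real.log 2 / T l + (b l i : ℝ) * Real.log 3 / T l -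
        c l i / T l) = (∑ i, ((a l i : ℝ) * Real.log 2 + (b l i : ℝ) * Real.log 3 - c l i)) /
          T l := by
      rw [sum_div]
      refine sum_congr rfl fun i _ => ?_
      rw [sub_div, add_div]
    rw [e1, le_div_iff₀ (hTpos l)]
    exact (hbad l).le
  rw [Fintype.sum_option, Fin.sum_univ_two] at hsum
  have y0 : ∀ i, y none i = C i := fun i => rfl
  have y1 : ∀ i, y (some 0) i = -A i := fun i => rfl
  have y2 : ∀ i, y (some 1) i = -B i := fun i => rfl
  simp only [y0, y1, y2] at hsum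
  rw [sum_neg_distrib, sum_neg_distrib] at hsum
  rw [sum_sub_distrib, sum_add_distrib] at hge
  linarith [(hA1 (i₀ (some 0))).2, (hB1 (i₀ (some 1))).2, (hC1 (i₀ none)).1]

end MPcc0Tri2
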