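import Pool.Agent.Lib.MP_cc0c1a_nt.Tri2.SpecS

/-!
# MP_cc0c1a_nt / Tri2, module S8: the sum of the sizes of few faces in a large triangle
-/

set_option autoImplicit false

namespace MPcc0Tri2

open Finset Filter Topology MPcc0Tri Pool.Agent.SubQ

private lemma s8_log : th * Real.log 2 = Real.log 3 := by
  unfold th
  rw [Real.logb, div_mul_cancel₀]
  exact (Real.log_pos (by norm_num)).ne'

private lemma s8_three (b : ℕ) : (3 : ℝ) ^ b = (2 : ℝ) ^ (th * b) := by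
  rw [Real.rpow_mul (by norm_num), Real.rpow_natCast]
  congr 1
  unfold th
  rw [Real.rpow_logb (by norm_num) (by norm_num) (by norm_num)]

private lemma s8_th1 : 1 ≤ th := by
  unfold th
  rw [Real.le_logb_iff_rpow_le (by norm_num) (by norm_num)]
  norm_num

private lemma s8_log2lt : Real.log 2 < 1 := by
  have := Real.log_two_lt_d9
  linarith

private lemma s8_log3lt : Real.log 3 < 2 := by
  rw [← s8_log]
  have h1 := th_lt
  have h2 := s8_log2lt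
  have h3 := th_pos
  have h4 : 0 < Real.log 2 := Real.log_pos (by norm_num)
  nlinarith

/-- the integer `u` -/
private lemma s8_int (i : ℚ) (L s A m₁ B m₂ a b : ℕ) (h : IntAt i L s) (h1 : A ≤ L + m₁)
    (h2 : s ≤ B + m₂) (h3 : a + A ≤ L + m₁) (h4 : b + s ≤ B + m₂) :
    ∃ u : ℤ, (u : ℚ) * 2 ^ A = i * 3 ^ (B + m₂) * 2 ^ m₁ ∧ (2 : ℤ) ^ a ∣ u ∧ (3 : ℤ) ^ b ∣ u := by
  obtain ⟨k, hk⟩ := h
  refine ⟨k * 2 ^ (L + m₁ - A) * 3 ^ (B + m₂ - s), ?_, ?_, ?_⟩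
  · have e1 : (3 : ℚ) ^ (B + m₂) = 3 ^ s * 3 ^ (B + m₂ - s) := by
      rw [← pow_add]; congr 1; omega
    have e2 : (2 : ℚ) ^ L * 2 ^ m₁ = 2 ^ (L + m₁ - A) * 2 ^ A := by
      rw [← pow_add, ← pow_add]; congr 1; omega
    rw [e1]
    push_cast
    calc (k : ℚ) * 2 ^ (L + m₁ - A) * 3 ^ (B + m₂ - s) * 2 ^ A
        = k * (2 ^ (L + m₁ - A) * 2 ^ A) * 3 ^ (B + m₂ - s) := by ring
      _ = (k * 2 ^ L) * 3 ^ (B + m₂ - s) * 2 ^ m₁ := by rw [← e2]; ring
      _ = i * (3 ^ s * 3 ^ (B + m₂ - s)) * 2 ^ m₁ := by rw [← hk]; ring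
  · exact Dvd.dvd.mul_right (Dvd.dvd.mul_left (pow_dvd_pow _ (by omega)) _) _
  · exact Dvd.dvd.mul_left (pow_dvd_pow _ (by omega)) _

/-- the bound for a family of `K` faces of nonnegative size -/
private lemma s8_fam (F : Faces ℚ) (hF : Ari F) (K : ℕ) (e : Fin K → ℚ)
    (he : Function.Injective e) (heI : ∀ k, e k ∈ F.I) (A B : ℕ) (ρ τ ε : ℝ)
    (hτ : τ = A - ρ - th * B) (hτ0 : 0 ≤ τ) (hsz : ∀ k, 0 ≤ sz F (e k) A B ρ)
    (hP : ∀ (u : Fin K → ℤ) (a b : Fin K → ℕ)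
      (c : Fin K → ℝ), Function.Injective u → (∀ i, (2 : ℤ) ^ a i ∣ u i) →
      (∀ i, (3 : ℤ) ^ b i ∣ u i) → (∀ i, a i * Real.log 2 ≤ (⌈τ * Real.log 2⌉₊ + 2 : ℕ)) →
      (∀ i, b i * Real.log 3 ≤ (⌈τ * Real.log 2⌉₊ + 2 : ℕ)) →
      (∀ i, ((⌈τ * Real.log 2⌉₊ + 2 : ℕ) : ℝ) ≤ c i) →
      (∀ i, c i ≤ 3 * (⌈τ * Real.log 2⌉₊ + 2 : ℕ)) →
      (∀ i j, |((u i - u j : ℤ) : ℝ)| ≤ Real.exp (max (c i) (c j))) →
      ∑ i, (a i * Real.log 2 + b i * Real.log 3 - c i) ≤ ε * (⌈τ * Real.log 2⌉₊ + 2 : ℕ)) :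
    Real.log 2 * ∑ k, sz F (e k) A B ρ ≤ ε * (⌈τ * Real.log 2⌉₊ + 2 : ℕ) + 4 * K := by
  have hth := th_pos
  have hth1 := s8_th1
  have hth2 := th_lt
  have hl2 : 0 < Real.log 2 := Real.log_pos (by norm_num)
  have hl21 := s8_log2lt
  have hl3 := s8_log3lt
  have hl := s8_log
  set m₁ := ⌈τ⌉₊ with hm₁
  set m₂ := ⌈τ / th⌉₊ with hm₂
  have hm1 : τ ≤ m₁ := Nat.le_ceil τ
  have hm1' : (m₁ : ℝ) < τ + 1 := Nat.ceil_lt_add_one hτ0
  have hm2 : τ ≤ th * m₂ := by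
    have := Nat.le_ceil (τ / th)
    rw [div_le_iff₀ hth] at this
    linarith
  have hm2' : th * m₂ < τ + th := by
    have := Nat.ceil_lt_add_one (div_nonneg hτ0 hth.le)
    have h2 : th * (m₂ : ℝ) < th * (τ / th + 1) := mul_lt_mul_of_pos_left this hth
    rw [mul_add, mul_div_cancel₀ _ hth.ne', mul_one] at h2
    exact h2
  -- inequalities from `0 ≤ sz`
  have q1 : ∀ k, (A : ℝ) ≤ F.L (e k) + m₁ := by
    intro k
    have h1 := hsz k
    unfold sz at h1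
    have h2 : min (F.L (e k) : ℝ) A ≤ F.L (e k) := min_le_left _ _
    have h3 : ρ ≤ max (F.ρ (e k)) ρ := le_max_right _ _
    have h4 : th * (B : ℝ) ≤ th * max (F.s (e k) : ℝ) B :=
      mul_le_mul_of_nonneg_left (le_max_right _ _) hth.le
    linarith
  have q2 : ∀ k, (F.s (e k) : ℝ) ≤ B + m₂ := by
    intro k
    have h1 := hsz k
    unfold sz at h1
    have h2 : min (F.L (e k) : ℝ) A ≤ A := min_le_right _ _
    have h3 : ρ ≤ max (F.ρ (e k)) ρ := le_max_right _ _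
    have h4 : th * (F.s (e k) : ℝ) ≤ th * max (F.s (e k) : ℝ) B :=
      mul_le_mul_of_nonneg_left (le_max_left _ _) hth.le
    have h5 : th * (F.s (e k) : ℝ) ≤ th * (B + m₂) := by linarith
    exact le_of_mul_le_mul_left h5 hth
  have q3 : ∀ k, max (F.ρ (e k)) ρ - ρ ≤ τ := by
    intro k
    have h1 := hsz k
    unfold sz at h1
    have h2 : min (F.L (e k) : ℝ) A ≤ A := min_le_right _ _
    have h4 : th * (B : ℝ) ≤ th * max (F.s (e k) : ℝ) B :=
      mul_le_mul_of_nonneg_left (le_max_right _ _) hth.le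
    linarith
  have q1n : ∀ k, A ≤ F.L (e k) + m₁ := fun k => by exact_mod_cast q1 k
  have q2n : ∀ k, F.s (e k) ≤ B + m₂ := fun k => by exact_mod_cast q2 k
  have hex : ∀ k, ∃ u : ℤ, (u : ℚ) * 2 ^ A = e k * 3 ^ (B + m₂) * 2 ^ m₁ ∧
      (2 : ℤ) ^ (min (F.L (e k)) A + m₁ - A) ∣ u ∧
      (3 : ℤ) ^ (B + m₂ - max (F.s (e k)) B) ∣ u := fun k =>
    s8_int (e k) (F.L (e k)) (F.s (e k)) A m₁ B m₂ _ _ (hF.int _ (heI k)) (q1n k) (q2n k)
      (by have := q1n k; omega) (by have := q2n k; omega)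
  choose u hu1 hu2 hu3 using hex
  have ha : ∀ k, ((min (F.L (e k)) A + m₁ - A : ℕ) : ℝ) = min (F.L (e k) : ℝ) A + m₁ - A := by
    intro k
    have := q1n k
    rw [Nat.cast_sub (by omega)]
    push_cast
    rfl
  have hb : ∀ k, ((B + m₂ - max (F.s (e k)) B : ℕ) : ℝ) = B + m₂ - max (F.s (e k) : ℝ) B := by
    intro k
    have := q2n k
    rw [Nat.cast_sub (by omega)]
    push_cast
    rfl
  have hT : ((⌈τ * Real.log 2⌉₊ + 2 : ℕ) : ℝ) < τ * Real.log 2 + 3 := by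
    have := Nat.ceil_lt_add_one (mul_nonneg hτ0 hl2.le)
    push_cast
    linarith
  have hT' : τ * Real.log 2 + 2 ≤ ((⌈τ * Real.log 2⌉₊ + 2 : ℕ) : ℝ) := by
    have := Nat.le_ceil (τ * Real.log 2)
    push_cast
    linarith
  have key := hP u (fun k => min (F.L (e k)) A + m₁ - A)
    (fun k => B + m₂ - max (F.s (e k)) B)
    (fun k => (max (F.ρ (e k)) ρ - ρ + τ) * Real.log 2 + 4) ?_ hu2 hu3 ?_ ?_ ?_ ?_ ?_
  · have e1 : ∀ k, Real.log 2 * sz F (e k) A B ρ - 4 ≤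
        ((min (F.L (e k)) A + m₁ - A : ℕ) : ℝ) * Real.log 2 +
          ((B + m₂ - max (F.s (e k)) B : ℕ) : ℝ) * Real.log 3 -
            ((max (F.ρ (e k)) ρ - ρ + τ) * Real.log 2 + 4) := by
      intro k
      rw [ha, hb, ← hl]
      have e2 : (min (F.L (e k) : ℝ) A + m₁ - A) * Real.log 2 +
          (B + m₂ - max (F.s (e k) : ℝ) B) * (th * Real.log 2) -
            ((max (F.ρ (e k)) ρ - ρ + τ) * Real.log 2 + 4) =
          Real.log 2 * (sz F (e k) A B ρ + (m₁ - τ) + (th * m₂ - τ) +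
            (τ - A + ρ + th * B)) - 4 := by
        unfold sz
        ring
      rw [e2]
      have e3 : τ - A + ρ + th * B = 0 := by rw [hτ]; ring
      have e4 : sz F (e k) A B ρ ≤ sz F (e k) A B ρ + (m₁ - τ) + (th * m₂ - τ) +
            (τ - A + ρ + th * B) := by linarith
      linarith [mul_le_mul_of_nonneg_left e4 hl2.le]
    have e5 := (sum_le_sum fun k (_ : k ∈ (univ : Finset (Fin K))) => e1 k).trans key
    rw [sum_sub_distrib, ← mul_sum, sum_const, card_univ, Fintype.card_fin, nsmul_eq_mul] at e5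
    linarith
  · intro k l hkl
    apply he
    have h1 := hu1 k
    rw [hkl, hu1 l] at h1
    have h2 : (0 : ℚ) < 2 ^ m₁ := by positivity
    have h3 : (0 : ℚ) < 3 ^ (B + m₂) := by positivity
    exact (mul_right_cancel₀ h3.ne' (mul_right_cancel₀ h2.ne' h1)).symm
  · intro k
    have h1 : ((min (F.L (e k)) A + m₁ - A : ℕ) : ℝ) ≤ m₁ := by
      rw [ha]
      linarith [min_le_right (F.L (e k) : ℝ) A]
    have h2 : ((min (F.L (e k)) A + m₁ - A : ℕ) : ℝ) * Real.log 2 ≤ (τ + 1) * Real.log 2 :=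
      mul_le_mul_of_nonneg_right (h1.trans hm1'.le) hl2.le
    linarith
  · intro k
    have h1 : ((B + m₂ - max (F.s (e k)) B : ℕ) : ℝ) ≤ m₂ := by
      rw [hb]
      linarith [le_max_right (F.s (e k) : ℝ) B]
    have h2 : ((B + m₂ - max (F.s (e k)) B : ℕ) : ℝ) * Real.log 3 ≤ m₂ * Real.log 3 :=
      mul_le_mul_of_nonneg_right h1 (by rw [← hl]; positivity)
    have h3 : (m₂ : ℝ) * Real.log 3 ≤ (τ + th) * Real.log 2 := by
      rw [← hl]
      have := mul_le_mul_of_nonneg_right hm2'.le hl2.le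
      linarith
    linarith
  · intro k
    have h1 : 0 ≤ max (F.ρ (e k)) ρ - ρ := sub_nonneg.2 (le_max_right _ _)
    have h2 := mul_nonneg h1 hl2.le
    show ((⌈τ * Real.log 2⌉₊ + 2 : ℕ) : ℝ) ≤ (max (F.ρ (e k)) ρ - ρ + τ) * Real.log 2 + 4
    linarith
  · intro k
    have h2 := mul_le_mul_of_nonneg_right (q3 k) hl2.le
    have h3 := mul_nonneg hτ0 hl2.le
    show (max (F.ρ (e k)) ρ - ρ + τ) * Real.log 2 + 4 ≤
      3 * ((⌈τ * Real.log 2⌉₊ + 2 : ℕ) : ℝ)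
    linarith
  · intro k l
    have h1 : ((u k - u l : ℤ) : ℝ) * 2 ^ A =
        (((e k : ℚ) : ℝ) - ((e l : ℚ) : ℝ)) * 3 ^ (B + m₂) * 2 ^ m₁ := by
      have h2 := hu1 k
      have h3 := hu1 l
      have h4 : ((u k - u l : ℤ) : ℚ) * 2 ^ A = (e k - e l) * 3 ^ (B + m₂) * 2 ^ m₁ := by
        push_cast
        linear_combination h2 - h3
      exact_mod_cast congrArg (fun x : ℚ => (x : ℝ)) h4
    have h2A : (0 : ℝ) < 2 ^ A := by positivity
    have h5 : |((u k - u l : ℤ) : ℝ)| =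
        |((e k : ℚ) : ℝ) - ((e l : ℚ) : ℝ)| * 3 ^ (B + m₂) * 2 ^ m₁ / 2 ^ A := by
      rw [eq_div_iff h2A.ne']
      have := congrArg abs h1
      rw [abs_mul, abs_mul, abs_mul, abs_of_pos h2A,
        abs_of_pos (by positivity : (0 : ℝ) < 3 ^ (B + m₂)),
        abs_of_pos (by positivity : (0 : ℝ) < 2 ^ m₁)] at this
      exact this
    rw [h5]
    have h6 := hF.dist _ (heI k) _ (heI l)
    have h7 : |((e k : ℚ) : ℝ) - ((e l : ℚ) : ℝ)| * 3 ^ (B + m₂) * 2 ^ m₁ / 2 ^ A ≤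
        (2 : ℝ) ^ max (F.ρ (e k)) (F.ρ (e l)) * 3 ^ (B + m₂) * 2 ^ m₁ / 2 ^ A := by
      gcongr
    refine h7.trans ?_
    have h8 : (2 : ℝ) ^ max (F.ρ (e k)) (F.ρ (e l)) * 3 ^ (B + m₂) * 2 ^ m₁ / 2 ^ A =
        (2 : ℝ) ^ (max (F.ρ (e k)) (F.ρ (e l)) + th * ((B + m₂ : ℕ) : ℝ) + m₁ - A) := by
      rw [s8_three, ← Real.rpow_natCast 2 m₁, ← Real.rpow_natCast 2 A,
        ← Real.rpow_add (by norm_num), ← Real.rpow_add (by norm_num),
        ← Real.rpow_sub (by norm_num)]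
    rw [h8, Real.rpow_def_of_pos (by norm_num), Real.exp_le_exp]
    set X := max (F.ρ (e k)) (F.ρ (e l)) with hX
    set Y := max (max (F.ρ (e k)) ρ) (max (F.ρ (e l)) ρ) with hY
    have h9 : X ≤ Y := max_le_max (le_max_left _ _) (le_max_left _ _)
    have h10 : (Y - ρ + τ) * Real.log 2 + 4 ≤
        max ((max (F.ρ (e k)) ρ - ρ + τ) * Real.log 2 + 4)
          ((max (F.ρ (e l)) ρ - ρ + τ) * Real.log 2 + 4) := by
      rcases le_total (max (F.ρ (e k)) ρ) (max (F.ρ (e l)) ρ) with h | h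
      · rw [hY, max_eq_right h]
        exact le_max_right _ _
      · rw [hY, max_eq_left h]
        exact le_max_left _ _
    refine le_trans ?_ h10
    push_cast
    have h11 : X + th * ((B : ℝ) + m₂) + m₁ - A ≤ Y - ρ + τ + th + 1 := by
      rw [mul_add]
      linarith
    have h12 := mul_le_mul_of_nonneg_left h11 hl2.le
    have h13 : Real.log 2 * (Y - ρ + τ + th + 1) =
        (Y - ρ + τ) * Real.log 2 + Real.log 3 + Real.log 2 := by
      rw [← hl]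
      ring
    linarith

theorem s8 (h1 : PointsUnif) : SizeSum := by
  classical
  intro N ε hε
  have hl2 : 0 < Real.log 2 := Real.log_pos (by norm_num)
  choose T₀ hT₀ using fun K : ℕ => h1 K (ε / 2) (half_pos hε)
  set S := (range (N + 1)).sup T₀ with hS
  set C : ℝ := (3 * (1 + ε / 2) + 4 * N) * 2 / (ε * Real.log 2) with hC
  have hC0 : 0 ≤ C := by positivity
  refine ⟨S / Real.log 2 + C + 1, by positivity, ?_⟩
  intro F hF J hJ hJN A B ρ hτ
  set τ : ℝ := A - ρ - th * B with hτd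
  have hS0 : 0 ≤ (S : ℝ) / Real.log 2 := by positivity
  have hτ0 : 0 ≤ τ := by linarith
  set J' := J.filter fun i => 0 ≤ sz F i A B ρ with hJ'
  have hJ'N : #J' ≤ N := (card_filter_le _ _).trans hJN
  have e1 : ∑ i ∈ J, max 0 (sz F i A B ρ) = ∑ i ∈ J', sz F i A B ρ := by
    rw [hJ', sum_filter]
    refine sum_congr rfl fun i _ => ?_
    split_ifs with h
    · exact max_eq_right h
    · exact max_eq_left (not_le.1 h).le
  set e : Fin #J' → ℚ := fun k => (J'.equivFin.symm k : ℚ) with he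
  have hei : Function.Injective e := fun a b hab =>
    J'.equivFin.symm.injective (Subtype.ext hab)
  have heJ : ∀ k, e k ∈ J' := fun k => (J'.equivFin.symm k).2
  have e2 : ∑ i ∈ J', sz F i A B ρ = ∑ k, sz F (e k) A B ρ := by
    rw [← sum_coe_sort J' fun i => sz F i A B ρ]
    exact (Equiv.sum_comp J'.equivFin.symm fun i : J' => sz F (i : ℚ) A B ρ).symm
  have hTS : T₀ #J' ≤ ⌈τ * Real.log 2⌉₊ + 2 := by
    have h2 : T₀ #J' ≤ S := le_sup (f := T₀) (mem_range.2 (by omega))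
    have h3 : (S : ℝ) ≤ τ * Real.log 2 := by
      rw [← div_le_iff₀ hl2]
      linarith
    have h4 : (S : ℝ) ≤ ⌈τ * Real.log 2⌉₊ := h3.trans (Nat.le_ceil _)
    have h5 : S ≤ ⌈τ * Real.log 2⌉₊ := by exact_mod_cast h4
    omega
  have key := s8_fam F hF #J' e hei (fun k => hJ (mem_filter.1 (heJ k)).1) A B ρ τ (1 + ε / 2)
    hτd hτ0 (fun k => (mem_filter.1 (heJ k)).2)
    (hT₀ #J' (⌈τ * Real.log 2⌉₊ + 2) hTS)
  rw [e1, e2]
  have hT : ((⌈τ * Real.log 2⌉₊ + 2 : ℕ) : ℝ) < τ * Real.log 2 + 3 := by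
    have := Nat.ceil_lt_add_one (mul_nonneg hτ0 hl2.le)
    push_cast
    linarith
  have h6 : (1 + ε / 2) * ((⌈τ * Real.log 2⌉₊ + 2 : ℕ) : ℝ) ≤ (1 + ε / 2) * (τ * Real.log 2 + 3) :=
    mul_le_mul_of_nonneg_left hT.le (by positivity)
  have h7 : (#J' : ℝ) ≤ N := by exact_mod_cast hJ'N
  have h8 : C ≤ τ := by linarith
  rw [hC, div_le_iff₀ (by positivity)] at h8
  have h9 : Real.log 2 * ∑ k, sz F (e k) A B ρ ≤ Real.log 2 * ((1 + ε) * τ) := by nlinarith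
  exact le_of_mul_le_mul_left h9 hl2

end MPcc0Tri2
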