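import Pool.Agent.Lib.MP_cc0c1a_nt.Tri2.SpecT

/-!
# MP_cc0c1a_nt / Tri2, module T1: counting cells of a triangle
-/

set_option autoImplicit false

namespace MPcc0Tri2

open Finset MPcc0Tri

private lemma t1_mem (A B : ℕ) (ρ : ℝ) (p : ℕ × ℕ) :
    p ∈ tri A B ρ ↔ p.1 ≤ A ∧ B ≤ p.2 ∧ ρ + th * p.2 < p.1 := by
  have hth := th_pos
  unfold tri
  rw [mem_filter, mem_product, mem_range, mem_range]
  constructor
  · rintro ⟨⟨h1, -⟩, h2, h3⟩
    exact ⟨by omega, h2, h3⟩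
  · rintro ⟨h1, h2, h3⟩
    refine ⟨⟨by omega, ?_⟩, h2, h3⟩
    have h4 : (p.2 : ℝ) < ((A : ℝ) - ρ) / th := by
      rw [lt_div_iff₀ hth]
      have : (p.1 : ℝ) ≤ A := by exact_mod_cast h1
      linarith
    have h5 : (p.2 : ℝ) < (⌈((A : ℝ) - ρ) / th⌉₊ : ℕ) := h4.trans_le (Nat.le_ceil _)
    have h6 : p.2 < ⌈((A : ℝ) - ρ) / th⌉₊ := by exact_mod_cast h5
    omega

private lemma t1_sum (n : ℝ) (m : ℕ) :
    ∑ r ∈ range m, (n - r) = n * m - m * (m - 1) / 2 := by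
  induction m with
  | zero => simp
  | succ m ih =>
    rw [sum_range_succ, ih]
    push_cast
    ring

theorem t1 : TriCount := by
  refine ⟨t1_mem, ?_⟩
  intro A B ρ n h0 hn hn0
  have hth := th_pos
  have hth2 := th_lt
  have hrow : ∀ r : ℕ, (A : ℝ) - (ρ + th * ((B + r : ℕ) : ℝ)) = th * (n - r) := by
    intro r
    rw [hn]
    push_cast
    field_simp
    ring
  have hcard : ((tri A B ρ).card : ℝ) =
      ∑ r ∈ range ⌈n⌉₊, ((A - ⌊ρ + th * ((B + r : ℕ) : ℝ)⌋₊ : ℕ) : ℝ) := by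
    have e1 : (tri A B ρ).card = ∑ r ∈ range ⌈n⌉₊,
        ((tri A B ρ).filter fun p => p.2 - B = r).card := by
      refine card_eq_sum_card_fiberwise fun p hp => ?_
      have hp' := (t1_mem A B ρ p).1 hp
      rw [mem_coe, mem_range, Nat.lt_ceil]
      have h1 := hrow (p.2 - B)
      rw [Nat.add_sub_cancel' hp'.2.1] at h1
      have h2 : (p.1 : ℝ) ≤ A := by exact_mod_cast hp'.1
      have h3 : 0 < th * (n - ((p.2 - B : ℕ) : ℝ)) := by linarith [hp'.2.2]
      have h4 := (pos_iff_pos_of_mul_pos h3).1 hth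
      linarith
    rw [e1, Nat.cast_sum]
    refine sum_congr rfl fun r hr => ?_
    rw [mem_range, Nat.lt_ceil] at hr
    have e2 : ((tri A B ρ).filter fun p => p.2 - B = r) =
        (Ioc ⌊ρ + th * ((B + r : ℕ) : ℝ)⌋₊ A).image fun a => (a, B + r) := by
      ext p
      rw [mem_filter, t1_mem, mem_image]
      have hx : 0 ≤ ρ + th * ((B + r : ℕ) : ℝ) := by
        push_cast
        have : 0 ≤ th * (r : ℝ) := mul_nonneg hth.le (Nat.cast_nonneg _)
        linarith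
      constructor
      · rintro ⟨⟨h1, h2, h3⟩, h4⟩
        refine ⟨p.1, ?_, ?_⟩
        · rw [mem_Ioc, Nat.floor_lt hx]
          refine ⟨?_, h1⟩
          rw [← h4, Nat.add_sub_cancel' h2]
          exact h3
        · refine Prod.ext rfl ?_
          show B + r = p.2
          omega
      · rintro ⟨a, ha, rfl⟩
        rw [mem_Ioc, Nat.floor_lt hx] at ha
        exact ⟨⟨ha.2, Nat.le_add_right _ _, ha.1⟩, Nat.add_sub_cancel_left _ _⟩
    rw [e2, card_image_of_injective _ fun a b h => (Prod.ext_iff.1 h).1, Nat.card_Ioc]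
  have hb : ∀ r ∈ range ⌈n⌉₊, th * (n - r) ≤ ((A - ⌊ρ + th * ((B + r : ℕ) : ℝ)⌋₊ : ℕ) : ℝ) ∧
      ((A - ⌊ρ + th * ((B + r : ℕ) : ℝ)⌋₊ : ℕ) : ℝ) ≤ th * (n - r) + 1 := by
    intro r hr
    rw [mem_range, Nat.lt_ceil] at hr
    have hx : 0 ≤ ρ + th * ((B + r : ℕ) : ℝ) := by
      push_cast
      have : 0 ≤ th * (r : ℝ) := mul_nonneg hth.le (Nat.cast_nonneg _)
      linarith
    have h1 := hrow r
    have h2 : 0 < th * (n - r) := mul_pos hth (by linarith)
    have h3 := Nat.floor_le hx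
    have h4 := Nat.lt_floor_add_one (ρ + th * ((B + r : ℕ) : ℝ))
    have h5 : ⌊ρ + th * ((B + r : ℕ) : ℝ)⌋₊ ≤ A := by
      have : ((⌊ρ + th * ((B + r : ℕ) : ℝ)⌋₊ : ℕ) : ℝ) ≤ A := by linarith
      exact_mod_cast this
    rw [Nat.cast_sub h5]
    constructor <;> linarith
  set m := ⌈n⌉₊ with hm
  have hm1 : n ≤ m := Nat.le_ceil n
  have hm2 : (m : ℝ) < n + 1 := Nat.ceil_lt_add_one hn0
  have hd : ((m : ℝ) - n) ^ 2 ≤ m - n := by
    have a1 : 0 ≤ (m : ℝ) - n := by linarith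
    have a2 : (m : ℝ) - n ≤ 1 := by linarith
    nlinarith
  have hS := t1_sum n m
  rw [hcard]
  constructor
  · have h1 := sum_le_sum fun r hr => (hb r hr).1
    rw [← mul_sum, hS] at h1
    refine le_trans ?_ h1
    have : n ^ 2 / 2 ≤ n * m - m * (m - 1) / 2 := by nlinarith
    calc th * n ^ 2 / 2 = th * (n ^ 2 / 2) := by ring
      _ ≤ _ := mul_le_mul_of_nonneg_left this hth.le
  · have h1 := sum_le_sum fun r hr => (hb r hr).2
    rw [sum_add_distrib, ← mul_sum, hS, sum_const, card_range, nsmul_eq_mul, mul_one] at h1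
    refine h1.trans ?_
    have h2 : n * m - m * (m - 1) / 2 ≤ n ^ 2 / 2 + m / 2 := by nlinarith [sq_nonneg ((m : ℝ) - n)]
    have h3 : th * (n * m - m * (m - 1) / 2) ≤ th * (n ^ 2 / 2 + m / 2) :=
      mul_le_mul_of_nonneg_left h2 hth.le
    have h4 : th * ((m : ℝ) / 2) ≤ th * (n + 1) :=
      mul_le_mul_of_nonneg_left (by linarith) hth.le
    nlinarith

end MPcc0Tri2
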