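import Pool.Agent.Lib.MP_cc0c1a_nt.Tri2.SpecT

/-!
# MP_cc0c1a_nt / Tri2 / T10: all scales
-/

set_option autoImplicit false

namespace MPcc0Tri2

open Finset MPcc0Tri

/-- The number of points of the base of the special face. -/
private lemma t10_base (F : Faces ℚ) (g : ℚ) (V H M k : ℕ) (hC : Cls F g V H) (hM : 1 ≤ M)
    (hk : 32 * (M * 2 ^ k) ≤ H) :
    (H : ℝ) / 2 ≤ ((Base F (2 ^ k : ℕ) (M * 2 ^ k) V (2 * H - 8 * (M * 2 ^ k)) (4 * (M * 2 ^ k))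
      (H - 8 * (M * 2 ^ k))).card : ℝ) := by
  classical
  have hth := th_pos
  have hlt := th_lt
  have hn2 : 2 ^ k ≤ M * 2 ^ k := Nat.le_mul_of_pos_left _ hM
  have hk1 : 1 ≤ 2 ^ k := Nat.one_le_two_pow
  generalize hn : M * 2 ^ k = n at hk hn2 ⊢
  have hsub : (Icc (5 * n) (H - 11 * n)).image (fun b => (g, b)) ⊆
      Base F (2 ^ k : ℕ) n V (2 * H - 8 * n) (4 * n) (H - 8 * n) := by
    intro z hz
    obtain ⟨b, hb, rfl⟩ := mem_image.1 hz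
    rw [mem_Icc] at hb
    have hbH : b ≤ H := by omega
    have hbR : (b : ℝ) ≤ H := by exact_mod_cast hbH
    have h1 : th * (b : ℝ) ≤ th * H := mul_le_mul_of_nonneg_left hbR hth.le
    have h2 := hC.rg
    have h3 : (0 : ℝ) ≤ V := Nat.cast_nonneg _
    unfold Base
    rw [mem_filter, mem_product, mem_range]
    refine ⟨⟨?_, by simp only; omega⟩, ⟨?_, ?_⟩, by simp only; omega, by simp only; omega, ?_, ?_⟩
    · unfold Faces.big
      rw [mem_filter]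
      refine ⟨hC.mem, ?_⟩
      unfold Faces.lam
      rw [hC.sg, hC.Lg, Nat.cast_zero, sub_zero, le_div_iff₀ hth]
      have e1 : ((2 ^ k : ℕ) : ℝ) ≤ H := by exact_mod_cast (by omega : 2 ^ k ≤ H)
      have e2 : ((2 ^ k : ℕ) : ℝ) * th ≤ H * th := mul_le_mul_of_nonneg_right e1 hth.le
      linarith
    · rw [hC.sg]
      exact Nat.zero_le _
    · rw [hC.Lg]
      simp only
      linarith
    · rw [hC.Lg]
    · rw [hC.Lg]
      have e1 : ⌈th * (n : ℝ)⌉₊ ≤ 2 * n := by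
        rw [Nat.ceil_le]
        push_cast
        exact mul_le_mul_of_nonneg_right hlt.le (Nat.cast_nonneg _)
      omega
  have h1 := card_le_card hsub
  rw [card_image_of_injective _ (fun a b h => (Prod.mk.inj h).2), Nat.card_Icc] at h1
  have h2 : H ≤ 2 * (Base F (2 ^ k : ℕ) n V (2 * H - 8 * n) (4 * n) (H - 8 * n)).card := by
    omega
  have h3 : (H : ℝ) ≤ 2 * ((Base F (2 ^ k : ℕ) n V (2 * H - 8 * n) (4 * n)
      (H - 8 * n)).card : ℝ) := by exact_mod_cast h2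
  linarith

/-- The growth of the sums. -/
private lemma t10_grow (z : ℕ → ℝ) (U K ε : ℝ) (m₀ k₁ : ℕ) (hU : 0 ≤ U) (hε : 0 < ε)
    (hK : 0 < K) (hKe : 1 + 5 / K = 2 ^ ε)
    (h : ∀ k, m₀ ≤ k → k ≤ k₁ → K * 2 ^ k * z k ≤ U + ∑ m ∈ Ico m₀ k, 5 * (2 : ℝ) ^ m * z m)
    (hm : m₀ ≤ k₁) : K * 2 ^ k₁ * z k₁ ≤ ((2 : ℝ) ^ k₁) ^ ε * U := by
  have key : ∀ j, m₀ + j ≤ k₁ →
      U + ∑ m ∈ Ico m₀ (m₀ + j), 5 * (2 : ℝ) ^ m * z m ≤ ((2 : ℝ) ^ ε) ^ j * U := by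
    intro j
    induction j with
    | zero =>
      intro _
      simp
    | succ j ih =>
      intro hj
      have h1 := ih (by omega)
      have h2 := h (m₀ + j) (by omega) (by omega)
      rw [← add_assoc, sum_Ico_succ_top (by omega)]
      have h3 : 5 * (2 : ℝ) ^ (m₀ + j) * z (m₀ + j) ≤
          5 / K * (U + ∑ m ∈ Ico m₀ (m₀ + j), 5 * (2 : ℝ) ^ m * z m) := by
        calc 5 * (2 : ℝ) ^ (m₀ + j) * z (m₀ + j) =
            5 / K * (K * 2 ^ (m₀ + j) * z (m₀ + j)) := by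
              field_simp
          _ ≤ _ := mul_le_mul_of_nonneg_left h2 (by positivity)
      calc U + (∑ m ∈ Ico m₀ (m₀ + j), 5 * (2 : ℝ) ^ m * z m +
            5 * (2 : ℝ) ^ (m₀ + j) * z (m₀ + j)) ≤
          (1 + 5 / K) * (U + ∑ m ∈ Ico m₀ (m₀ + j), 5 * (2 : ℝ) ^ m * z m) := by linarith
        _ ≤ (1 + 5 / K) * (((2 : ℝ) ^ ε) ^ j * U) :=
          mul_le_mul_of_nonneg_left h1 (by positivity)
        _ = ((2 : ℝ) ^ ε) ^ (j + 1) * U := by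
          rw [hKe]
          ring
  obtain ⟨j, rfl⟩ := Nat.exists_eq_add_of_le hm
  refine (h _ hm le_rfl).trans ((key j le_rfl).trans ?_)
  apply mul_le_mul_of_nonneg_right _ hU
  have h1 : (1 : ℝ) ≤ 2 ^ ε := Real.one_le_rpow (by norm_num) hε.le
  calc ((2 : ℝ) ^ ε) ^ j ≤ ((2 : ℝ) ^ ε) ^ (m₀ + j) := pow_le_pow_right₀ h1 (by omega)
    _ = ((2 : ℝ) ^ (m₀ + j)) ^ ε := by
      rw [← Real.rpow_natCast, ← Real.rpow_mul (by norm_num), mul_comm, Real.rpow_mul (by norm_num),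
        Real.rpow_natCast]

private lemma t10_main (h1 : OneScale) (h2 : Split) (ε : ℝ) (hε : 0 < ε) (hε1 : ε ≤ 1 / 2) :
    ∃ w : ℕ, 0 < w ∧ ∃ c : ℝ, 0 < c ∧ ∃ H₀ : ℕ, 1 ≤ H₀ ∧ ∀ H : ℕ, H₀ ≤ H →
    ∀ (F : Faces ℚ) (g : ℚ) (V : ℕ), Cls F g V H → 20 * H ≤ V →
      c * (H : ℝ) ^ (2 - ε) ≤ ((Unc2 F w V (2 * H) 0 H).card : ℝ) := by
  have h2e : (1 : ℝ) < 2 ^ ε := Real.one_lt_rpow (by norm_num) hε
  set K : ℝ := 5 / (2 ^ ε - 1) with hK
  have hK0 : 0 < K := div_pos (by norm_num) (by linarith)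
  have hKe : 1 + 5 / K = 2 ^ ε := by
    rw [hK]
    have : (2 : ℝ) ^ ε - 1 ≠ 0 := by linarith
    field_simp
    ring
  obtain ⟨M, w₀, hM, hw₀, hone⟩ := h1 K hK0
  have hMR : (0 : ℝ) < M := by exact_mod_cast hM
  refine ⟨2 ^ w₀, by positivity, K / 2 * (1 / (64 * M)) ^ (1 - ε), by positivity,
    32 * M * 2 ^ w₀, ?_, ?_⟩
  · have : 1 ≤ 2 ^ w₀ := Nat.one_le_two_pow
    nlinarith
  intro H hH F g V hC hV
  have hHpos : 0 < H := lt_of_lt_of_le (by positivity) hH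
  have h32 : 0 < 32 * M := by omega
  have hdiv : 2 ^ w₀ ≤ H / (32 * M) := by
    rw [Nat.le_div_iff_mul_le h32]
    calc 2 ^ w₀ * (32 * M) = 32 * M * 2 ^ w₀ := by ring
      _ ≤ H := hH
  have hne : H / (32 * M) ≠ 0 := by
    have : 0 < 2 ^ w₀ := by positivity
    omega
  set k₁ : ℕ := Nat.log 2 (H / (32 * M)) with hk₁
  have hk1 : 2 ^ k₁ ≤ H / (32 * M) := Nat.pow_log_le_self 2 hne
  have hk2 : H / (32 * M) < 2 ^ (k₁ + 1) := Nat.lt_pow_succ_log_self (by norm_num) _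
  have hk0 : w₀ ≤ k₁ := (Nat.le_log_iff_pow_le (by norm_num) hne).2 hdiv
  have hk32 : 32 * (M * 2 ^ k₁) ≤ H := by
    rw [Nat.le_div_iff_mul_le h32] at hk1
    calc 32 * (M * 2 ^ k₁) = 2 ^ k₁ * (32 * M) := by ring
      _ ≤ H := hk1
  have hk64 : H < 64 * M * 2 ^ k₁ := by
    rw [Nat.div_lt_iff_lt_mul h32] at hk2
    calc H < 2 ^ (k₁ + 1) * (32 * M) := hk2
      _ = 64 * M * 2 ^ k₁ := by ring
  set U : ℝ := ((Unc2 F (2 ^ w₀ : ℕ) V (2 * H) 0 H).card : ℝ) with hU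
  have hU0 : 0 ≤ U := Nat.cast_nonneg _
  have hgr := t10_grow (fun k => ((Base F (2 ^ k : ℕ) (M * 2 ^ k) V (2 * H - 8 * (M * 2 ^ k))
    (4 * (M * 2 ^ k)) (H - 8 * (M * 2 ^ k))).card : ℝ)) U K ε w₀ k₁ hU0 hε hK0 hKe (by
      intro k hk hkk
      have hpow : 2 ^ k ≤ 2 ^ k₁ := Nat.pow_le_pow_right (by norm_num) hkk
      have h32k : 32 * (M * 2 ^ k) ≤ H :=
        (Nat.mul_le_mul_left _ (Nat.mul_le_mul_left _ hpow)).trans hk32
      have hww : w₀ ≤ 2 ^ k := (Nat.lt_two_pow_self).le.trans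
        (Nat.pow_le_pow_right (by norm_num) hk)
      have e1 := hone (2 ^ k) hww F g V H (2 * H - 8 * (M * 2 ^ k)) (4 * (M * 2 ^ k))
        (H - 8 * (M * 2 ^ k)) hC (by omega) (by omega) (Nat.sub_le _ _)
      have e2 := h2 F V H M w₀ k hM h32k hk
      have e3 : ((2 ^ k : ℕ) : ℝ) = 2 ^ k := by push_cast; rfl
      refine le_trans ?_ (e1.trans e2)
      rw [e3]) hk0
  have hbase := t10_base F g V H M k₁ hC hM hk32
  set Z : ℝ := ((Base F (2 ^ k₁ : ℕ) (M * 2 ^ k₁) V (2 * H - 8 * (M * 2 ^ k₁))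
    (4 * (M * 2 ^ k₁)) (H - 8 * (M * 2 ^ k₁))).card : ℝ) with hZ
  set q : ℝ := (2 : ℝ) ^ k₁ with hq
  have hq0 : 0 < q := by positivity
  have hqH : (H : ℝ) / (64 * M) ≤ q := by
    rw [div_le_iff₀ (by positivity)]
    have : (H : ℝ) < 64 * M * 2 ^ k₁ := by exact_mod_cast hk64
    rw [hq]
    linarith
  have hqq : q = q ^ (1 - ε) * q ^ ε := by
    rw [← Real.rpow_add hq0]
    simp
  have hqe0 : 0 < q ^ ε := by positivity
  have h3 : K * q ^ (1 - ε) * Z ≤ U := by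
    have e1 : q ^ ε * (K * q ^ (1 - ε) * Z) ≤ q ^ ε * U := by
      calc q ^ ε * (K * q ^ (1 - ε) * Z) = K * (q ^ (1 - ε) * q ^ ε) * Z := by ring
        _ = K * q * Z := by rw [← hqq]
        _ ≤ q ^ ε * U := hgr
    exact le_of_mul_le_mul_left e1 hqe0
  have hHR : (0 : ℝ) < H := by exact_mod_cast hHpos
  have h4 : ((H : ℝ) / (64 * M)) ^ (1 - ε) ≤ q ^ (1 - ε) :=
    Real.rpow_le_rpow (by positivity) hqH (by linarith)
  have h5 : ((H : ℝ) / (64 * M)) ^ (1 - ε) = (1 / (64 * M)) ^ (1 - ε) * (H : ℝ) ^ (1 - ε) := by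
    rw [← Real.mul_rpow (by positivity) hHR.le]
    congr 1
    ring
  have h6 : (H : ℝ) ^ (2 - ε) = (H : ℝ) ^ (1 - ε) * H := by
    rw [show (2 - ε : ℝ) = (1 - ε) + 1 by ring, Real.rpow_add hHR, Real.rpow_one]
  calc K / 2 * (1 / (64 * M)) ^ (1 - ε) * (H : ℝ) ^ (2 - ε) =
      K * ((1 / (64 * M)) ^ (1 - ε) * (H : ℝ) ^ (1 - ε)) * (H / 2) := by
        rw [h6]
        ring
    _ = K * ((H : ℝ) / (64 * M)) ^ (1 - ε) * (H / 2) := by rw [h5]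
    _ ≤ K * q ^ (1 - ε) * (H / 2) := by
        apply mul_le_mul_of_nonneg_right _ (by positivity)
        exact mul_le_mul_of_nonneg_left h4 hK0.le
    _ ≤ K * q ^ (1 - ε) * Z := mul_le_mul_of_nonneg_left hbase (by positivity)
    _ ≤ U := h3

theorem t10 (h1 : OneScale) (h2 : Split) : GeoB := by
  intro ε hε
  obtain ⟨w, hw, c, hc, H₀, hH₀, h⟩ := t10_main h1 h2 (min ε (1 / 2)) (lt_min hε (by norm_num))
    (min_le_right _ _)
  refine ⟨w, hw, c, hc, H₀, fun H hH F g V hC hV => ?_⟩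
  refine le_trans ?_ (h H hH F g V hC hV)
  apply mul_le_mul_of_nonneg_left _ hc.le
  apply Real.rpow_le_rpow_of_exponent_le
  · exact_mod_cast hH₀.trans hH
  · linarith [min_le_left ε (1 / 2)]

end MPcc0Tri2
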