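import Pool.Agent.Lib.MP_cc0c1a_nt.Tri2.SpecT

/-!
# MP_cc0c1a_nt / Tri2: T2 (the cells of a face in a triangle)
-/

set_option autoImplicit false

namespace MPcc0Tri2

open Finset MPcc0Tri

theorem t2 (h1 : TriCount) : FaceTri := by
  intro F i A B ρ S hρ hS
  obtain ⟨c1, c2⟩ := h1
  have hth : 0 < th := th_pos
  have hS' : S = tri (min (F.L i) A) (max (F.s i) B) (max (F.ρ i) ρ) := by
    ext p
    rw [hS p, c1, c1]
    unfold Faces.Cov
    have e1 : max (F.ρ i) ρ + th * p.2 < p.1 ↔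
        F.ρ i + th * p.2 < p.1 ∧ ρ + th * p.2 < p.1 := by
      rcases le_total (F.ρ i) ρ with h | h
      · rw [max_eq_right h]
        exact ⟨fun h' => ⟨by linarith, h'⟩, fun h' => h'.2⟩
      · rw [max_eq_left h]
        exact ⟨fun h' => ⟨h', by linarith⟩, fun h' => h'.1⟩
    rw [e1, le_min_iff, max_le_iff]
    tauto
  have hL : ((min (F.L i) A : ℕ) : ℝ) = min (F.L i : ℝ) A := Nat.cast_min _ _
  have hB : ((max (F.s i) B : ℕ) : ℝ) = max (F.s i : ℝ) B := Nat.cast_max _ _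
  have hn : sz F i A B ρ / th =
      (((min (F.L i) A : ℕ) : ℝ) - max (F.ρ i) ρ) / th - ((max (F.s i) B : ℕ) : ℝ) := by
    unfold sz
    rw [hL, hB]
    field_simp
  have h0 : 0 ≤ max (F.ρ i) ρ + th * ((max (F.s i) B : ℕ) : ℝ) := by
    have e1 : ρ ≤ max (F.ρ i) ρ := le_max_right _ _
    have e2 : (B : ℝ) ≤ ((max (F.s i) B : ℕ) : ℝ) := by exact_mod_cast le_max_right _ _
    have e3 := mul_le_mul_of_nonneg_left e2 hth.le
    linarith
  have hneg : sz F i A B ρ < 0 → S = ∅ := by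
    intro hs
    rw [Finset.eq_empty_iff_forall_notMem]
    intro p hp
    rw [hS', c1] at hp
    obtain ⟨g1, g2, g3⟩ := hp
    have g1' : (p.1 : ℝ) ≤ ((min (F.L i) A : ℕ) : ℝ) := by exact_mod_cast g1
    have g2' : ((max (F.s i) B : ℕ) : ℝ) ≤ (p.2 : ℝ) := by exact_mod_cast g2
    have g4 := mul_le_mul_of_nonneg_left g2' hth.le
    have e : sz F i A B ρ = ((min (F.L i) A : ℕ) : ℝ) - max (F.ρ i) ρ -
        th * ((max (F.s i) B : ℕ) : ℝ) := by
      unfold sz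
      rw [hL, hB]
    linarith
  have hpos : 0 ≤ sz F i A B ρ → th * (sz F i A B ρ / th) ^ 2 / 2 ≤ (S.card : ℝ) ∧
      (S.card : ℝ) ≤ th * (sz F i A B ρ / th) ^ 2 / 2 + (th + 2) * (sz F i A B ρ / th + 1) := by
    intro hs
    rw [hS']
    exact c2 _ _ _ (sz F i A B ρ / th) h0 hn (div_nonneg hs hth.le)
  refine ⟨?_, hneg, fun hs => (hpos hs).1⟩
  rcases lt_or_ge (sz F i A B ρ) 0 with hs | hs
  · rw [hneg hs, max_eq_left hs.le, Finset.card_empty, Nat.cast_zero, zero_div]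
    nlinarith
  · rw [max_eq_right hs]
    exact (hpos hs).2

end MPcc0Tri2
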