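import Pool.Agent.Lib.MP_cc0c1a_nt.Tri2.SpecT

/-!
# MP_cc0c1a_nt / Tri2 / T3: a large face which meets a triangle has large size in a larger triangle
-/

set_option autoImplicit false

namespace MPcc0Tri2

open Finset MPcc0Tri

theorem t3 : Grow := by
  intro F i A B w ρ hw hwB hsz
  have ht := th_pos
  unfold sz at hsz ⊢
  have hc : th * w ≤ (⌈th * w⌉₊ : ℝ) := Nat.le_ceil _
  have hc0 : (0 : ℝ) ≤ th * w := mul_nonneg ht.le (Nat.cast_nonneg _)
  have hA : ((A + ⌈th * w⌉₊ : ℕ) : ℝ) = (A : ℝ) + (⌈th * w⌉₊ : ℝ) := by push_cast; ring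
  have hB : ((B - w : ℕ) : ℝ) = (B : ℝ) - w := by rw [Nat.cast_sub hwB]
  rw [hA, hB]
  set c : ℝ := (⌈th * w⌉₊ : ℝ) with hcdef
  have hL1 : min (F.L i : ℝ) A ≤ min (F.L i : ℝ) ((A : ℝ) + c) :=
    min_le_min le_rfl (by linarith)
  have hR1 : max (F.ρ i) (ρ - th * w) ≤ max (F.ρ i) ρ := max_le_max le_rfl (by linarith)
  have hw0 : (0 : ℝ) ≤ w := Nat.cast_nonneg _
  have hS1 : max (F.s i : ℝ) ((B : ℝ) - w) ≤ max (F.s i : ℝ) B := max_le_max le_rfl (by linarith)
  have hS1' : th * max (F.s i : ℝ) ((B : ℝ) - w) ≤ th * max (F.s i : ℝ) B :=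
    mul_le_mul_of_nonneg_left hS1 ht.le
  by_cases h1 : (F.L i : ℝ) ≤ (A : ℝ) + c
  · by_cases h2 : ρ - th * w ≤ F.ρ i
    · by_cases h3 : (B : ℝ) - w ≤ F.s i
      · rw [min_eq_left h1, max_eq_left h2, max_eq_left h3]
        unfold Faces.lam at hw
        have h4 : th * w ≤ th * (((F.L i : ℝ) - F.ρ i) / th - F.s i) :=
          mul_le_mul_of_nonneg_left hw ht.le
        have h5 : th * (((F.L i : ℝ) - F.ρ i) / th - F.s i) =
            (F.L i : ℝ) - F.ρ i - th * F.s i := by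
          have := ht.ne'
          field_simp
        linarith
      · push Not at h3
        have h4 : max (F.s i : ℝ) ((B : ℝ) - w) = (B : ℝ) - w := max_eq_right h3.le
        have h5 : (B : ℝ) ≤ max (F.s i : ℝ) B := le_max_right _ _
        have h6 : th * ((B : ℝ) - w) ≤ th * (max (F.s i : ℝ) B - w) :=
          mul_le_mul_of_nonneg_left (by linarith) ht.le
        rw [mul_sub th (max (F.s i : ℝ) B)] at h6
        rw [h4]
        linarith
    · push Not at h2
      have h4 : max (F.ρ i) (ρ - th * w) = ρ - th * w := max_eq_right h2.le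
      have h5 : ρ ≤ max (F.ρ i) ρ := le_max_right _ _
      rw [h4]
      linarith
  · push Not at h1
    have h4 : min (F.L i : ℝ) ((A : ℝ) + c) = (A : ℝ) + c := min_eq_right h1.le
    have h5 : min (F.L i : ℝ) A ≤ A := min_le_right _ _
    rw [h4]
    linarith

end MPcc0Tri2
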