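import Pool.Agent.Lib.MP_cc0c1a_nt.Tri2.SpecT

/-!
# MP_cc0c1a_nt / Tri2 / T4: the number of large faces which meet a triangle
-/

set_option autoImplicit false

namespace MPcc0Tri2

open Finset MPcc0Tri

private lemma t4_one : 1 < th := by
  unfold th
  rw [Real.lt_logb_iff_rpow_lt (by norm_num) (by norm_num)]
  norm_num

theorem t4 (h1 : TriCount) (h2 : FaceTri) (h3 : Grow) : NumBound := by
  classical
  intro F A B w ρ n J hD hw hwB hρ hn hn0 hJ hJ2
  have hth := th_pos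
  have hone := t4_one
  set A' : ℕ := A + ⌈th * w⌉₊ with hA'
  set B' : ℕ := B - w with hB'
  set ρ' : ℝ := ρ - th * w with hρ'
  have hBc : ((B' : ℕ) : ℝ) = (B : ℝ) - w := by
    rw [hB']
    exact Nat.cast_sub hwB
  have hAc : ((A' : ℕ) : ℝ) = (A : ℝ) + (⌈th * w⌉₊ : ℝ) := by
    rw [hA']
    push_cast
    ring
  have hρB : 0 ≤ ρ' + th * B' := by
    rw [hBc]
    exact hρ
  have hceil1 : th * w ≤ (⌈th * w⌉₊ : ℝ) := Nat.le_ceil _
  have hceil2 : (⌈th * w⌉₊ : ℝ) < th * w + 1 := Nat.ceil_lt_add_one (by positivity)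
  set n' : ℝ := ((A' : ℝ) - ρ') / th - B' with hn'
  have hn'e : n' = n + (⌈th * w⌉₊ : ℝ) / th + 2 * w := by
    rw [hn', hAc, hBc, hρ', hn]
    field_simp
    ring
  have hc1 : (⌈th * w⌉₊ : ℝ) / th ≤ w + 1 := by
    rw [div_le_iff₀ hth]
    nlinarith
  have hc0 : 0 ≤ (⌈th * w⌉₊ : ℝ) / th := by positivity
  have hw1 : (1 : ℝ) ≤ w := by exact_mod_cast hw
  have hn'0 : 0 ≤ n' := by
    rw [hn'e]
    positivity
  have hn'1 : n' ≤ n + 3 * w + 1 := by
    rw [hn'e]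
    linarith
  obtain ⟨-, hcard⟩ := h1.2 A' B' ρ' n' hρB hn' hn'0
  -- the cells of the faces
  let S : ℚ → Finset (ℕ × ℕ) := fun i => (tri A' B' ρ').filter fun p => F.Cov th i p.1 p.2
  have hS : ∀ i ∈ J, th * (w : ℝ) ^ 2 / 2 ≤ ((S i).card : ℝ) := by
    intro i hi
    obtain ⟨hl, hz⟩ := hJ2 i hi
    have hg := h3 F i A B w ρ hl hwB hz
    have hg0 : 0 ≤ sz F i A' B' ρ' := le_trans (by positivity) hg
    have h5 := (h2 F i A' B' ρ' (S i) hρB (by
      intro p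
      simp only [S, mem_filter])).2.2 hg0
    have h6 : (w : ℝ) ≤ sz F i A' B' ρ' / th := by
      rw [le_div_iff₀ hth]
      linarith
    have h7 : (w : ℝ) ^ 2 ≤ (sz F i A' B' ρ' / th) ^ 2 := pow_le_pow_left₀ (by positivity) h6 2
    have h8 : th * (w : ℝ) ^ 2 ≤ th * (sz F i A' B' ρ' / th) ^ 2 :=
      mul_le_mul_of_nonneg_left h7 hth.le
    linarith
  have hdisj : ∀ i ∈ J, ∀ j ∈ J, i ≠ j → Disjoint (S i) (S j) := by
    intro i hi j hj hij
    rw [disjoint_left]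
    intro p hp hp'
    simp only [S, mem_filter] at hp hp'
    obtain ⟨-, c1, c2, c3⟩ := hp
    obtain ⟨-, d1, d2, d3⟩ := hp'
    have c3' : (p.1 : ℝ) ≤ F.L i := by exact_mod_cast c3
    have d3' : (p.1 : ℝ) ≤ F.L j := by exact_mod_cast d3
    rcases hD i (hJ hi) j (hJ hj) hij p.2 ⟨c1, by linarith⟩ ⟨d1, by linarith⟩ with h | h
    · linarith
    · linarith
  have hsum : (J.card : ℝ) * (th * (w : ℝ) ^ 2 / 2) ≤ ((tri A' B' ρ').card : ℝ) := by
    have h5 : (J.biUnion S).card = ∑ i ∈ J, (S i).card :=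
      card_biUnion (fun i hi j hj hij => hdisj i hi j hj hij)
    have h6 : (J.biUnion S).card ≤ (tri A' B' ρ').card := by
      apply card_le_card
      intro p hp
      obtain ⟨i, -, hi⟩ := mem_biUnion.1 hp
      exact (mem_filter.1 hi).1
    have h7 : (J.card : ℝ) * (th * (w : ℝ) ^ 2 / 2) ≤ ∑ i ∈ J, ((S i).card : ℝ) := by
      rw [← nsmul_eq_mul]
      exact card_nsmul_le_sum _ _ _ hS
    have h8 : (∑ i ∈ J, ((S i).card : ℝ)) ≤ ((tri A' B' ρ').card : ℝ) := by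
      rw [← Nat.cast_sum, ← h5]
      exact_mod_cast h6
    linarith
  set m : ℝ := n + 3 * w + 1 with hm
  have hm4 : 4 ≤ m := by
    rw [hm]
    linarith
  have hJ0 : (0 : ℝ) ≤ J.card := Nat.cast_nonneg _
  have h9 : (J.card : ℝ) * (th * (w : ℝ) ^ 2 / 2) ≤ th * m ^ 2 / 2 + (th + 2) * (m + 1) := by
    have e1 : n' ^ 2 ≤ m ^ 2 := pow_le_pow_left₀ hn'0 hn'1 2
    have e2 : th * n' ^ 2 ≤ th * m ^ 2 := mul_le_mul_of_nonneg_left e1 hth.le
    have e3 : (th + 2) * (n' + 1) ≤ (th + 2) * (m + 1) :=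
      mul_le_mul_of_nonneg_left (by linarith) (by linarith)
    linarith
  have h10 : (th + 2) * (m + 1) ≤ 3 * th * (m + 1) :=
    mul_le_mul_of_nonneg_right (by linarith) (by linarith)
  have h11 : th * ((J.card : ℝ) * (w : ℝ) ^ 2) ≤ th * (m ^ 2 + 6 * (m + 1)) := by
    nlinarith
  have h12 := le_of_mul_le_mul_left h11 hth
  nlinarith

end MPcc0Tri2
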