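import Pool.Agent.Lib.MP_cc0c1a_nt.Tri2.SpecT

/-!
# MP_cc0c1a_nt / Tri2 / T5: no face fills the triangle around a point of a base
-/

set_option autoImplicit false

namespace MPcc0Tri2

open Finset MPcc0Tri

theorem t5 : BasePoint := by
  intro F i j b n hD hi hj hal hnb
  have hth := th_pos
  have hc : th * n ≤ (⌈th * n⌉₊ : ℝ) := Nat.le_ceil _
  have hA : ((F.L i + ⌈th * n⌉₊ : ℕ) : ℝ) = (F.L i : ℝ) + (⌈th * n⌉₊ : ℝ) := by push_cast; ring
  have hB : ((b - n : ℕ) : ℝ) = (b : ℝ) - n := Nat.cast_sub hnb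
  unfold sz
  rw [hA, hB]
  have hn0 : 0 ≤ th * n := by positivity
  set c : ℝ := (⌈th * n⌉₊ : ℝ) with hcdef
  have m1 : min (F.L j : ℝ) ((F.L i : ℝ) + c) ≤ F.L j := min_le_left _ _
  have m2 : min (F.L j : ℝ) ((F.L i : ℝ) + c) ≤ (F.L i : ℝ) + c := min_le_right _ _
  have m3 : F.ρ j ≤ max (F.ρ j) (F.L i - th * b - th * n) := le_max_left _ _
  have m4 : (F.L i - th * b - th * n : ℝ) ≤ max (F.ρ j) (F.L i - th * b - th * n) :=
    le_max_right _ _
  have m5 : th * (F.s j : ℝ) ≤ th * max (F.s j : ℝ) (b - n) :=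
    mul_le_mul_of_nonneg_left (le_max_left _ _) hth.le
  have m6 : th * ((b : ℝ) - n) ≤ th * max (F.s j : ℝ) (b - n) :=
    mul_le_mul_of_nonneg_left (le_max_right _ _) hth.le
  by_cases hij : i = j
  · subst hij
    linarith
  by_cases hal' : F.Alive th j b
  · rcases hD i hi j hj hij b hal hal' with h | h
    · have : th * ((b : ℝ) - n) = th * b - th * n := by ring
      linarith
    · have := hal.2
      linarith
  · have hal2 : b < F.s j ∨ (F.L j : ℝ) ≤ F.ρ j + th * b := by
      by_contra hcon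
      push Not at hcon
      exact hal' ⟨hcon.1, hcon.2⟩
    rcases hal2 with h | h
    · have h1 : th * (b : ℝ) ≤ th * (F.s j : ℝ) := by
        apply mul_le_mul_of_nonneg_left _ hth.le
        exact_mod_cast h.le
      have : th * ((b : ℝ) - n) = th * b - th * n := by ring
      linarith
    · have : th * ((b : ℝ) - n) = th * b - th * n := by ring
      linarith

end MPcc0Tri2
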