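import Pool.Agent.Lib.MP_cc0c1a_nt.Tri2.SpecT

/-!
# MP_cc0c1a_nt / Tri2 / T7: multiplicity
-/

set_option autoImplicit false

namespace MPcc0Tri2

open Finset MPcc0Tri

private lemma t7_one : 1 < th := by
  unfold th
  rw [Real.lt_logb_iff_rpow_lt (by norm_num) (by norm_num)]
  norm_num

/-- The number of integers in a half open interval. -/
private lemma t7_count (S : Finset ℕ) (m : ℕ) (y : ℝ) (h : ∀ b ∈ S, m ≤ b ∧ (b : ℝ) < y)
    (hS : S.Nonempty) : (S.card : ℝ) ≤ y - m + 1 ∧ (m : ℝ) < y := by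
  obtain ⟨b₀, hb₀⟩ := hS
  have hmy : (m : ℝ) < y := by
    have := h b₀ hb₀
    have h1 : (m : ℝ) ≤ b₀ := by exact_mod_cast this.1
    linarith [this.2]
  refine ⟨?_, hmy⟩
  have hsub : S ⊆ Ico m ⌈y⌉₊ := by
    intro b hb
    rw [mem_Ico]
    exact ⟨(h b hb).1, Nat.lt_ceil.2 (h b hb).2⟩
  have h1 := card_le_card hsub
  rw [Nat.card_Ico] at h1
  have hy0 : 0 ≤ y := le_trans (Nat.cast_nonneg m) hmy.le
  have h2 : (⌈y⌉₊ : ℝ) < y + 1 := Nat.ceil_lt_add_one hy0
  have h3 : m ≤ ⌈y⌉₊ := by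
    have := Nat.lt_ceil.2 hmy
    omega
  have h4 : (S.card : ℝ) ≤ (⌈y⌉₊ : ℝ) - m := by
    rw [← Nat.cast_sub h3]
    exact_mod_cast h1
  linarith

theorem t7 (h1 : SizeSum) (h2 : TriCount) (h3 : NumBound) : Multi := by
  classical
  intro M hM
  have hth := th_pos
  have hone := t7_one
  have hlt := th_lt
  obtain ⟨τ₀, hτ₀, hsz⟩ := h1 (18 * (6 * M + 7) ^ 2) (1 / 10) (by norm_num)
  refine ⟨max (18 * (6 * M + 7) ^ 2 + 4) (⌈τ₀⌉₊ + 1), ?_⟩
  intro w hw F a b Z hAri hDis hb ha hZ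
  have hw1 : 18 * (6 * M + 7) ^ 2 + 4 ≤ w := (le_max_left _ _).trans hw
  have hw2 : ⌈τ₀⌉₊ + 1 ≤ w := (le_max_right _ _).trans hw
  set n : ℕ := M * w with hn
  have hnw : w ≤ n := by
    rw [hn]
    exact Nat.le_mul_of_pos_left w hM
  have hwR : (1 : ℝ) ≤ w := by
    have : 1 ≤ w := by omega
    exact_mod_cast this
  have hnR : (w : ℝ) ≤ n := by exact_mod_cast hnw
  set A : ℕ := a + ⌈2 * th * n⌉₊ with hA
  set B : ℕ := b - 2 * n with hB
  set ρ : ℝ := a - th * n - 2 - th * (b + n) with hρ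
  have hBc : (B : ℝ) = (b : ℝ) - 2 * n := by
    rw [hB, Nat.cast_sub (by omega)]
    push_cast
    ring
  have hAc : (A : ℝ) = (a : ℝ) + (⌈2 * th * n⌉₊ : ℝ) := by
    rw [hA]
    push_cast
    ring
  have hceil1 : 2 * th * n ≤ (⌈2 * th * n⌉₊ : ℝ) := Nat.le_ceil _
  have hceil2 : (⌈2 * th * n⌉₊ : ℝ) < 2 * th * n + 1 := Nat.ceil_lt_add_one (by positivity)
  have hcn1 : th * (n : ℝ) ≤ (⌈th * (n : ℕ)⌉₊ : ℝ) := Nat.le_ceil _
  have hcn2 : (⌈th * (n : ℕ)⌉₊ : ℝ) < th * n + 1 := Nat.ceil_lt_add_one (by positivity)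
  -- the points of `Z`
  have hpt : ∀ z ∈ Z, (F.L z.1 : ℝ) ≤ A ∧ B ≤ z.2 ∧ ρ + th * z.2 < F.L z.1 := by
    intro z hz
    obtain ⟨hz1, hz2, hz3, hz4⟩ := hZ z hz
    obtain ⟨c1, c2, c3⟩ := (h2.1 _ _ _ _).1 hz4
    simp only at c1 c2 c3
    have c1' : (a : ℝ) ≤ F.L z.1 + (⌈th * (n : ℕ)⌉₊ : ℝ) := by exact_mod_cast c1
    have c2' : (z.2 : ℝ) ≤ b + n := by
      have : z.2 ≤ b + n := by omega
      exact_mod_cast this
    have c4 : th * (z.2 : ℝ) ≤ th * (b + n) := mul_le_mul_of_nonneg_left c2' hth.le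
    have c5 : th * ((b : ℝ) + n) = th * b + th * n := by ring
    refine ⟨?_, ?_, ?_⟩
    · rw [hAc]
      linarith
    · have c6 : th * ((b : ℝ) - z.2) < th * (2 * n + 1) := by
        have e1 : th * ((b : ℝ) - z.2) = th * b - th * z.2 := by ring
        have e2 : th * (2 * (n : ℝ) + 1) = 2 * (th * n) + th := by ring
        rw [e1, e2]
        linarith
      have c7 := lt_of_mul_lt_mul_left c6 hth.le
      have c8 : (b : ℝ) < z.2 + 2 * n + 1 := by linarith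
      have c9 : b < z.2 + 2 * n + 1 := by exact_mod_cast c8
      omega
    · rw [hρ]
      linarith
  set J : Finset ℚ := Z.image Prod.fst with hJ
  have hJmem : ∀ i ∈ J, i ∈ F.big th w := by
    intro i hi
    obtain ⟨z, hz, rfl⟩ := mem_image.1 hi
    exact (hZ z hz).1
  have hJI : J ⊆ F.I := by
    intro i hi
    exact (mem_filter.1 (hJmem i hi)).1
  -- the fibres
  have hfib : ∀ i ∈ J, ((Z.filter fun z => z.1 = i).card : ℝ) ≤ sz F i A B ρ / th + 1 ∧
      0 < sz F i A B ρ := by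
    intro i hi
    obtain ⟨z₀, hz₀, hz₀i⟩ := mem_image.1 hi
    have hcard : (Z.filter fun z => z.1 = i).card =
        ((Z.filter fun z => z.1 = i).image Prod.snd).card := by
      symm
      apply card_image_of_injOn
      intro x hx y hy hxy
      simp only [coe_filter, Set.mem_setOf_eq] at hx hy
      exact Prod.ext (by rw [hx.2, hy.2]) hxy
    have hLA : (F.L i : ℝ) ≤ A := by
      rw [← hz₀i]
      exact (hpt z₀ hz₀).1
    have hmax : th * max (F.s i : ℝ) (B : ℝ) = th * ((max (F.s i) B : ℕ) : ℝ) := by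
      rw [Nat.cast_max]
    have hsze : sz F i A B ρ / th = ((F.L i : ℝ) - max (F.ρ i) ρ) / th -
        ((max (F.s i) B : ℕ) : ℝ) := by
      unfold sz
      rw [min_eq_left hLA, hmax]
      field_simp
    have hc := t7_count ((Z.filter fun z => z.1 = i).image Prod.snd) (max (F.s i) B)
      (((F.L i : ℝ) - max (F.ρ i) ρ) / th) (by
        intro b' hb'
        obtain ⟨z, hz, rfl⟩ := mem_image.1 hb'
        obtain ⟨hz1, hz2⟩ := mem_filter.1 hz
        have q1 := (hZ z hz1).2.1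
        have q2 := hpt z hz1
        rw [hz2] at q1 q2
        refine ⟨max_le q1.1 q2.2.1, ?_⟩
        rw [lt_div_iff₀ hth]
        have q3 := q1.2
        have q4 := q2.2.2
        rcases max_choice (F.ρ i) ρ with h | h
        · rw [h]
          linarith
        · rw [h]
          linarith) (by
        refine ⟨z₀.2, mem_image.2 ⟨z₀, mem_filter.2 ⟨hz₀, hz₀i⟩, rfl⟩⟩)
    rw [hcard, hsze]
    refine ⟨hc.1, ?_⟩
    have : 0 < sz F i A B ρ / th := by
      rw [hsze]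
      linarith [hc.2]
    have h5 : sz F i A B ρ = sz F i A B ρ / th * th := by
      field_simp
    rw [h5]
    positivity
  -- the number of faces
  set n' : ℝ := ((A : ℝ) - ρ) / th - B with hn'
  have hn'e : n' = (⌈2 * th * n⌉₊ : ℝ) / th + 4 * n + 2 / th := by
    rw [hn', hAc, hBc, hρ]
    field_simp
    ring
  have hc1 : (⌈2 * th * n⌉₊ : ℝ) / th ≤ 2 * n + 1 := by
    rw [div_le_iff₀ hth]
    nlinarith
  have hc2 : 2 * (n : ℝ) ≤ (⌈2 * th * n⌉₊ : ℝ) / th := by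
    rw [le_div_iff₀ hth]
    linarith
  have hc3 : 2 / th ≤ 2 := by
    rw [div_le_iff₀ hth]
    linarith
  have hc4 : 0 < 2 / th := by positivity
  have hn'1 : n' ≤ 6 * n + 3 := by
    rw [hn'e]
    linarith
  have hn'2 : 6 * (n : ℝ) ≤ n' := by
    rw [hn'e]
    linarith
  have haR : 8 * (n : ℝ) + 4 * w + 2 ≤ a := by exact_mod_cast ha
  have hthn : th * (n : ℝ) ≤ 2 * n := mul_le_mul_of_nonneg_right hlt.le (Nat.cast_nonneg _)
  have hthw : th * (w : ℝ) ≤ 2 * w := mul_le_mul_of_nonneg_right hlt.le (Nat.cast_nonneg _)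
  have hnum := h3 F A B w ρ n' J hDis (by omega) (by omega) (by
    rw [hBc, hρ]
    have : (a : ℝ) - th * n - 2 - th * (b + n) - th * w + th * (b - 2 * n - w) =
        a - 4 * (th * n) - 2 - 2 * (th * w) := by ring
    rw [this]
    linarith) hn' (by linarith) hJI (by
    intro i hi
    exact ⟨(mem_filter.1 (hJmem i hi)).2, (hfib i hi).2.le⟩)
  have hJcard : J.card ≤ 18 * (6 * M + 7) ^ 2 := by
    have e0 : (n : ℝ) = M * w := by
      rw [hn]
      push_cast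
      ring
    have e1 : n' + 3 * w + 1 ≤ (6 * M + 7) * w := by
      have : 6 * (n : ℝ) + 3 + 3 * w + 1 ≤ (6 * M + 7) * w := by
        rw [e0]
        nlinarith
      linarith
    have e2 : (n' + 3 * w + 1) ^ 2 ≤ ((6 * M + 7) * w) ^ 2 :=
      pow_le_pow_left₀ (by linarith) e1 2
    have e3 : (J.card : ℝ) * (w : ℝ) ^ 2 ≤ (18 * (6 * M + 7) ^ 2) * (w : ℝ) ^ 2 := by
      have : ((6 * (M : ℝ) + 7) * w) ^ 2 = (6 * M + 7) ^ 2 * (w : ℝ) ^ 2 := by ring
      rw [this] at e2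
      linarith
    have e4 : (J.card : ℝ) ≤ 18 * (6 * M + 7) ^ 2 :=
      le_of_mul_le_mul_right e3 (by positivity)
    exact_mod_cast e4
  have hτn : (A : ℝ) - ρ - th * B = th * n' := by
    rw [hn']
    field_simp
  have hτ1 : τ₀ ≤ (A : ℝ) - ρ - th * B := by
    rw [hτn]
    have e1 : τ₀ ≤ (⌈τ₀⌉₊ : ℝ) := Nat.le_ceil _
    have e2 : (⌈τ₀⌉₊ : ℝ) + 1 ≤ w := by exact_mod_cast hw2
    have e3 : 1 * n' ≤ th * n' := mul_le_mul_of_nonneg_right hone.le (by linarith)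
    linarith
  have hsum := hsz F hAri J hJI hJcard A B ρ hτ1
  rw [hτn] at hsum
  have hZsum : (Z.card : ℝ) ≤ ∑ i ∈ J, (max 0 (sz F i A B ρ) / th + 1) := by
    have e1 : Z.card = ∑ i ∈ J, (Z.filter fun z => z.1 = i).card :=
      card_eq_sum_card_fiberwise (fun z hz => mem_image_of_mem _ hz)
    rw [e1]
    push_cast
    apply sum_le_sum
    intro i hi
    have e2 := (hfib i hi).1
    have e3 : sz F i A B ρ / th ≤ max 0 (sz F i A B ρ) / th :=
      div_le_div_of_nonneg_right (le_max_right _ _) hth.le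
    linarith
  rw [sum_add_distrib, ← sum_div, sum_const, nsmul_eq_mul, mul_one] at hZsum
  have e5 : (∑ i ∈ J, max 0 (sz F i A B ρ)) / th ≤ (1 + 1 / 10) * n' := by
    rw [div_le_iff₀ hth]
    linarith
  have e6 : (J.card : ℝ) ≤ ((18 * (6 * M + 7) ^ 2 : ℕ) : ℝ) := by exact_mod_cast hJcard
  have e7 : ((18 * (6 * M + 7) ^ 2 : ℕ) : ℝ) + 4 ≤ w := by exact_mod_cast hw1
  linarith

end MPcc0Tri2
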