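import Pool.Agent.Lib.MP_cc0c1a_nt.Tri2.SpecT

/-!
# MP_cc0c1a_nt / Tri2 / T8: double counting at one scale
-/

set_option autoImplicit false

namespace MPcc0Tri2

open Finset MPcc0Tri

private lemma t8_one : 1 < th := by
  unfold th
  rw [Real.lt_logb_iff_rpow_lt (by norm_num) (by norm_num)]
  norm_num

theorem t8 (h1 : TriCount) (h2 : UncBase) (h3 : Multi) : OneScale := by
  classical
  intro K hK
  have hth := th_pos
  have hone := t8_one
  have hlt := th_lt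
  have hM1 : 1 ≤ max 1 ⌈8 * K⌉₊ := le_max_left _ _
  have hM8 : 8 * K ≤ ((max 1 ⌈8 * K⌉₊ : ℕ) : ℝ) :=
    (Nat.le_ceil _).trans (by exact_mod_cast le_max_right _ _)
  obtain ⟨w₁, hw₁⟩ := h2 (max 1 ⌈8 * K⌉₊) hM1
  obtain ⟨w₂, hw₂⟩ := h3 (max 1 ⌈8 * K⌉₊) hM1
  refine ⟨max 1 ⌈8 * K⌉₊, max 1 (max w₁ w₂), hM1, le_max_left _ _, ?_⟩
  generalize max 1 ⌈8 * K⌉₊ = M at hM1 hM8 hw₁ hw₂ ⊢
  intro w hw F g V Hm A B H hC hB hV hH
  have hw1 : 1 ≤ w := (le_max_left _ _).trans hw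
  have hww1 : w₁ ≤ w := (le_max_left _ _).trans ((le_max_right _ _).trans hw)
  have hww2 : w₂ ≤ w := (le_max_right _ _).trans ((le_max_right _ _).trans hw)
  set n : ℕ := M * w with hn
  have hnw : w ≤ n := by
    rw [hn]
    exact Nat.le_mul_of_pos_left w hM1
  -- the uncovered cells around a point
  let U : ℚ × ℕ → Finset (ℕ × ℕ) := fun z =>
    (tri (F.L z.1 + ⌈th * (n : ℕ)⌉₊) (z.2 - n) (F.L z.1 - th * z.2 - th * (n : ℕ))).filter
      fun p => ∀ j ∈ F.big th w, ¬ F.Cov th j p.1 p.2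
  have hUmem : ∀ z p, p ∈ U z ↔ p ∈ tri (F.L z.1 + ⌈th * (n : ℕ)⌉₊) (z.2 - n)
      (F.L z.1 - th * z.2 - th * (n : ℕ)) ∧ ∀ j ∈ F.big th w, ¬ F.Cov th j p.1 p.2 := by
    intro z p
    simp only [U, mem_filter]
  have hBase : ∀ z, z ∈ Base F w n V A B H ↔ (z.1 ∈ F.big th w ∧ z.2 < H) ∧
      F.Alive th z.1 z.2 ∧ B + n ≤ z.2 ∧ z.2 + 3 * n ≤ H ∧ V ≤ F.L z.1 ∧
      F.L z.1 + ⌈th * n⌉₊ ≤ V + A := by
    intro z
    unfold Base
    rw [mem_filter, mem_product, mem_range]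
  have hlow : ∀ z ∈ Base F w n V A B H, (n : ℝ) ^ 2 ≤ ((U z).card : ℝ) := by
    intro z hz
    obtain ⟨⟨z1, z2⟩, z3, z4, z5, z6, z7⟩ := (hBase z).1 hz
    exact hw₁ w hww1 F z.1 z.2 (U z) hC.ari hC.dis z1 z3 (by omega) (by omega) (hUmem z)
  -- the cells lie in the region
  have hsub : ∀ z ∈ Base F w n V A B H, U z ⊆ Unc2 F w V A B H := by
    intro z hz p hp
    obtain ⟨⟨z1, z2⟩, z3, z4, z5, z6, z7⟩ := (hBase z).1 hz
    obtain ⟨hp1, hp2⟩ := (hUmem z p).1 hp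
    obtain ⟨c1, c2, c3⟩ := (h1.1 _ _ _ _).1 hp1
    have hcn2 : (⌈th * (n : ℕ)⌉₊ : ℝ) < th * n + 1 := Nat.ceil_lt_add_one (by positivity)
    have c1' : (p.1 : ℝ) ≤ F.L z.1 + (⌈th * (n : ℕ)⌉₊ : ℝ) := by exact_mod_cast c1
    have hrow : p.2 ≤ z.2 + 2 * n := by
      have e1 : th * ((p.2 : ℝ) - z.2) < th * (2 * n + 1) := by
        have e2 : th * ((p.2 : ℝ) - z.2) = th * p.2 - th * z.2 := by ring
        have e3 : th * (2 * (n : ℝ) + 1) = 2 * (th * n) + th := by ring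
        rw [e2, e3]
        linarith
      have e4 := lt_of_mul_lt_mul_left e1 hth.le
      have e5 : (p.2 : ℝ) < z.2 + 2 * n + 1 := by linarith
      have e6 : p.2 < z.2 + 2 * n + 1 := by exact_mod_cast e5
      omega
    have hpH : p.2 < H := by omega
    unfold Unc2
    rw [mem_filter, mem_product, mem_Ioc, mem_Ico]
    refine ⟨⟨⟨?_, by omega⟩, by omega, hpH⟩, hp2⟩
    by_contra hV'
    push Not at hV'
    have hHm : (p.2 : ℝ) ≤ Hm := by exact_mod_cast (by omega : p.2 ≤ Hm)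
    have hth2 : th * (p.2 : ℝ) ≤ th * Hm := mul_le_mul_of_nonneg_left hHm hth.le
    apply hp2 g
    · unfold Faces.big
      rw [mem_filter]
      refine ⟨hC.mem, ?_⟩
      unfold Faces.lam
      rw [hC.sg, hC.Lg, Nat.cast_zero, sub_zero, le_div_iff₀ hth]
      have e1 : (w : ℝ) ≤ Hm := by exact_mod_cast (by omega : w ≤ Hm)
      have e2 : (w : ℝ) * th ≤ Hm * th := mul_le_mul_of_nonneg_right e1 hth.le
      have e3 := hC.rg
      have e4 : (0 : ℝ) ≤ V := Nat.cast_nonneg _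
      linarith
    · refine ⟨by rw [hC.sg]; exact Nat.zero_le _, ?_, by rw [hC.Lg]; exact hV'⟩
      have e3 := hC.rg
      have e4 : (0 : ℝ) ≤ p.1 := Nat.cast_nonneg _
      linarith
  -- the multiplicity
  have hmul : ∀ p ∈ Unc2 F w V A B H,
      (((Base F w n V A B H).filter fun z => p ∈ U z).card : ℝ) ≤ 8 * (n : ℕ) := by
    intro p hp
    unfold Unc2 at hp
    rw [mem_filter, mem_product, mem_Ioc, mem_Ico] at hp
    obtain ⟨⟨⟨p1, p2⟩, p3, p4⟩, p5⟩ := hp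
    refine hw₂ w hww2 F p.1 p.2 _ hC.ari hC.dis (by omega) (by omega) ?_
    intro z hz
    obtain ⟨hz1, hz2⟩ := mem_filter.1 hz
    obtain ⟨⟨z1, z2⟩, z3, z4, z5, z6, z7⟩ := (hBase z).1 hz1
    exact ⟨z1, z3, by omega, ((hUmem z p).1 hz2).1⟩
  -- double counting
  have hdc : ∑ z ∈ Base F w n V A B H, (U z).card =
      ∑ p ∈ Unc2 F w V A B H, ((Base F w n V A B H).filter fun z => p ∈ U z).card := by
    have e1 : ∀ z ∈ Base F w n V A B H, (U z).card =
        ((Unc2 F w V A B H).filter fun p => p ∈ U z).card := by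
      intro z hz
      congr 1
      ext p
      constructor
      · intro h
        exact mem_filter.2 ⟨hsub z hz h, h⟩
      · intro h
        exact (mem_filter.1 h).2
    rw [sum_congr rfl e1]
    exact sum_card_bipartiteAbove_eq_sum_card_bipartiteBelow (fun z p => p ∈ U z)
  have hfin : (n : ℝ) ^ 2 * ((Base F w n V A B H).card : ℝ) ≤
      8 * n * ((Unc2 F w V A B H).card : ℝ) := by
    have e1 : ((Base F w n V A B H).card : ℝ) * (n : ℝ) ^ 2 ≤
        ∑ z ∈ Base F w n V A B H, ((U z).card : ℝ) := by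
      rw [← nsmul_eq_mul]
      exact card_nsmul_le_sum _ _ _ hlow
    have e2 : (∑ z ∈ Base F w n V A B H, ((U z).card : ℝ)) =
        ∑ p ∈ Unc2 F w V A B H, (((Base F w n V A B H).filter fun z => p ∈ U z).card : ℝ) := by
      exact_mod_cast hdc
    have e3 : ∑ p ∈ Unc2 F w V A B H,
        (((Base F w n V A B H).filter fun z => p ∈ U z).card : ℝ) ≤
        ((Unc2 F w V A B H).card : ℝ) * (8 * (n : ℕ)) := by
      rw [← nsmul_eq_mul]
      exact sum_le_card_nsmul _ _ _ hmul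
    linarith
  have hn0 : (0 : ℝ) < n := by
    have : 0 < n := by omega
    exact_mod_cast this
  have h4 : (n : ℝ) * ((Base F w n V A B H).card : ℝ) ≤ 8 * ((Unc2 F w V A B H).card : ℝ) := by
    have e1 : (n : ℝ) * (n * ((Base F w n V A B H).card : ℝ)) ≤
        n * (8 * ((Unc2 F w V A B H).card : ℝ)) := by
      calc (n : ℝ) * (n * ((Base F w n V A B H).card : ℝ)) =
          (n : ℝ) ^ 2 * ((Base F w n V A B H).card : ℝ) := by ring
        _ ≤ 8 * n * ((Unc2 F w V A B H).card : ℝ) := hfin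
        _ = n * (8 * ((Unc2 F w V A B H).card : ℝ)) := by ring
    exact le_of_mul_le_mul_left e1 hn0
  have h5 : (n : ℝ) = M * w := by
    rw [hn]
    push_cast
    ring
  have h6 : 8 * K * w * ((Base F w n V A B H).card : ℝ) ≤
      M * w * ((Base F w n V A B H).card : ℝ) := by
    apply mul_le_mul_of_nonneg_right _ (Nat.cast_nonneg _)
    exact mul_le_mul_of_nonneg_right hM8 (Nat.cast_nonneg _)
  rw [← h5] at h6
  linarith

end MPcc0Tri2
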