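import Pool.Agent.Lib.MP_cc0c1a_nt.Tri2.Core2
import Pool.Agent.Lib.MP_cc0c1a_nt.Tri2.S1
import Pool.Agent.Lib.MP_cc0c1a_nt.Tri2.S2a
import Pool.Agent.Lib.MP_cc0c1a_nt.Tri2.S2b
import Pool.Agent.Lib.MP_cc0c1a_nt.Tri2.S2c
import Pool.Agent.Lib.MP_cc0c1a_nt.Tri2.S3
import Pool.Agent.Lib.MP_cc0c1a_nt.Tri2.S4
import Pool.Agent.Lib.MP_cc0c1a_nt.Tri2.S5
import Pool.Agent.Lib.MP_cc0c1a_nt.Tri2.S6a
import Pool.Agent.Lib.MP_cc0c1a_nt.Tri2.S6b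
import Pool.Agent.Lib.MP_cc0c1a_nt.Tri2.S6c
import Pool.Agent.Lib.MP_cc0c1a_nt.Tri2.S6d
import Pool.Agent.Lib.MP_cc0c1a_nt.Tri2.S7
import Pool.Agent.Lib.MP_cc0c1a_nt.Tri2.S8
import Pool.Agent.Lib.MP_cc0c1a_nt.Tri2.T1
import Pool.Agent.Lib.MP_cc0c1a_nt.Tri2.T2
import Pool.Agent.Lib.MP_cc0c1a_nt.Tri2.T3
import Pool.Agent.Lib.MP_cc0c1a_nt.Tri2.T4
import Pool.Agent.Lib.MP_cc0c1a_nt.Tri2.T5
import Pool.Agent.Lib.MP_cc0c1a_nt.Tri2.T6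
import Pool.Agent.Lib.MP_cc0c1a_nt.Tri2.T7
import Pool.Agent.Lib.MP_cc0c1a_nt.Tri2.T8
import Pool.Agent.Lib.MP_cc0c1a_nt.Tri2.T9
import Pool.Agent.Lib.MP_cc0c1a_nt.Tri2.T10
import Pool.Agent.Lib.MP_cc0c1a_nt.Tri2.T11
import Pool.Agent.Lib.SubQ.Up

set_option autoImplicit false

/-!
# MP_cc0c1a_nt / Tri2: assembly (helper60)
-/

open Filter Topology Pool.Agent.SubQ MPcc0Tri
open Pool.Agent.Results.MP_cc0c1a_nt.SyndeticPositions (Config IsFin Shows F)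

namespace MPcc0Tri2

theorem subUp' : SubUp := fun n s q 𝒰 T x M c B hq hT hgen hM hB hc =>
  Pool.Agent.SubQ.subUp n s q hq 𝒰 T x M c B hT hgen hM hB hc

theorem matroid : MatroidLemma := s2c s2a (s2b s2a)

theorem pointsLim : PointsLim :=
  s6d (s6c subUp' s1 (s5 s1) s6a s6b) s6a (s4 s1 matroid s3)

theorem sizeSum : SizeSum := s8 (s7 pointsLim)

theorem numBound : NumBound := t4 t1 (t2 t1) t3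

theorem geoB : GeoB :=
  t10 (t8 t1 (t6 sizeSum t1 (t2 t1) numBound t5) (t7 sizeSum t1 numBound)) t9

theorem final (ℓ : ℕ) (ε : ℝ) (hε : 0 < ε) :
    ∃ c : ℝ, 0 < c ∧ ∃ H₀ : ℕ, ∀ x : Config, IsFin x → x ≠ 0 →
    ∃ N₀ : ℕ, ∀ n₀ H : ℕ, N₀ ≤ n₀ → H₀ ≤ H → ∀ w : Fin ℓ → Fin 6,
      ∃ S : Finset (ℕ × ℤ), c * (H : ℝ) ^ (2 - ε) ≤ (S.card : ℝ) ∧
        ∀ p ∈ S, n₀ ≤ p.1 ∧ p.1 < n₀ + H ∧ |(p.1 : ℤ) - p.2| ≤ N₀ + H ∧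
          Shows (F^[p.1] x) p.2 w :=
  core2 geoB t11 ℓ ε hε

end MPcc0Tri2
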