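import Pool.Agent.Lib.MP_cc0c1a_nt.Tri2.SpecS

/-!
# MP_cc0c1a_nt / Tri2 / S6b: rational change of basis, common denominator (helper69)
-/

set_option autoImplicit false

namespace MPcc0Tri2

open Finset Filter Topology

theorem s6b : BasisChange := by
  intro V _ _ n e f _he hf hspan
  have h1 : ∀ k, ∃ a : Fin n → ℚ, ∑ m, a m • e m = f k := by
    intro k
    have hk : f k ∈ Submodule.span ℚ (Set.range e) := by
      rw [hspan]
      exact Submodule.subset_span ⟨k, rfl⟩
    rw [Submodule.mem_span_range_iff_exists_fun] at hk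
    exact hk
  choose a ha using h1
  set D : ℕ := ∏ k, ∏ m, (a k m).den with hD
  have hDpos : 0 < D := by
    apply Finset.prod_pos
    intro k _
    apply Finset.prod_pos
    intro m _
    exact (a k m).den_pos
  have hdvd : ∀ k m, (a k m).den ∣ D := by
    intro k m
    exact dvd_trans (Finset.dvd_prod_of_mem (fun m => (a k m).den) (Finset.mem_univ m))
      (Finset.dvd_prod_of_mem (fun k => ∏ m, (a k m).den) (Finset.mem_univ k))
  have hM : ∀ k m, ∃ z : ℤ, (z : ℚ) = D * a k m := by
    intro k m
    obtain ⟨c, hc⟩ := hdvd k m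
    refine ⟨(a k m).num * c, ?_⟩
    rw [hc]
    push_cast
    have h2 : ((a k m).den : ℚ) ≠ 0 := by exact_mod_cast (a k m).den_ne_zero
    have h3 : a k m * (a k m).den = (a k m).num := Rat.mul_den_eq_num (a k m)
    rw [← h3]
    ring
  choose M hM using hM
  have hDf : ∀ k, (D : ℚ) • f k = ∑ m, (M k m : ℚ) • e m := by
    intro k
    rw [← ha k, Finset.smul_sum]
    apply Finset.sum_congr rfl
    intro m _
    rw [hM, mul_smul]
  refine ⟨D, Matrix.of M, hDpos, ?_, ?_⟩
  · intro hdet
    obtain ⟨v, hv0, hv⟩ := Matrix.exists_vecMul_eq_zero_iff.mpr hdet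
    apply hv0
    have h4 : ∑ k, ((v k : ℚ) * D) • f k = 0 := by
      have h5 : ∀ k, ((v k : ℚ) * D) • f k = ∑ m, ((v k : ℚ) * (M k m : ℚ)) • e m := by
        intro k
        rw [mul_smul, hDf, Finset.smul_sum]
        apply Finset.sum_congr rfl
        intro m _
        rw [mul_smul]
      rw [Finset.sum_congr rfl (fun k _ => h5 k), Finset.sum_comm]
      apply Finset.sum_eq_zero
      intro m _
      rw [← Finset.sum_smul]
      have h6 : ∑ k, (v k : ℚ) * (M k m : ℚ) = 0 := by
        have h7 := congrFun hv m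
        simp only [Matrix.vecMul, dotProduct, Matrix.of_apply, Pi.zero_apply] at h7
        exact_mod_cast h7
      rw [h6, zero_smul]
    have h8 := Fintype.linearIndependent_iff.mp hf _ h4
    funext k
    have h9 := h8 k
    have h10 : (D : ℚ) ≠ 0 := by exact_mod_cast hDpos.ne'
    have h11 : (v k : ℚ) = 0 := by
      rcases mul_eq_zero.mp h9 with h | h
      · exact h
      · exact absurd h h10
    exact_mod_cast h11
  · intro k
    rw [hDf]
    simp only [Matrix.of_apply]

end MPcc0Tri2
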