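import Pool.Agent.Lib.SubQ.Defs
import Pool.Agent.Lib.MP_cc0c1a_nt.Tri.Arith

/-!
# MP_cc0c1a_nt / Tri2: statements S (sums of the sizes of faces, from the Subspace theorem)

`Faces`, `IntAt`, `th = log_2 3` are in `Tri/Gap.lean`, `Tri/Arith.lean`; `lv`, `Pls`, `Gen` in
`SubQ/Defs.lean`.  (from S1) in a docstring means: the theorem takes the statement S1 as a
hypothesis.
-/

set_option autoImplicit false

namespace MPcc0Tri2

open Finset Filter Topology MPcc0Tri Pool.Agent.SubQ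

/-- The Subspace theorem with upper bounds (delivered by SubQ). -/
def SubUp : Prop :=
  ∀ (n s : ℕ) (q : Fin s → ℕ) (𝒰 : Ultrafilter ℕ) (T : ℕ → ℕ) (x : ℕ → Fin n → ℤ)
    (M : Option (Fin s) → Matrix (Fin n) (Fin n) ℤ) (c : Option (Fin s) → Fin n → ℝ) (B : ℝ),
    Pls q → Tendsto T (𝒰 : Filter ℕ) atTop → Gen 𝒰 x → (∀ v, (M v).det ≠ 0) →
    (∀ i, ∀ᶠ l in (𝒰 : Filter ℕ), |((x l i : ℤ) : ℝ)| ≤ Real.exp (B * T l)) →
    (∀ v i, ∀ ε : ℝ, 0 < ε →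
      ∀ᶠ l in (𝒰 : Filter ℕ), lv q v (∑ k, M v i k * x l k) ≤ (c v i + ε) * T l) →
    0 ≤ ∑ v, ∑ i, c v i

/-! ## Ranks of sets of points -/

/-- The span of the differences of the points `P i`, `i ∈ X`. -/
def dsp {α V : Type} [AddCommGroup V] [Module ℚ V] (P : α → V) (X : Finset α) : Submodule ℚ V :=
  Submodule.span ℚ {w | ∃ i ∈ X, ∃ j ∈ X, w = P i - P j}

/-- The affine rank of the points `P i`, `i ∈ X` (`0` for the empty set). -/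
noncomputable def rk {α V : Type} [AddCommGroup V] [Module ℚ V] (P : α → V) (X : Finset α) : ℕ :=
  Module.finrank ℚ (dsp P X)

/-- **S1, ranks.**

Proof.  Submodular: if `a ∈ X ∩ Y` then `P i - P j = (P i - P a) + (P a - P j)`, so
`dsp (X ∪ Y) = dsp X ⊔ dsp Y`; and `dsp (X ∩ Y) ≤ dsp X ⊓ dsp Y`;
`Submodule.finrank_sup_add_finrank_inf_eq`.  Insertion: `dsp (insert i X) ≤ dsp X ⊔ span {P i - P a}`
for any `a ∈ X`. -/
def RankFacts : Prop :=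
  ∀ (α V : Type) [DecidableEq α] [AddCommGroup V] [Module ℚ V] [FiniteDimensional ℚ V] (P : α → V),
    rk P ∅ = 0 ∧ (∀ i, rk P {i} = 0) ∧ (∀ X Y, X ⊆ Y → rk P X ≤ rk P Y) ∧
    (∀ X Y : Finset α, (X ∩ Y).Nonempty → rk P (X ∪ Y) + rk P (X ∩ Y) ≤ rk P X + rk P Y) ∧
    (∀ X, (∃ i ∈ X, ∃ j ∈ X, P i ≠ P j) → 1 ≤ rk P X) ∧
    (∀ X i, X.Nonempty → rk P (insert i X) ≤ rk P X + 1)

/-! ## The matroid lemma -/

/-- Intersecting submodular functions. -/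
structure Rk {α : Type} [DecidableEq α] (E : Finset α) (r : Finset α → ℕ) : Prop where
  empty : r ∅ = 0
  single : ∀ i ∈ E, r {i} = 0
  sub : ∀ X Y, X ⊆ E → Y ⊆ E → (X ∩ Y).Nonempty → r (X ∪ Y) + r (X ∩ Y) ≤ r X + r Y
  pos : ∀ X, X ⊆ E → 2 ≤ X.card → 1 ≤ r X

/-- The weights. -/
structure Good {α : Type} [DecidableEq α] (E : Finset α) (r : Finset α → ℕ)
    (lam : Finset α → ℝ) : Prop where
  nonneg : ∀ G, 0 ≤ lam G
  total : ∑ G ∈ E.powerset, lam G * r G = (E.card : ℝ) - 1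
  part : ∀ X, X ⊆ E → X.Nonempty → (X.card : ℝ) - 1 ≤ ∑ G ∈ E.powerset, lam G * r (X ∩ G)
  slope : ∀ β : ℝ, 0 ≤ β → (∀ X, X ⊆ E → X.Nonempty → (X.card : ℝ) - 1 ≤ β * r X) →
    ∀ i ∈ E, ∑ G ∈ E.powerset.filter (fun G => i ∈ G), lam G ≤ β

/-- The contraction of `G` to the element `g₀` of `G`; the new set is `insert g₀ (E \ G)`. -/
def ctr {α : Type} [DecidableEq α] (r : Finset α → ℕ) (G : Finset α) (g₀ : α) (X : Finset α) : ℕ :=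
  if g₀ ∈ X then r (X ∪ G) - r G else r X

/-- `G` is a set of maximal slope `β` and, among these, maximal. -/
structure Steep {α : Type} [DecidableEq α] (E : Finset α) (r : Finset α → ℕ) (G : Finset α)
    (g₀ : α) (β : ℝ) : Prop where
  sub : G ⊆ E
  two : 2 ≤ G.card
  mem : g₀ ∈ G
  pos : 0 ≤ β
  eq : (G.card : ℝ) - 1 = β * r G
  le : ∀ X, X ⊆ E → X.Nonempty → (X.card : ℝ) - 1 ≤ β * r X
  lt : ∀ X, X ⊆ E → G.card < X.card → (X.card : ℝ) - 1 < β * r X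

/-- **S2a, contraction.**

Proof.  `E' = insert g₀ (E \ G)`, `r' = ctr r G g₀`.
First claim: if `G ⊆ X ⊆ E`, `X ≠ G`: `#X > #G`, so `#X - 1 < β r X`; `r X ≤ r G` would give
`#X - 1 < β r G = #G - 1`, impossible; so even `r G < r X`.
`Rk`: `r' ∅ = r ∅ = 0` (`g₀ ∉ ∅`); `r' {g₀} = r G - r G = 0`, `r' {i} = r {i} = 0` for `i ≠ g₀`.
Submodularity for `X, Y ⊆ E'`, `X ∩ Y ≠ ∅`: if both contain `g₀` apply `sub` to `X ∪ G`, `Y ∪ G`
(`(X ∪ G) ∩ (Y ∪ G) = (X ∩ Y) ∪ G`), with the first claim for the natural subtractions; if none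
does it is `sub`; if only `X` does: `Y ⊆ E \ G`, so `Y ∩ G = ∅`, apply `sub` to `X ∪ G` and `Y`, whose
intersection is `X ∩ Y` (which does not contain `g₀`).  `1 ≤ r' X` if `2 ≤ #X`: clear if `g₀ ∉ X`;
otherwise `#(X ∪ G) = #X - 1 + #G > #G`, so `r G < r (X ∪ G)`.
Last claim: if `g₀ ∉ X` it is `le` (`X ⊆ E`); otherwise `#(X ∪ G) - 1 = (#X - 1) + (#G - 1)`,
`#(X ∪ G) - 1 ≤ β r (X ∪ G)`, `#G - 1 = β r G`; subtract. -/
def Contract : Prop :=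
  ∀ (α : Type) [DecidableEq α] (E : Finset α) (r : Finset α → ℕ) (G : Finset α) (g₀ : α) (β : ℝ),
    Rk E r → Steep E r G g₀ β → (∀ X, X ⊆ E → G ⊆ X → r G ≤ r X) ∧
      Rk (insert g₀ (E \ G)) (ctr r G g₀) ∧
      ∀ X, X ⊆ insert g₀ (E \ G) → X.Nonempty → (X.card : ℝ) - 1 ≤ β * ctr r G g₀ X

/-- **S2b, lifting** (from S2a).

Proof.  `E' = insert g₀ (E \ G)`, `r' = ctr r G g₀`, `λ'` = `lam'`, `Λ' = ∑_{G' ∈ powerset E', g₀ ∈ G'} λ'_{G'} ≤ β` by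
`slope` for `λ'` and the last claim of S2a.  `π(G') = G' ∪ G` if `g₀ ∈ G'`, `= G'` otherwise;
`λ_H = ∑_{G' ∈ powerset E', π(G') = H} λ'_{G'} + (if H = G then β - Λ' else 0) ≥ 0`.
`π` maps `powerset E'` to `powerset E`.  So for every function `φ`:
`∑_{H ⊆ E} λ_H φ(H) = ∑_{G' ⊆ E'} λ'_{G'} φ(π G') + (β - Λ') φ(G)`.   (*)
(total) `φ = r`: `r(π G') = r'(G') + (if g₀ ∈ G' then r G else 0)`:
`∑ λ' r' + Λ' r(G) + (β - Λ') r(G) = (#E' - 1) + β r(G) = (#E' - 1) + (#G - 1) = #E - 1`.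
(slope) for `β' ≥ 0` with the property of `slope`: `#G - 1 ≤ β' r G` and `#G - 1 = β r G`, `r G ≥ 1`, so
`β ≤ β'`; it is enough to bound by `β`.  `φ(H) = 1` if `i ∈ H`, else `0`.  `i ∈ G`: for `g₀ ∈ G'` it is `1`, for
`g₀ ∉ G'` it is `0` (`G' ∩ G = ∅`), and `φ(G) = 1`: the sum is `Λ' + β - Λ' = β`.  `i ∉ G`: `i ∈ π G' ↔ i ∈ G'`,
`φ(G) = 0`: the sum is `∑_{G' ∋ i} λ'_{G'} ≤ β` (`slope` for `λ'`, last claim of S2a).
(part) `φ(H) = r(X ∩ H)`.  `X ∩ G = ∅`: `X ⊆ E'`, `g₀ ∉ X`, `X ∩ π(G') = X ∩ G'`, `r'(X ∩ G') = r(X ∩ G')`,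
`r(X ∩ G) = r(∅) = 0`: the claim for `λ'`, `X`.  `X ∩ G ≠ ∅`: `X' = insert g₀ (X \ G) ⊆ E'`,
`#X' = #(X \ G) + 1`.  For `g₀ ∉ G'`: `X ∩ G' = X' ∩ G' ∌ g₀`.  For `g₀ ∈ G'`, `H = G' ∪ G`: `sub` for
`X ∩ H` and `G` (intersection `X ∩ G ≠ ∅`, union `(X' ∩ G') ∪ G`) gives
`r(X ∩ H) ≥ r'(X' ∩ G') + r(X ∩ G)` (`r G ≤ r((X' ∩ G') ∪ G)` by S2a).  So the sum (*) is at least
`∑ λ' r'(X' ∩ G') + β r(X ∩ G) ≥ (#X' - 1) + (#(X ∩ G) - 1) = #X - 1`. -/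
def Lift : Prop :=
  ∀ (α : Type) [DecidableEq α] (E : Finset α) (r : Finset α → ℕ) (G : Finset α) (g₀ : α)
    (β : ℝ) (lam' : Finset α → ℝ), Rk E r → Steep E r G g₀ β →
    Good (insert g₀ (E \ G)) (ctr r G g₀) lam' → ∃ lam : Finset α → ℝ, Good E r lam

/-- **S2c, the matroid lemma** (from S2a, S2b).

Proof.  Strong induction on `#E` of: `E ≠ ∅`, `Rk E r` imply `∃ lam, Good E r lam`.
`#E = 1`: `lam = 0` (`X ⊆ E` nonempty has `#X = 1`).  Let `#E ≥ 2`.  Among the `G ⊆ E` with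
`#G ≥ 2` choose one with maximal slope `β = (#G - 1)/r(G)` (`r G ≥ 1`) and, among these, with maximal
`#G` (`Finset.exists_max_image` twice).  `Steep E r G g₀ β` for `g₀ ∈ G`: `le`: for `#X ≥ 2` the maximality
of the slope, for `#X = 1` the left side is `0`; `lt`: `#X > #G ≥ 2`, the slope of `X` is at most `β` and not
`β`.  `#(insert g₀ (E \ G)) = #E - #G + 1 < #E`; S2a, the induction hypothesis, S2b. -/
def MatroidLemma : Prop :=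
  ∀ (α : Type) [DecidableEq α] (E : Finset α) (r : Finset α → ℕ), E.Nonempty → Rk E r → ∃ lam : Finset α → ℝ, Good E r lam

/-! ## Enumerations -/

/-- The first `j + 1` elements of the enumeration `σ`. -/
def pre {N : ℕ} (σ : Equiv.Perm (Fin N)) (j : Fin N) : Finset (Fin N) :=
  univ.filter fun i => σ.symm i ≤ j

/-- The first `j` elements of the enumeration `σ`. -/
def pre' {N : ℕ} (σ : Equiv.Perm (Fin N)) (j : Fin N) : Finset (Fin N) :=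
  univ.filter fun i => σ.symm i < j

/-- The cost of the greedy basis of `G` (without its first element). -/
noncomputable def cost {N : ℕ} {V : Type} [AddCommGroup V] [Module ℚ V] (P : Fin N → V)
    (σ : Equiv.Perm (Fin N)) (y : Fin N → ℝ) (G : Finset (Fin N)) : ℝ :=
  ∑ j, y (σ j) * ((rk P (pre σ j ∩ G) : ℝ) - rk P (pre' σ j ∩ G))

/-- **S3, summation by parts.**

Proof.  `pre' σ (j+1) = pre σ j`, `pre' σ 0 = ∅`, `pre σ last = univ`.  With `ψ_j = Ψ (pre σ j) ≥ 0` and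
`x_j = y (σ j)` increasing: `∑_j x_j (ψ_j - ψ_(j-1)) = x_last ψ_last - ∑_(j < last) (x_(j+1) - x_j) ψ_j`
(where `ψ_(-1) = Ψ ∅ = 0`), and `ψ_last = 0`. -/
def AbelLemma : Prop :=
  ∀ (N : ℕ) (σ : Equiv.Perm (Fin N)) (y : Fin N → ℝ) (Ψ : Finset (Fin N) → ℝ), Ψ ∅ = 0 →
    (∀ X, 0 ≤ Ψ X) → Ψ univ = 0 → (∀ i j, i ≤ j → y (σ i) ≤ y (σ j)) →
    ∑ j, y (σ j) * (Ψ (pre σ j) - Ψ (pre' σ j)) ≤ 0

/-- **S4, weighted sum of the costs** (from S1, S2c, S3).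

Proof.  S2c for `E = univ`, `r = rk P` (S1; `rk P X ≥ 1` if `#X ≥ 2` as the points are different);
`λ = lam`.  `Ψ(X) = ∑_G λ_G rk(X ∩ G) - (#X - 1)` (natural subtraction, cast): `Ψ ∅ = 0`, `Ψ ≥ 0`,
`Ψ univ = 0`.  S3: `∑_j y(σ j) ∑_G λ_G (rk (pre ∩ G) - rk (pre' ∩ G)) ≤ ∑_j y (σ j) ((#pre - 1) - (#pre' - 1))`,
and `(#pre σ j - 1) - (#pre' σ j - 1)` is `0` for `j = 0` and `1` for `j ≥ 1` (`#pre σ j = j + 1`).  The right
side is `∑_i y i - y (σ 0)`. -/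
def CostSum : Prop :=
  ∀ (N : ℕ) (V : Type) [AddCommGroup V] [Module ℚ V]
    [FiniteDimensional ℚ V] (P : Fin (N + 1) → V), Function.Injective P →
    ∃ lam : Finset (Fin (N + 1)) → ℝ, (∀ G, 0 ≤ lam G) ∧
      ∀ (σ : Equiv.Perm (Fin (N + 1))) (y : Fin (N + 1) → ℝ),
        (∀ i j, i ≤ j → y (σ i) ≤ y (σ j)) →
        ∑ G, lam G * cost P σ y G ≤ ∑ i, y i - y (σ 0)

/-- **S5, greedy bases** (from S1).

Proof.  Let `j₀` be the first index with `σ j₀ ∈ G`.  For `j ≤ j₀` both ranks are `0` (at most one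
point).  For `j > j₀` with `σ j ∉ G`: `pre σ j ∩ G = pre' σ j ∩ G`.  For `σ j ∈ G`, `j > j₀`:
`pre σ j ∩ G = insert (σ j) (pre' σ j ∩ G)`, so the rank increases by `0` or `1`, and
`dsp (pre ∩ G) = dsp (pre' ∩ G) ⊔ span {P (σ j) - P (σ j₀)}`.  Let `J` be the set of the `j` with an
increase.  By induction on `j` the vectors `P (σ i) - P (σ j₀)`, `i ∈ J`, `i ≤ j`, are a basis of
`dsp (pre σ j ∩ G)`.  For `j = last`: a basis of `dsp G`, `#J = rk G`.  `b` = increasing (or any)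
enumeration of `J`. -/
def Greedy : Prop :=
  ∀ (N : ℕ) (V : Type) [AddCommGroup V] [Module ℚ V] [FiniteDimensional ℚ V]
    (P : Fin N → V) (σ : Equiv.Perm (Fin N)) (G : Finset (Fin N)), G.Nonempty →
    ∃ (j₀ : Fin N) (b : Fin (rk P G) → Fin N), σ j₀ ∈ G ∧ (∀ k, j₀ < b k) ∧ (∀ k, σ (b k) ∈ G) ∧
      LinearIndependent ℚ (fun k => P (σ (b k)) - P (σ j₀)) ∧
      (Submodule.span ℚ (Set.range fun k => P (σ (b k)) - P (σ j₀)) = dsp P G) ∧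
      ∀ y : Fin N → ℝ, cost P σ y G = ∑ k, y (σ (b k))

/-! ## Points along an ultrafilter -/

/-- The relations with coefficient sum zero between the sequences `u · i`. -/
def Rel {N : ℕ} (𝒰 : Ultrafilter ℕ) (u : ℕ → Fin N → ℤ) : Submodule ℚ (Fin N → ℚ) where
  carrier := {c | ∑ i, c i = 0 ∧ ∀ᶠ l in (𝒰 : Filter ℕ), ∑ i, c i * (u l i : ℚ) = 0}
  zero_mem' := by simp
  add_mem' := by
    rintro a b ⟨ha, ha'⟩ ⟨hb, hb'⟩
    refine ⟨by simp [sum_add_distrib, ha, hb], ?_⟩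
    filter_upwards [ha', hb'] with l h1 h2
    simp [add_mul, sum_add_distrib, h1, h2]
  smul_mem' := by
    rintro t a ⟨ha, ha'⟩
    refine ⟨by simp [← mul_sum, ha], ?_⟩
    filter_upwards [ha'] with l h1
    simp [mul_assoc, ← mul_sum, h1]

/-- The point `i`. -/
def pt {N : ℕ} (𝒰 : Ultrafilter ℕ) (u : ℕ → Fin N → ℤ) (i : Fin N) : (Fin N → ℚ) ⧸ Rel 𝒰 u :=
  Submodule.Quotient.mk (Pi.single i 1)

/-- **S6a, relations between the points.**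

Proof.  `∑ z_k (pt (a k) - pt (b k))` is the class of `c = ∑ z_k (e_(a k) - e_(b k))`; it is `0` iff `c ∈ Rel`;
the coefficient sum of `c` is `0` and `∑_i c_i u_(l,i) = ∑_k z_k (u_(l, a k) - u_(l, b k))`.  The second claim is the
case `n = 1`, `z = 1` (or directly). -/
def PtFacts : Prop :=
  ∀ (N : ℕ) (𝒰 : Ultrafilter ℕ) (u : ℕ → Fin N → ℤ),
    (∀ (n : ℕ) (a b : Fin n → Fin N) (z : Fin n → ℚ),
      ∑ k, z k • (pt 𝒰 u (a k) - pt 𝒰 u (b k)) = 0 ↔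
        ∀ᶠ l in (𝒰 : Filter ℕ), ∑ k, z k * ((u l (a k) : ℚ) - (u l (b k) : ℚ)) = 0) ∧
    ∀ i j, pt 𝒰 u i = pt 𝒰 u j → ∀ᶠ l in (𝒰 : Filter ℕ), u l i = u l j

/-- **S6b, change of basis.**

Proof.  `f k = ∑_m a_km e_m` with rational `a_km` (`f k` lies in the span of the `e m`); `det a ≠ 0`: otherwise
`∑_k z_k a_km = 0` for all `m` for some `z ≠ 0` (`Matrix.exists_vecMul_eq_zero_iff`), so
`∑_k z_k f_k = 0`.  `D` = product of all denominators of the `a_km`, `M = D a` is integral, `det M = D^n det a`. -/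
def BasisChange : Prop :=
  ∀ (V : Type) [AddCommGroup V] [Module ℚ V] (n : ℕ) (e f : Fin n → V), LinearIndependent ℚ e →
    LinearIndependent ℚ f → Submodule.span ℚ (Set.range e) = Submodule.span ℚ (Set.range f) →
    ∃ (D : ℕ) (M : Matrix (Fin n) (Fin n) ℤ), 1 ≤ D ∧ M.det ≠ 0 ∧
      ∀ k, (D : ℚ) • f k = ∑ m, (M k m : ℚ) • e m

/-- **S6c, the inequality for one set** (from `SubUp`, S1, S5, S6a, S6b).

Proof.  `P = pt 𝒰 u`.  `G = ∅`: all costs are `0`.  Otherwise let `n = rk P G` and for every place `v` let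
`j₀ v`, `b v` be as in S5 for `σ v`.  `x_l k = u_(l, σ(b k)) - u_(l, σ j₀)` for `v = none`.
`Gen`: let `z ≠ 0` be an integer vector.  `∑_k z_k (P (σ (b k)) - P (σ j₀)) ≠ 0` (independence), so by S6a it
is not true that `∑ z_k x_l k = 0` eventually; so (ultrafilter, `Ultrafilter.eventually_not`)
`∑ z_k x_l k ≠ 0` eventually.
For the place `v` take `D_v, M_v` from S6b for `e k = P (σ(b k)) - P(σ j₀)` (`none`) and
`f k = P (σ_v (b_v k)) - P (σ_v j₀v)` (both span `dsp P G`).  By S6a (for the `n + 1` differences)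
`D_v (u_(l, σ_v (b_v k)) - u_(l, σ_v j₀v)) = ∑_m (M_v)_km x_l m` eventually.
`lv q v (D z) ≤ log D + lv q v z` for integers `z ≠ 0`, `D ≥ 1` (for a prime: `padicValInt (D z) ≥
padicValInt z`), and `u_(l, σ_v (b_v k)) ≠ u_(l, σ_v j₀v)` eventually as `σ_v (b_v k) ≠ σ_v j₀v`
(`j₀v < b_v k`); `log D ≤ (ε/2) T_l` eventually; `max (y v (σ_v (b_v k))) (y v (σ_v j₀v)) =
y v (σ_v (b_v k))` since `j₀v < b_v k` and `σ_v` sorts.  So `SubUp` with `c v k = y v (σ_v (b_v k))`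
gives the claim (S5: the cost is `∑_k y v (σ_v (b_v k))`); the bound `|x_l k| ≤ exp (B T_l)` is a
hypothesis. -/
def OneFace : Prop :=
  ∀ (N s : ℕ) (q : Fin s → ℕ)
    (𝒰 : Ultrafilter ℕ) (T : ℕ → ℕ) (u : ℕ → Fin N → ℤ) (y : Option (Fin s) → Fin N → ℝ) (B : ℝ),
    Pls q → Tendsto T (𝒰 : Filter ℕ) atTop →
    (∀ i j, i ≠ j → ∀ᶠ l in (𝒰 : Filter ℕ), u l i ≠ u l j) →
    (∀ i j, ∀ᶠ l in (𝒰 : Filter ℕ), |((u l i - u l j : ℤ) : ℝ)| ≤ Real.exp (B * T l)) →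
    (∀ v i j, i ≠ j → ∀ ε : ℝ, 0 < ε → ∀ᶠ l in (𝒰 : Filter ℕ),
      lv q v (u l i - u l j) ≤ (max (y v i) (y v j) + ε) * T l) →
    ∀ σ : Option (Fin s) → Equiv.Perm (Fin N),
      (∀ v i j, i ≤ j → y v (σ v i) ≤ y v (σ v j)) → ∀ G : Finset (Fin N),
        0 ≤ ∑ v, cost (pt 𝒰 u) (σ v) (y v) G

/-- **S6d, points along an ultrafilter** (from S6c, S6a, S4).

Proof.  `P = pt 𝒰 u` is injective (S6a and the hypothesis; `𝒰` is nontrivial).  For every place `v` let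
`σ v` sort `y v` (`Tuple.sort`, `Tuple.monotone_sort`).  `λ` from S4.  By S6c, S4:
`0 ≤ ∑_G λ_G ∑_v cost = ∑_v ∑_G λ_G cost ≤ ∑_v (∑_i y v i - y v (σ v 0))`; `i₀ v = σ v 0`. -/
def PointsLim : Prop :=
  ∀ (N s : ℕ) (q : Fin s → ℕ) (𝒰 : Ultrafilter ℕ) (T : ℕ → ℕ) (u : ℕ → Fin (N + 1) → ℤ)
    (y : Option (Fin s) → Fin (N + 1) → ℝ) (B : ℝ), Pls q → Tendsto T (𝒰 : Filter ℕ) atTop →
    (∀ i j, i ≠ j → ∀ᶠ l in (𝒰 : Filter ℕ), u l i ≠ u l j) →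
    (∀ i j, ∀ᶠ l in (𝒰 : Filter ℕ), |((u l i - u l j : ℤ) : ℝ)| ≤ Real.exp (B * T l)) →
    (∀ v i j, i ≠ j → ∀ ε : ℝ, 0 < ε → ∀ᶠ l in (𝒰 : Filter ℕ),
      lv q v (u l i - u l j) ≤ (max (y v i) (y v j) + ε) * T l) →
    ∃ i₀ : Option (Fin s) → Fin (N + 1), (∀ v i, y v (i₀ v) ≤ y v i) ∧
      0 ≤ ∑ v, (∑ i, y v i - y v (i₀ v))

/-! ## The uniform version -/

/-- **S7, points, uniform version** (from S6d).

Proof.  `N = 0` is trivial; let `N = N' + 1`.  Suppose the claim fails for `ε`: for every `l` there are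
`T_l ≥ l + 1` and data `u, a, b, c` violating it.  `𝒰 = hyperfilter ℕ`; `q = ![2, 3]`.  The real numbers
`a_i log 2 / T`, `b_i log 3 / T` (in `[0, 1]`) and `c_i / T` (in `[1, 3]`) have limits `A_i, B_i, C_i` along
`𝒰` (`Ultrafilter.le_nhds_lim`, or `IsCompact.ultrafilter_le_nhds`).  `y none = C`, `y (some 0) = -A`,
`y (some 1) = -B`.  For `i ≠ j`: `|u_i - u_j| ≤ exp (max c_i c_j)`, so
`lv none ≤ max c_i c_j ≤ (max C_i C_j + ε') T`; `2^(min a_i a_j) ∣ u_i - u_j ≠ 0`, so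
`lv (some 0) ≤ - min(a_i, a_j) log 2 ≤ (max (-A_i) (-A_j) + ε') T`; the same for `3`.  S6d gives
`0 ≤ (∑ C - min C) - (∑ A - max A) - (∑ B - max B)` so `∑ (A_i + B_i - C_i) ≤ max A + max B - min C ≤ 1`,
but the violation gives `∑ (A_i + B_i - C_i) ≥ 1 + ε` in the limit. -/
def PointsUnif : Prop :=
  ∀ (N : ℕ) (ε : ℝ), 0 < ε → ∃ T₀ : ℕ, ∀ T : ℕ, T₀ ≤ T → ∀ (u : Fin N → ℤ) (a b : Fin N → ℕ)
    (c : Fin N → ℝ), Function.Injective u → (∀ i, (2 : ℤ) ^ a i ∣ u i) →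
    (∀ i, (3 : ℤ) ^ b i ∣ u i) → (∀ i, a i * Real.log 2 ≤ T) → (∀ i, b i * Real.log 3 ≤ T) →
    (∀ i, (T : ℝ) ≤ c i) → (∀ i, c i ≤ 3 * T) →
    (∀ i j, |((u i - u j : ℤ) : ℝ)| ≤ Real.exp (max (c i) (c j))) →
    ∑ i, (a i * Real.log 2 + b i * Real.log 3 - c i) ≤ (1 + ε) * T

/-! ## Faces -/

/-- The family of faces comes from numbers `γ ∈ ℤ[1/3]` close to one number. -/
structure Ari (F : Faces ℚ) : Prop where
  int : ∀ i ∈ F.I, IntAt i (F.L i) (F.s i)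
  dist : ∀ i ∈ F.I, ∀ j ∈ F.I, |((i : ℚ) : ℝ) - j| ≤ 2 ^ max (F.ρ i) (F.ρ j)

/-- The size (times `θ` the number of rows) of the intersection of the face `i` with the triangle
`a ≤ A`, `b ≥ B`, `a > ρ + θ b`; negative if they are far apart. -/
noncomputable def sz (F : Faces ℚ) (i : ℚ) (A B : ℕ) (ρ : ℝ) : ℝ :=
  min (F.L i : ℝ) A - max (F.ρ i) ρ - th * max (F.s i : ℝ) B

/-- **S8, the sum of the sizes of few faces in a large triangle** (from S7).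

Proof.  Let `τ = A - ρ - th B`.  Dropping the faces with `sz < 0` we may assume `sz i ≥ 0` for all
`i ∈ J`, where now `#J = N' ≤ N` (take the maximum of the constants for `N' ≤ N`).  `m₁ = ⌈τ⌉₊`,
`m₂ = ⌈τ/th⌉₊`.  From `sz i ≥ 0`: `L_i ≥ ρ + th B = A - τ`, so `L_i + m₁ ≥ A`; `th (s_i - B) ≤ τ`, so
`s_i ≤ B + m₂`; `max(ρ_i, ρ) - ρ ≤ τ`.  `IntAt i L_i s_i`: `i = k_i 2^(L_i) / 3^(s_i)`; so
`u_i = i · 3^(B + m₂) · 2^(m₁) / 2^A = k_i 2^(L_i + m₁ - A) 3^(B + m₂ - s_i)` is an integer; injective in `i`.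
`a_i = min(L_i, A) + m₁ - A`, `b_i = B + m₂ - max(s_i, B)` (natural numbers): `2^(a_i), 3^(b_i) ∣ u_i`,
`a_i log 2 ≤ m₁ log 2 ≤ τ log 2 + 1`, `b_i log 3 ≤ m₂ log 3 ≤ τ log 2 + 2` (`th log 2 = log 3`).
`T = ⌈τ log 2⌉₊ + 2`, `c_i = (max(ρ_i, ρ) - ρ + τ) log 2 + 4 ≥ T`, `≤ 3 T` for large `τ`.
`|u_i - u_j| = |i - j| 3^(B + m₂) 2^(m₁ - A) ≤ 2^(max(ρ_i, ρ_j) + th B + th m₂ + m₁ - A)`, and
`th B - A = - τ - ρ`, `th m₂ ≤ τ + th`, `m₁ ≤ τ + 1`: the exponent is at most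
`max(ρ_i, ρ_j) - ρ + τ + th + 1`, and `(th + 1) log 2 = log 6 ≤ 4`.
`a_i log 2 + b_i log 3 - c_i = log 2 (min(L_i, A) + m₁ - A + th (B + m₂ - max(s_i, B)) - max(ρ_i, ρ) + ρ - τ) - 4
≥ log 2 · sz i - 4`, because `m₁ + th m₂ ≥ 2 τ` and `- A + th B + ρ = - τ`.
S7 with `ε/2`: `log 2 ∑ sz i ≤ (1 + ε/2) T + 4 N' ≤ (1 + ε/2)(τ log 2 + 3) + 4 N' ≤ (1 + ε) τ log 2` for
large `τ`. -/
def SizeSum : Prop :=
  ∀ (N : ℕ) (ε : ℝ), 0 < ε → ∃ τ₀ : ℝ, 0 < τ₀ ∧ ∀ F : Faces ℚ, Ari F →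
    ∀ J : Finset ℚ, J ⊆ F.I → J.card ≤ N → ∀ (A B : ℕ) (ρ : ℝ), τ₀ ≤ A - ρ - th * B →
      ∑ i ∈ J, max 0 (sz F i A B ρ) ≤ (1 + ε) * (A - ρ - th * B)

end MPcc0Tri2
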