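import Pool.Agent.Lib.MP_cc0c1a_nt.Tri2.SpecS

/-!
# MP_cc0c1a_nt / Tri2: statements T (geometry: `H^(2-ε)` cells outside the large faces)

`Faces`, `Alive`, `Cov`, `lam`, `big` are in `Tri/Gap.lean`.
-/

set_option autoImplicit false

namespace MPcc0Tri2

open Finset MPcc0Tri

open Classical in
/-- The cells of the triangle `a ≤ A`, `b ≥ B`, `a > ρ + θ b`. -/
noncomputable def tri (A B : ℕ) (ρ : ℝ) : Finset (ℕ × ℕ) :=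
  ((range (A + 1)) ×ˢ (range (⌈((A : ℝ) - ρ) / th⌉₊ + 1))).filter
    fun p => B ≤ p.2 ∧ ρ + th * p.2 < p.1

/-- **T1, counting.**

Proof.  `x ∈ tri A B ρ` iff `x.1 ≤ A`, `B ≤ x.2`, `ρ + th x.2 < x.1` (the bound on `x.2` follows).  Row
`b = B + r`: the number of `a` with `ρ + th b < a ≤ A` is `A - ⌊ρ + th b⌋` (`ρ + th b ≥ 0`) if
`ρ + th b < A`, i.e. `r < n`, and `0` otherwise; it lies between `th (n - r)` and `th (n - r) + 1`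
(`A - ρ - th b = th (n - r)`).  With `m = ⌈n⌉`, `n ≤ m < n + 1`:
`∑_(r < m) (n - r) = n m - m (m-1)/2`, which lies between `n²/2` (as
`(m - n)(n + 1 - m) ≥ 0`) and `n²/2 + n + 1`. -/
def TriCount : Prop :=
  (∀ (A B : ℕ) (ρ : ℝ) (p : ℕ × ℕ), p ∈ tri A B ρ ↔ p.1 ≤ A ∧ B ≤ p.2 ∧ ρ + th * p.2 < p.1) ∧
  ∀ (A B : ℕ) (ρ n : ℝ), 0 ≤ ρ + th * B → n = (A - ρ) / th - B → 0 ≤ n →
    th * n ^ 2 / 2 ≤ ((tri A B ρ).card : ℝ) ∧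
      ((tri A B ρ).card : ℝ) ≤ th * n ^ 2 / 2 + (th + 2) * (n + 1)

/-- **T2, the cells of a face in a triangle** (from T1).

Proof.  `p ∈ tri A B ρ` with `Cov i p` iff `p ∈ tri (min L A) (max s B) (max ρ_i ρ)`.  If
`sz F i A B ρ < 0` there is no such `p`; otherwise apply T1 with `n = sz / th`
(`max ρ_i ρ + th max(s, B) ≥ 0`). -/
def FaceTri : Prop :=
  ∀ (F : Faces ℚ) (i : ℚ) (A B : ℕ) (ρ : ℝ) (S : Finset (ℕ × ℕ)), 0 ≤ ρ + th * B →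
    (∀ p, p ∈ S ↔ p ∈ tri A B ρ ∧ F.Cov th i p.1 p.2) →
    ((S.card : ℝ) ≤ th * (max 0 (sz F i A B ρ) / th) ^ 2 / 2 +
      (th + 2) * (max 0 (sz F i A B ρ) / th + 1)) ∧
    (sz F i A B ρ < 0 → S = ∅) ∧
    (0 ≤ sz F i A B ρ → th * (sz F i A B ρ / th) ^ 2 / 2 ≤ (S.card : ℝ))

/-- **T3, a large face which meets a triangle has large size in a slightly larger triangle.**

Proof.  `A' = A + ⌈th w⌉₊`, `B' = B - w`, `ρ' = ρ - th w`.  If `L ≤ A'`, `ρ' ≤ ρ_i`, `B' ≤ s`: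
`sz = L - ρ_i - th s = th lam ≥ th w`.  Otherwise at least one of `L > A'` (then
`min L A' = A' ≥ min L A + th w`), `ρ_i < ρ'` (`max ρ_i ρ' = max ρ_i ρ - th w`), `s < B'`
(`max s B' = max s B - w`) holds, and the two other terms do not decrease the size. -/
def Grow : Prop :=
  ∀ (F : Faces ℚ) (i : ℚ) (A B w : ℕ) (ρ : ℝ), (w : ℝ) ≤ F.lam th i → w ≤ B →
    0 ≤ sz F i A B ρ → th * w ≤ sz F i (A + ⌈th * w⌉₊) (B - w) (ρ - th * w)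

/-- Disjointness of the faces. -/
def Dis (F : Faces ℚ) : Prop :=
  ∀ i ∈ F.I, ∀ j ∈ F.I, i ≠ j → ∀ b, F.Alive th i b → F.Alive th j b →
    (F.L i : ℝ) ≤ F.ρ j + th * b ∨ (F.L j : ℝ) ≤ F.ρ i + th * b

/-- **T4, the number of large faces which meet a triangle** (from T1, T2, T3).

Proof.  `T' = (A + ⌈th w⌉₊, B - w, ρ - th w)`, `n' = n + ⌈th w⌉₊/th + 2 w ≤ n + 3 w + 1`.  The sets of
cells of `tri T'` covered by different `i ∈ J` are disjoint (`Dis`), each has at least `th w²/2`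
elements (T2, T3), and `#tri T' ≤ th n'²/2 + (th + 2)(n' + 1) ≤ 9 (n + 3w + 1)²` (`1 ≤ th ≤ 2`,
`n + 3 w + 1 ≥ 1`). -/
def NumBound : Prop :=
  ∀ (F : Faces ℚ) (A B w : ℕ) (ρ n : ℝ) (J : Finset ℚ), Dis F →
    1 ≤ w → w ≤ B → 0 ≤ ρ - th * w + th * (B - w) → n = (A - ρ) / th - B → 0 ≤ n → J ⊆ F.I →
    (∀ i ∈ J, (w : ℝ) ≤ F.lam th i ∧ 0 ≤ sz F i A B ρ) →
    (J.card : ℝ) * w ^ 2 ≤ 18 * (n + 3 * w + 1) ^ 2

/-- **T5, no face fills the triangle around a point of a base.**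

Proof.  `A = L_i + ⌈th n⌉₊`, `B = b - n`, `ρ = L_i - th b - th n`.
`j = i`: `min L_i A = A - ⌈th n⌉₊ ≤ A - th n`.  `j ≠ i` alive in row `b`: either
`L_i ≤ ρ_j + th b`, so `max ρ_j ρ ≥ ρ_j ≥ L_i - th b = ρ + th n`; or `L_j ≤ ρ_i + th b < L_i`, so
`min L_j A ≤ L_j ≤ L_i ≤ A - th n`.  `j` not alive in row `b`: if `b < s_j` then
`max s_j B ≥ b = B + n`; if `L_j ≤ ρ_j + th b` then
`min L_j A - max ρ_j ρ ≤ L_j - ρ_j ≤ th b`, and `A - ρ - th n ≥ L_i + th n - L_i + th b + th n - th n ≥ th b`.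
In all cases `sz ≤ (A - ρ - th B) - th n`. -/
def BasePoint : Prop :=
  ∀ (F : Faces ℚ) (i j : ℚ) (b n : ℕ), Dis F → i ∈ F.I → j ∈ F.I → F.Alive th i b → n ≤ b →
    sz F j (F.L i + ⌈th * n⌉₊) (b - n) (F.L i - th * b - th * n) ≤
      ((F.L i + ⌈th * n⌉₊ : ℕ) : ℝ) - (F.L i - th * b - th * n) - th * (b - n : ℕ) - th * n

/-- **T6, uncovered cells around a point of a base** (from S8, T1, T2, T4, T5).

Proof.  Let `M ≥ 1` be given, `w ≥ w₀`, `n = M w`, `A, B, ρ` as in T5, `n_T = (A - ρ)/th - B =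
⌈th n⌉₊/th + 2 n`, `3 n ≤ n_T ≤ 3 n + 1`.  `J` = faces `j ∈ big w` with `sz j A B ρ ≥ 0`.
`ρ + th B = L_i - 2 th n`, so the condition of T4 (`L_i ≥ 4 (n + w)`, `th < 2`) holds:
`#J ≤ 18 (3 M + 5)² =: N` (T4).  S8 with `N`, `ε = 1/10` (`th n_T ≥ τ₀`): with
`λ_j = max 0 sz_j / th`: `∑_(j ∈ J) λ_j ≤ (11/10) n_T`; T5: `λ_j ≤ n_T - n ≤ 2 n + 1`.
Covered cells of `tri A B ρ` are covered by some `j ∈ J` (T2), so their number is at most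
`∑_(j ∈ J) (th λ_j²/2 + (th + 2)(λ_j + 1)) ≤ (th/2)(2 n + 1)(11/10) n_T + 4 ((11/10) n_T + N)`.
`#tri ≥ th n_T²/2` (T1).  The difference is at least
`(th n_T/2)(3 n - (11/10)(2 n + 1)) - 5 n_T - 4 N ≥ (3/2) n (8/10 n - 11/10) - 5 (3n + 1) - 4 N ≥ n²`
for `n ≥ w ≥ w₀(M)`. -/
def UncBase : Prop :=
  ∀ M : ℕ, 1 ≤ M → ∃ w₀ : ℕ, ∀ w : ℕ, w₀ ≤ w → ∀ (F : Faces ℚ) (i : ℚ) (b : ℕ)
      (S : Finset (ℕ × ℕ)), Ari F → Dis F → i ∈ F.big th w → F.Alive th i b →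
      M * w + w ≤ b → 4 * (M * w + w) ≤ F.L i →
      (∀ p, p ∈ S ↔ p ∈ tri (F.L i + ⌈th * (M * w : ℕ)⌉₊) (b - M * w)
          (F.L i - th * b - th * (M * w : ℕ)) ∧ ∀ j ∈ F.big th w, ¬ F.Cov th j p.1 p.2) →
      ((M * w : ℕ) : ℝ) ^ 2 ≤ (S.card : ℝ)

/-- **T7, multiplicity** (from S8, T1, T4).

Proof.  `n = M w`, `p = (a, b)`, `z = (i, b')` in `Z`: from `p ∈ tri ..` (T1): `b' - n ≤ b`,
`a ≤ L_i + ⌈th n⌉₊ ≤ L_i + th n + 1`, `L_i - th b' - th n + th b < a`.  So `b' ≤ b + n`,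
`a - th n - 1 ≤ L_i < a + th n + th (b' - b) ≤ a + 2 th n`, and `b' > b - 2 n - 1/th`, so `b' ≥ b - 2 n`
(`th > 1`).
Let `A = a + ⌈2 th n⌉₊`, `B = b - 2 n`, `ρ = a - th n - 2 - th (b + n)`; `L_i ≤ A`, `B ≤ b'`,
`ρ + th b' < L_i`.  So for fixed `i` the `b'` lie in `[max s_i B, (L_i - max ρ_i ρ)/th)`: their number
is at most `sz i A B ρ / th + 1`, and `sz i A B ρ > 0`.  `n' = (A - ρ)/th - B ≤ 6 n + 3`, `≥ 3 n`.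
T4 (`w ≤ b - 2n`; `ρ + th B = a - 4 th n - 2 ≥ 2 th w`): the number of the `i` is at most
`18 (6 n + 3 w + 4)²/w² ≤ 18 (6 M + 7)² =: N`.  S8 with `ε = 1/10`:
`#Z ≤ (11/10)(6 n + 3) + N ≤ 8 n` for `w ≥ w₀(M)`. -/
def Multi : Prop :=
  ∀ M : ℕ, 1 ≤ M → ∃ w₀ : ℕ, ∀ w : ℕ, w₀ ≤ w → ∀ (F : Faces ℚ) (a b : ℕ) (Z : Finset (ℚ × ℕ)),
      Ari F → Dis F → 2 * (M * w) + w ≤ b → 8 * (M * w) + 4 * w + 2 ≤ a →
      (∀ z ∈ Z, z.1 ∈ F.big th w ∧ F.Alive th z.1 z.2 ∧ M * w ≤ z.2 ∧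
        (a, b) ∈ tri (F.L z.1 + ⌈th * (M * w : ℕ)⌉₊) (z.2 - M * w)
          (F.L z.1 - th * z.2 - th * (M * w : ℕ))) →
      (Z.card : ℝ) ≤ 8 * (M * w : ℕ)

/-- Faces with a special face `g`, which consists of the columns `a ≤ V` (in the rows `b ≤ Hm`). -/
structure Cls (F : Faces ℚ) (g : ℚ) (V Hm : ℕ) : Prop where
  ari : Ari F
  dis : Dis F
  mem : g ∈ F.I
  Lg : F.L g = V
  sg : F.s g = 0
  rg : F.ρ g + th * Hm < 0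

open Classical in
/-- The cells of the columns `V < a ≤ V + A` and the rows `B ≤ b < H` not covered by faces of life
at least `w`. -/
noncomputable def Unc2 (F : Faces ℚ) (w : ℝ) (V A B H : ℕ) : Finset (ℕ × ℕ) :=
  ((Ioc V (V + A)) ×ˢ (Ico B H)).filter fun p => ∀ i ∈ F.big th w, ¬ F.Cov th i p.1 p.2

open Classical in
/-- The points of the bases of faces of life at least `w`, well inside the region; `n` is the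
margin. -/
noncomputable def Base (F : Faces ℚ) (w : ℝ) (n V A B H : ℕ) : Finset (ℚ × ℕ) :=
  ((F.big th w) ×ˢ (range H)).filter fun z => F.Alive th z.1 z.2 ∧ B + n ≤ z.2 ∧
    z.2 + 3 * n ≤ H ∧ V ≤ F.L z.1 ∧ F.L z.1 + ⌈th * n⌉₊ ≤ V + A

/-- **T8, one scale** (from T1, T6, T7).

Proof.  `M = max 1 ⌈8 K⌉₊`, `w₀` = maximum of those of T6, T7 and `1`; `n = M w`.  For
`z = (i, b') ∈ Base` let `U(z)` be the uncovered cells of `tri (L_i + ⌈th n⌉₊) (b' - n) (..)`: `≥ n²` (T6;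
`n + w ≤ 2 n ≤ B + n ≤ b'`, `4 (n + w) ≤ 8 n ≤ V ≤ L_i`).  `U(z) ⊆ Unc2`: rows `≥ b' - n ≥ B`; the life of
the triangle is at most `3 n + 1`, so rows `< b' - n + 3 n + 1`, `≤ b' + 2 n < b' + 3 n ≤ H`; columns
`≤ L_i + ⌈th n⌉₊ ≤ V + A`; columns `> V`, because the face `g` covers the cells `a ≤ V` of the rows
`b ≤ Hm` (`s g = 0`, `ρ g + th b < 0 ≤ a`... with `a ≥ 0`), and `g ∈ big w`
(`lam g = (V - ρ g)/th ≥ Hm ≥ H ≥ w`; if `H < w` then `Base` is empty).  Every cell `(a, b)` of `Unc2` lies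
in at most `8 n` of the `U(z)` (T7: `2 n + w ≤ 3 n ≤ B ≤ b`, `8 n + 4 w + 2 ≤ 20 n ≤ V < a`).  So
`n² #Base ≤ 8 n #Unc2`, `#Unc2 ≥ (M/8) w #Base ≥ K w #Base`. -/
def OneScale : Prop :=
  ∀ K : ℝ, 0 < K → ∃ M w₀ : ℕ, 1 ≤ M ∧ 1 ≤ w₀ ∧ ∀ w : ℕ, w₀ ≤ w →
    ∀ (F : Faces ℚ) (g : ℚ) (V Hm A B H : ℕ), Cls F g V Hm → 3 * (M * w) ≤ B → 20 * (M * w) ≤ V →
      H ≤ Hm → K * w * ((Base F w (M * w) V A B H).card : ℝ) ≤ ((Unc2 F w V A B H).card : ℝ)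

/-- **T9, splitting by scales.**

Proof.  Write `n_m = M 2^m`, `B_m = 4 n_m`, `H_m = H - 8 n_m`, `A_m = 2 H - 8 n_m` (natural numbers; `8 n_m ≤ H` for
`m ≤ k`), `Z_m = Base F 2^m n_m V A_m B_m H_m`.  Let `p = (a, b) ∈ Unc2 F 2^k V A_k B_k H_k`, not in
`Unc2 F 2^m₀ V (2H) 0 H`.  It lies in that region, so it is covered by some `i ∈ big 2^m₀`, which is not in
`big 2^k`: `2^m₀ ≤ lam i < 2^k`; let `m₀ ≤ m < k` with `2^m ≤ lam i < 2^(m+1)`.  Then `z = (i, b) ∈ Z_m`: `i` is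
alive in the row `b`; `b < H_k ≤ H_m`; `B_m + n_m = 5 n_m ≤ 8 n_m = B_(m+1) ≤ B_k ≤ b`;
`b + 3 n_m ≤ H_k + 3 n_m ≤ H - 16 n_m + 3 n_m ≤ H_m` (`n_k ≥ 2 n_m`); `V < a ≤ L_i`; and
`L_i ≤ a + th lam i ≤ V + A_k + 4 · 2^m` (`a > ρ_i + th b ≥ ρ_i + th s_i = L_i - th lam i`, `th < 2`), so
`L_i + ⌈th n_m⌉₊ ≤ V + 2 H - 16 n_m + 4 n_m + 2 n_m + 1 ≤ V + A_m`.
The number of cells of the row `b` covered by `i` is at most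
`L_i - ρ_i - th b + 1 ≤ th lam i + 1 ≤ 4 · 2^m + 1 ≤ 5 · 2^m`.
So `Unc2 F 2^k .. ⊆ Unc2 F 2^m₀ .. ∪ ⋃_(m₀ ≤ m < k) ⋃_(z ∈ Z_m, lam z.1 < 2^(m+1)) {(a, z.2) covered by z.1}`
(`Finset.card_biUnion_le`). -/
def Split : Prop :=
  ∀ (F : Faces ℚ) (V H M m₀ k : ℕ), 1 ≤ M → 32 * (M * 2 ^ k) ≤ H → m₀ ≤ k →
    ((Unc2 F (2 ^ k : ℕ) V (2 * H - 8 * (M * 2 ^ k)) (4 * (M * 2 ^ k))
        (H - 8 * (M * 2 ^ k))).card : ℝ) ≤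
      ((Unc2 F (2 ^ m₀ : ℕ) V (2 * H) 0 H).card : ℝ) +
        ∑ m ∈ Ico m₀ k, 5 * (2 : ℝ) ^ m * ((Base F (2 ^ m : ℕ) (M * 2 ^ m) V
          (2 * H - 8 * (M * 2 ^ m)) (4 * (M * 2 ^ m)) (H - 8 * (M * 2 ^ m))).card : ℝ)

/-- **T10, all scales** (from T8, T9).

Proof.  We may assume `ε ≤ 1/2` (`H^(2-ε) ≤ H^(2-1/2)` for `ε ≥ 1/2`, `H ≥ 1`).  `K = 5/(2^ε - 1) > 0`, so
`1 + 5/K = 2^ε`; `M, w₀` from T8; `m₀` with `2^m₀ ≥ w₀`; `w = 2^m₀`.  Notation `n_m, A_m, B_m, H_m, Z_m` as in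
T9; `z_m = #Z_m`, `U = #Unc2 F 2^m₀ V (2H) 0 H`.  `k₁` is maximal with `32 M 2^(k₁) ≤ H`; `k₁ ≥ m₀` for
`H ≥ H₀ = 32 M 2^m₀`; `2^(k₁) > H/(64 M)`.
T8 (for `Hm = H`; `3 n_k ≤ B_k`, `20 n_k ≤ 20 H ≤ V`, `H_k ≤ H`) and T9: for `m₀ ≤ k ≤ k₁`:
`K 2^k z_k ≤ S_k := U + ∑_(m ∈ Ico m₀ k) 5 · 2^m z_m`.  So `S_(k+1) = S_k + 5 · 2^k z_k ≤ (1 + 5/K) S_k = 2^ε S_k`,
`S_k ≤ 2^(ε (k - m₀)) U ≤ 2^(ε k) U` by induction, and `K 2^(k₁) z_(k₁) ≤ 2^(ε k₁) U`.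
`(g, b) ∈ Z_(k₁)` for all `b` with `5 n ≤ b`, `b + 11 n ≤ H`, `n = n_(k₁)`: `lam g = (V - ρ g)/th > H ≥ 2^(k₁)`;
alive: `s g = 0`, `ρ g + th b < 0 ≤ V` for `b ≤ H`; `L_g + ⌈th n⌉₊ ≤ V + 2 n + 1 ≤ V + A_(k₁)`.  Their number is
at least `H - 16 n ≥ H/2`.  So `U ≥ K 2^((1 - ε) k₁) H/2 ≥ (K/2) (H/(64 M))^(1 - ε) H`. -/
def GeoB : Prop :=
  ∀ ε : ℝ, 0 < ε → ∃ w : ℕ, 0 < w ∧ ∃ c : ℝ, 0 < c ∧ ∃ H₀ : ℕ, ∀ H : ℕ, H₀ ≤ H →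
    ∀ (F : Faces ℚ) (g : ℚ) (V : ℕ), Cls F g V H → 20 * H ≤ V →
      c * (H : ℝ) ^ (2 - ε) ≤ ((Unc2 F w V (2 * H) 0 H).card : ℝ)

/-- **T11, the faces of the array `g 3^b / 2^(a - V)`.**

Proof.  As `exists_faces` in `Tri/Arith.lean` (copy the proof), for the number `G = g 2^V` instead of
`g`: `F.I` = image of `gam` on the small cells of the region `Ioc V (V + A) ×ˢ range H`, plus `G`;
`L`, `s` from `exists_data` (`cap` as there plus `V + A`) for `γ ≠ G`, `L G = V`, `s G = 0`,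
`ρ γ = logb 2 (|G - γ| 8)` for `γ ≠ G` and `ρ G = - th H - 1`.  (`IntAt G a b ↔ a ≤ V` as `g` is odd.)
`γ = gam p ≠ G` for small cells `p` with `p.1 > V` (`IntAt γ p.1 p.2`).
`Dis`: as there; for `i = G`, `j ≠ G` alive in the row `b`: `V ≤ ρ_j + th b`, because otherwise (if
`V ≤ L_j`) `IntAt j V b`, `|G - j| 8 3^b < 2^V`, so `|G 3^b/2^V - k| < 1/8` for an integer `k` with
`j 3^b = k 2^V`, and `G 3^b / 2^V` is an integer, so `j = G`; if `L_j < V` use `a = L_j` in the same way (`ρ_j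
+ th b < L_j` as `j` is alive) to get `j = G`.
`Ari`: `IntAt`; distances: `|i - j| ≤ |G - i| + |G - j| = (2^(ρ_i) + 2^(ρ_j))/8 ≤ 2^(max ρ_i ρ_j)` for
`i, j ≠ G`; `|i - G| = 2^(ρ_i)/8`.
Uncovered cells `p` (`V < p.1`): if `p` is not small for `G` take `a' = p.1 - V`.  Otherwise `γ = gam p` has
life `< w` and `L_γ + 1` is not small, as there; `a' = L_γ + 1 - V`.  Finally
`Sm G a b ↔ Sm g (a - V) b` for `a ≥ V`. -/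
def FacesV : Prop :=
  ∀ (g : ℕ), Odd g → ∀ (w V A H : ℕ), 0 < w → ∃ (F : Faces ℚ) (G : ℚ), Cls F G V H ∧
    ∀ p ∈ Unc2 F w V A 0 H, ∃ a' : ℕ, 0 < a' ∧ p.1 ≤ V + a' ∧
      ((V + a' : ℕ) : ℝ) ≤ p.1 + th * w + 1 ∧ ¬ Sm g a' p.2

end MPcc0Tri2
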