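import Pool.Agent.Lib.MP_cc0c1a_nt.Tri2.SpecT

/-!
# MP_cc0c1a_nt / Tri2 / T6: uncovered cells around a point of a base
-/

set_option autoImplicit false

namespace MPcc0Tri2

open Finset MPcc0Tri

private lemma t6_one : 1 < th := by
  unfold th
  rw [Real.lt_logb_iff_rpow_lt (by norm_num) (by norm_num)]
  norm_num

/-- The numerical inequality. -/
private lemma t6_num {t n x N : ℝ} (ht1 : 1 ≤ t) (ht2 : t ≤ 2) (hN : 0 ≤ N) (hn : 150 ≤ n)
    (hnN : 40 * N + 44 ≤ n) (hx1 : 3 * n ≤ x) (hx2 : x ≤ 3 * n + 1) :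
    n ^ 2 ≤ t * x ^ 2 / 2 -
      ((t / 2) * (2 * n + 1) * (11 / 10 * x) + (t + 2) * (11 / 10 * x + N)) := by
  have h1 : 8 / 10 * n - 11 / 10 ≤ x - 11 / 10 * (2 * n + 1) := by linarith
  have h2 : 0 ≤ 8 / 10 * n - 11 / 10 := by linarith
  have h3 : 3 * n / 2 ≤ t * x / 2 := by nlinarith
  have h4 : 3 * n / 2 * (8 / 10 * n - 11 / 10) ≤ t * x / 2 * (x - 11 / 10 * (2 * n + 1)) := by
    have : 0 ≤ t * x / 2 := by nlinarith
    calc 3 * n / 2 * (8 / 10 * n - 11 / 10) ≤ t * x / 2 * (8 / 10 * n - 11 / 10) :=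
          mul_le_mul_of_nonneg_right h3 h2
      _ ≤ t * x / 2 * (x - 11 / 10 * (2 * n + 1)) := mul_le_mul_of_nonneg_left h1 this
  have h5 : (t + 2) * (11 / 10 * x + N) ≤ 4 * (11 / 10 * (3 * n + 1) + N) := by
    have e1 : 0 ≤ 11 / 10 * x + N := by linarith
    calc (t + 2) * (11 / 10 * x + N) ≤ 4 * (11 / 10 * x + N) :=
          mul_le_mul_of_nonneg_right (by linarith) e1
      _ ≤ 4 * (11 / 10 * (3 * n + 1) + N) := by linarith
  have h6 : t * x ^ 2 / 2 - ((t / 2) * (2 * n + 1) * (11 / 10 * x) + (t + 2) * (11 / 10 * x + N)) =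
      t * x / 2 * (x - 11 / 10 * (2 * n + 1)) - (t + 2) * (11 / 10 * x + N) := by ring
  rw [h6]
  nlinarith

theorem t6 (h1 : SizeSum) (h2 : TriCount) (h3 : FaceTri) (h4 : NumBound) (h5 : BasePoint) :
    UncBase := by
  classical
  intro M hM
  have hth := th_pos
  have hone := t6_one
  have hlt := th_lt
  obtain ⟨τ₀, hτ₀, hsz⟩ := h1 (18 * (3 * M + 5) ^ 2) (1 / 10) (by norm_num)
  refine ⟨max (40 * (18 * (3 * M + 5) ^ 2) + 150) (⌈τ₀⌉₊ + 1), ?_⟩
  intro w hw F i b S hAri hDis hi hal hb hL hS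
  have hw1 : 40 * (18 * (3 * M + 5) ^ 2) + 150 ≤ w := (le_max_left _ _).trans hw
  have hw2 : ⌈τ₀⌉₊ + 1 ≤ w := (le_max_right _ _).trans hw
  set n : ℕ := M * w with hn
  have hnw : w ≤ n := by
    rw [hn]
    exact Nat.le_mul_of_pos_left w hM
  have hwR : (1 : ℝ) ≤ w := by
    have : 1 ≤ w := by omega
    exact_mod_cast this
  have hnR : (w : ℝ) ≤ n := by exact_mod_cast hnw
  set A : ℕ := F.L i + ⌈th * (n : ℕ)⌉₊ with hA
  set B : ℕ := b - n with hB
  set ρ : ℝ := F.L i - th * b - th * (n : ℕ) with hρ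
  have hBc : (B : ℝ) = (b : ℝ) - n := by
    rw [hB, Nat.cast_sub (by omega)]
  have hAc : (A : ℝ) = (F.L i : ℝ) + (⌈th * (n : ℕ)⌉₊ : ℝ) := by
    rw [hA]
    push_cast
    ring
  have hcn1 : th * (n : ℝ) ≤ (⌈th * (n : ℕ)⌉₊ : ℝ) := Nat.le_ceil _
  have hcn2 : (⌈th * (n : ℕ)⌉₊ : ℝ) < th * n + 1 := Nat.ceil_lt_add_one (by positivity)
  set x : ℝ := ((A : ℝ) - ρ) / th - B with hx
  have hxe : x = (⌈th * (n : ℕ)⌉₊ : ℝ) / th + 2 * n := by
    rw [hx, hAc, hBc, hρ]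
    field_simp
    ring
  have hc1 : (⌈th * (n : ℕ)⌉₊ : ℝ) / th ≤ n + 1 := by
    rw [div_le_iff₀ hth]
    nlinarith
  have hc2 : (n : ℝ) ≤ (⌈th * (n : ℕ)⌉₊ : ℝ) / th := by
    rw [le_div_iff₀ hth]
    linarith
  have hx1 : 3 * (n : ℝ) ≤ x := by
    rw [hxe]
    linarith
  have hx2 : x ≤ 3 * n + 1 := by
    rw [hxe]
    linarith
  have hx0 : 0 ≤ x := by linarith
  have hLR : 4 * ((n : ℝ) + w) ≤ F.L i := by exact_mod_cast hL
  have hthn : th * (n : ℝ) ≤ 2 * n := mul_le_mul_of_nonneg_right hlt.le (Nat.cast_nonneg _)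
  have hthw : th * (w : ℝ) ≤ 2 * w := mul_le_mul_of_nonneg_right hlt.le (Nat.cast_nonneg _)
  have hρB : ρ + th * B = F.L i - 2 * (th * n) := by
    rw [hBc, hρ]
    ring
  have hρB0 : 0 ≤ ρ + th * B := by
    rw [hρB]
    linarith
  -- the faces which meet the triangle
  set J : Finset ℚ := (F.big th w).filter fun j => 0 ≤ sz F j A B ρ with hJ
  have hJI : J ⊆ F.I := by
    intro j hj
    exact (mem_filter.1 (mem_filter.1 hj).1).1
  have hnum := h4 F A B w ρ x J hDis (by omega) (by omega) (by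
    have : ρ - th * w + th * (B - w) = (ρ + th * B) - 2 * (th * w) := by ring
    rw [this, hρB]
    linarith) hx hx0 hJI (by
    intro j hj
    obtain ⟨e1, e2⟩ := mem_filter.1 hj
    exact ⟨(mem_filter.1 e1).2, e2⟩)
  have hJcard : J.card ≤ 18 * (3 * M + 5) ^ 2 := by
    have e0 : (n : ℝ) = M * w := by
      rw [hn]
      push_cast
      ring
    have e1 : x + 3 * w + 1 ≤ (3 * M + 5) * w := by
      have : 3 * (n : ℝ) + 1 + 3 * w + 1 ≤ (3 * M + 5) * w := by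
        rw [e0]
        nlinarith
      linarith
    have e2 : (x + 3 * w + 1) ^ 2 ≤ ((3 * M + 5) * w) ^ 2 :=
      pow_le_pow_left₀ (by linarith) e1 2
    have e3 : (J.card : ℝ) * (w : ℝ) ^ 2 ≤ (18 * (3 * M + 5) ^ 2) * (w : ℝ) ^ 2 := by
      have : ((3 * (M : ℝ) + 5) * w) ^ 2 = (3 * M + 5) ^ 2 * (w : ℝ) ^ 2 := by ring
      rw [this] at e2
      linarith
    have e4 : (J.card : ℝ) ≤ 18 * (3 * M + 5) ^ 2 :=
      le_of_mul_le_mul_right e3 (by positivity)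
    exact_mod_cast e4
  have hτn : (A : ℝ) - ρ - th * B = th * x := by
    rw [hx]
    field_simp
  have hτ1 : τ₀ ≤ (A : ℝ) - ρ - th * B := by
    rw [hτn]
    have e1 : τ₀ ≤ (⌈τ₀⌉₊ : ℝ) := Nat.le_ceil _
    have e2 : (⌈τ₀⌉₊ : ℝ) + 1 ≤ w := by exact_mod_cast hw2
    have e3 : 1 * x ≤ th * x := mul_le_mul_of_nonneg_right hone.le hx0
    linarith
  have hsum := hsz F hAri J hJI hJcard A B ρ hτ1
  rw [hτn] at hsum
  -- the covered cells of a face
  let T : ℚ → Finset (ℕ × ℕ) := fun j => (tri A B ρ).filter fun p => F.Cov th j p.1 p.2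
  have hTmem : ∀ j, ∀ p, p ∈ T j ↔ p ∈ tri A B ρ ∧ F.Cov th j p.1 p.2 := by
    intro j p
    simp only [T, mem_filter]
  set lj : ℚ → ℝ := fun j => max 0 (sz F j A B ρ) / th with hlj
  have hlj0 : ∀ j, 0 ≤ lj j := fun j => div_nonneg (le_max_left _ _) hth.le
  have hljs : ∑ j ∈ J, lj j ≤ 11 / 10 * x := by
    rw [hlj, ← sum_div, div_le_iff₀ hth]
    linarith
  have hTle : ∀ j ∈ J, ((T j).card : ℝ) ≤ (th / 2) * (2 * n + 1) * lj j +
      (th + 2) * (lj j + 1) := by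
    intro j hj
    have e1 := (h3 F j A B ρ (T j) hρB0 (hTmem j)).1
    have e2 : lj j ≤ 2 * n + 1 := by
      have e3 := h5 F i j b n hDis (mem_filter.1 hi).1 (hJI hj) hal (by omega)
      have e4 : ((F.L i + ⌈th * (n : ℕ)⌉₊ : ℕ) : ℝ) - (F.L i - th * b - th * (n : ℕ)) -
          th * (b - n : ℕ) = th * x := hτn
      rw [e4] at e3
      have e5 : max 0 (sz F j A B ρ) ≤ th * x - th * n := by
        apply max_le
        · have : th * (n : ℝ) ≤ th * x := mul_le_mul_of_nonneg_left (by linarith) hth.le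
          linarith
        · exact e3
      rw [hlj]
      simp only
      rw [div_le_iff₀ hth]
      have e6 : th * x ≤ th * (3 * n + 1) := mul_le_mul_of_nonneg_left hx2 hth.le
      linarith
    have e7 : th * (lj j) ^ 2 / 2 ≤ (th / 2) * (2 * n + 1) * lj j := by
      have : th * (lj j) ^ 2 / 2 = (th / 2) * lj j * lj j := by ring
      rw [this]
      apply mul_le_mul_of_nonneg_right _ (hlj0 j)
      apply mul_le_mul_of_nonneg_left e2
      linarith
    have e8 : ((T j).card : ℝ) ≤ th * (lj j) ^ 2 / 2 + (th + 2) * (lj j + 1) := e1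
    linarith
  -- the covered cells
  have hcov : (tri A B ρ) ⊆ S ∪ J.biUnion T := by
    intro p hp
    rw [mem_union]
    by_cases h : ∀ j ∈ F.big th w, ¬ F.Cov th j p.1 p.2
    · exact Or.inl ((hS p).2 ⟨hp, h⟩)
    · push Not at h
      obtain ⟨j, hj, hj2⟩ := h
      right
      rw [mem_biUnion]
      have hpT : p ∈ T j := (hTmem j p).2 ⟨hp, hj2⟩
      refine ⟨j, mem_filter.2 ⟨hj, ?_⟩, hpT⟩
      by_contra hneg
      push Not at hneg
      have e1 := (h3 F j A B ρ (T j) hρB0 (hTmem j)).2.1 hneg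
      rw [e1] at hpT
      simp at hpT
  have hle : ((tri A B ρ).card : ℝ) ≤ S.card + ∑ j ∈ J, ((T j).card : ℝ) := by
    have e1 := card_le_card hcov
    have e2 := card_union_le S (J.biUnion T)
    have e3 : (J.biUnion T).card ≤ ∑ j ∈ J, (T j).card := card_biUnion_le
    have e4 : (tri A B ρ).card ≤ S.card + ∑ j ∈ J, (T j).card := by omega
    exact_mod_cast e4
  have hsumT : ∑ j ∈ J, ((T j).card : ℝ) ≤ (th / 2) * (2 * n + 1) * (11 / 10 * x) +
      (th + 2) * (11 / 10 * x + ((18 * (3 * M + 5) ^ 2 : ℕ) : ℝ)) := by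
    have e1 := sum_le_sum hTle
    rw [sum_add_distrib, ← mul_sum, ← mul_sum, sum_add_distrib, sum_const, nsmul_eq_mul,
      mul_one] at e1
    have e2 : (J.card : ℝ) ≤ ((18 * (3 * M + 5) ^ 2 : ℕ) : ℝ) := by exact_mod_cast hJcard
    have e3 : (th / 2) * (2 * n + 1) * ∑ j ∈ J, lj j ≤
        (th / 2) * (2 * n + 1) * (11 / 10 * x) := by
      apply mul_le_mul_of_nonneg_left hljs
      positivity
    have e4 : (th + 2) * (∑ j ∈ J, lj j + J.card) ≤
        (th + 2) * (11 / 10 * x + ((18 * (3 * M + 5) ^ 2 : ℕ) : ℝ)) := by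
      apply mul_le_mul_of_nonneg_left _ (by linarith)
      linarith
    linarith
  have htri := (h2.2 A B ρ x hρB0 hx hx0).1
  have e7 : 40 * ((18 * (3 * M + 5) ^ 2 : ℕ) : ℝ) + 150 ≤ w := by exact_mod_cast hw1
  have hN0 : (0 : ℝ) ≤ ((18 * (3 * M + 5) ^ 2 : ℕ) : ℝ) := Nat.cast_nonneg _
  have hfin := t6_num hone.le hlt.le hN0 (n := (n : ℝ)) (by linarith) (by linarith) hx1 hx2
  linarith

end MPcc0Tri2
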